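import Mathlib

section

set_option autoImplicit false
set_option maxSynthPendingDepth 3

namespace Pool.Agent.MP_92c74b_an

open Set MeasureTheory
open scoped ContDiff

abbrev E : Type := EuclideanSpace ℝ (Fin 4)

noncomputable def ee (k : Fin 4) : E := EuclideanSpace.single k (1:ℝ)

/-- Partial derivative. -/
noncomputable def D (k : Fin 4) (f : E → ℝ) : E → ℝ := fun z => fderiv ℝ f z (ee k)

/-- Laplacian. -/
noncomputable def Lap (f : E → ℝ) : E → ℝ := fun z => ∑ k, D k (D k f) z

lemma inf_ne : (∞ : WithTop ℕ∞) ≠ 0 := by simp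

lemma smooth_diff {f : E → ℝ} (hf : ContDiff ℝ ∞ f) : Differentiable ℝ f :=
  hf.differentiable inf_ne

lemma norm_sq_eq (L : E →L[ℝ] ℝ) : ‖L‖ ^ 2 = ∑ k, L (ee k) ^ 2 := by
  rw [(EuclideanSpace.basisFun (Fin 4) ℝ).norm_dual L]
  simp [ee]

lemma norm_fderiv_sq (f : E → ℝ) (z : E) : ‖fderiv ℝ f z‖ ^ 2 = ∑ k, D k f z ^ 2 :=
  norm_sq_eq _

lemma D_smooth (k : Fin 4) {f : E → ℝ} (hf : ContDiff ℝ ∞ f) : ContDiff ℝ ∞ (D k f) :=
  (hf.fderiv_right (m := ∞) le_rfl).clm_apply contDiff_const

lemma Lap_smooth {f : E → ℝ} (hf : ContDiff ℝ ∞ f) : ContDiff ℝ ∞ (Lap f) :=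
  ContDiff.sum fun k _ => D_smooth k (D_smooth k hf)

lemma D_mul (k : Fin 4) {f g : E → ℝ} (hf : ContDiff ℝ ∞ f) (hg : ContDiff ℝ ∞ g) :
    D k (fun y => f y * g y) = fun z => f z * D k g z + D k f z * g z := by
  funext z
  unfold D
  rw [fderiv_fun_mul (smooth_diff hf z) (smooth_diff hg z)]
  simp [mul_comm]

lemma D_add (k : Fin 4) {f g : E → ℝ} (hf : ContDiff ℝ ∞ f) (hg : ContDiff ℝ ∞ g) :
    D k (fun y => f y + g y) = fun z => D k f z + D k g z := by
  funext z
  unfold D
  rw [fderiv_fun_add (smooth_diff hf z) (smooth_diff hg z)]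
  simp

lemma D_const (k : Fin 4) (c : ℝ) : D k (fun _ => c) = fun _ => 0 := by
  funext z
  simp [D]

lemma D_const_mul (k : Fin 4) (c : ℝ) {f : E → ℝ} (hf : ContDiff ℝ ∞ f) :
    D k (fun y => c * f y) = fun z => c * D k f z := by
  rw [D_mul k contDiff_const hf, D_const]
  simp

lemma deriv_smooth {θ : ℝ → ℝ} (hθ : ContDiff ℝ ∞ θ) : ContDiff ℝ ∞ (deriv θ) :=
  (contDiff_infty_iff_deriv.mp hθ).2

lemma D_comp (k : Fin 4) {θ : ℝ → ℝ} {f : E → ℝ} (hθ : ContDiff ℝ ∞ θ) (hf : ContDiff ℝ ∞ f) :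
    D k (fun y => θ (f y)) = fun z => deriv θ (f z) * D k f z := by
  funext z
  unfold D
  have h := (hθ.differentiable inf_ne (f z)).hasDerivAt.comp_hasFDerivAt z
    (smooth_diff hf z).hasFDerivAt
  have h2 : fderiv ℝ (fun y => θ (f y)) z = deriv θ (f z) • fderiv ℝ f z := h.fderiv
  rw [h2]
  simp

lemma Lap_add {f g : E → ℝ} (hf : ContDiff ℝ ∞ f) (hg : ContDiff ℝ ∞ g) (z : E) :
    Lap (fun y => f y + g y) z = Lap f z + Lap g z := by
  unfold Lap
  rw [← Finset.sum_add_distrib]
  refine Finset.sum_congr rfl fun k _ => ?_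
  rw [D_add k hf hg, D_add k (D_smooth k hf) (D_smooth k hg)]

lemma Lap_const (c : ℝ) (z : E) : Lap (fun _ => c) z = 0 := by
  unfold Lap
  simp [D_const]

lemma Lap_const_mul (c : ℝ) {f : E → ℝ} (hf : ContDiff ℝ ∞ f) (z : E) :
    Lap (fun y => c * f y) z = c * Lap f z := by
  unfold Lap
  rw [Finset.mul_sum]
  refine Finset.sum_congr rfl fun k _ => ?_
  rw [D_const_mul k c hf, D_const_mul k c (D_smooth k hf)]

lemma Lap_comp {θ : ℝ → ℝ} {f : E → ℝ} (hθ : ContDiff ℝ ∞ θ) (hf : ContDiff ℝ ∞ f) (z : E) :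
    Lap (fun y => θ (f y)) z
      = deriv θ (f z) * Lap f z + deriv (deriv θ) (f z) * ‖fderiv ℝ f z‖ ^ 2 := by
  unfold Lap
  rw [norm_fderiv_sq, Finset.mul_sum, Finset.mul_sum, ← Finset.sum_add_distrib]
  refine Finset.sum_congr rfl fun k _ => ?_
  have h1 : ContDiff ℝ ∞ (fun y => deriv θ (f y)) := (deriv_smooth hθ).comp hf
  rw [D_comp k hθ hf, D_mul k h1 (D_smooth k hf), D_comp k (deriv_smooth hθ) hf]
  ring

lemma integral_D {h : E → ℝ} (k : Fin 4) (hh : ContDiff ℝ ∞ h) (hc : HasCompactSupport h) :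
    ∫ z, D k h z = 0 := by
  have h1 := integral_mul_fderiv_eq_neg_fderiv_mul_of_integrable (μ := (volume : Measure E))
    (f := fun _ : E => (1:ℝ)) (g := h) (v := ee k) (by simp)
    (by
      simp only [one_mul]
      exact (D_smooth k hh).continuous.integrable_of_hasCompactSupport (hc.fderiv_apply ℝ _))
    (by
      simp only [one_mul]
      exact hh.continuous.integrable_of_hasCompactSupport hc)
    (fun x _ => differentiableAt_const _) (fun x _ => smooth_diff hh x)
  simpa [D] using h1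

/-- A continuous function vanishing outside the support of a compactly supported function is
integrable. -/
lemma integ_of {v : E → ℝ} (hv : HasCompactSupport v) {F : E → ℝ} (hF : Continuous F)
    (h0 : ∀ z, z ∉ tsupport v → F z = 0) : Integrable F :=
  hF.integrable_of_hasCompactSupport (HasCompactSupport.intro hv h0)

lemma iadd {X : Type} [MeasurableSpace X] {μ : Measure X} {f g : X → ℝ} (hf : Integrable f μ)
    (hg : Integrable g μ) : Integrable (fun z => f z + g z) μ := hf.add hg

lemma isub {X : Type} [MeasurableSpace X] {μ : Measure X} {f g : X → ℝ} (hf : Integrable f μ)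
    (hg : Integrable g μ) : Integrable (fun z => f z - g z) μ := hf.sub hg

lemma D_zero_of {v : E → ℝ} {z : E} (hz : z ∉ tsupport v) (k : Fin 4) : D k v z = 0 := by
  unfold D
  rw [fderiv_of_notMem_tsupport ℝ hz]
  simp

lemma cont_normsq {v : E → ℝ} (hv : ContDiff ℝ ∞ v) :
    Continuous fun z => ‖fderiv ℝ v z‖ ^ 2 :=
  (hv.continuous_fderiv inf_ne).norm.pow 2

/-- The ground state identity. -/
theorem ground_state {W v : E → ℝ} (hW : ContDiff ℝ ∞ W) (hv : ContDiff ℝ ∞ v)
    (hc : HasCompactSupport v) :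
    ∫ z, ‖fderiv ℝ (fun y => W y * v y) z‖ ^ 2
      = ∫ z, (W z ^ 2 * ‖fderiv ℝ v z‖ ^ 2 - W z * Lap W z * v z ^ 2) := by
  let h : Fin 4 → E → ℝ := fun k y => (W y * D k W y) * (v y * v y)
  have hh : ∀ k, ContDiff ℝ ∞ (h k) := fun k => (hW.mul (D_smooth k hW)).mul (hv.mul hv)
  have hhc : ∀ k, HasCompactSupport (h k) := fun k =>
    HasCompactSupport.intro hc fun z hz => by simp [h, image_eq_zero_of_notMem_tsupport hz]
  have hpt : ∀ z, ‖fderiv ℝ (fun y => W y * v y) z‖ ^ 2
      = (W z ^ 2 * ‖fderiv ℝ v z‖ ^ 2 - W z * Lap W z * v z ^ 2) + ∑ k, D k (h k) z := by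
    intro z
    rw [norm_fderiv_sq, norm_fderiv_sq]
    unfold Lap
    rw [Finset.mul_sum, Finset.mul_sum, Finset.sum_mul, ← Finset.sum_sub_distrib,
      ← Finset.sum_add_distrib]
    refine Finset.sum_congr rfl fun k _ => ?_
    simp only [h]
    rw [D_mul k hW hv, D_mul k (hW.mul (D_smooth k hW)) (hv.mul hv), D_mul k hv hv,
      D_mul k hW (D_smooth k hW)]
    ring
  simp only [hpt]
  have hi1 : Integrable fun z => W z ^ 2 * ‖fderiv ℝ v z‖ ^ 2 - W z * Lap W z * v z ^ 2 := by
    refine integ_of hc ?_ ?_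
    · exact ((hW.continuous.pow 2).mul (cont_normsq hv)).sub
        ((hW.continuous.mul (Lap_smooth hW).continuous).mul (hv.continuous.pow 2))
    · intro z hz
      simp [image_eq_zero_of_notMem_tsupport hz, fderiv_of_notMem_tsupport ℝ hz]
  have hi2 : ∀ k, Integrable (D k (h k)) := fun k =>
    (D_smooth k (hh k)).continuous.integrable_of_hasCompactSupport ((hhc k).fderiv_apply ℝ _)
  rw [integral_add hi1 (integrable_finsetSum _ fun k _ => hi2 k),
    integral_finsetSum _ fun k _ => hi2 k]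
  simp [fun k => integral_D k (hh k) (hhc k)]

/-- Test functions on a set. -/
def TF (Ω : Set E) : Submodule ℝ (E → ℝ) where
  carrier := {f | ContDiff ℝ ∞ f ∧ HasCompactSupport f ∧ tsupport f ⊆ Ω}
  add_mem' := fun {f g} hf hg =>
    ⟨hf.1.add hg.1, hf.2.1.add hg.2.1,
      (tsupport_add f g).trans (union_subset hf.2.2 hg.2.2)⟩
  zero_mem' := ⟨contDiff_const, HasCompactSupport.zero, by simp [tsupport]⟩
  smul_mem' := fun c f hf =>
    ⟨hf.1.const_smul c, hf.2.1.smul_left (f := fun _ => c),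
      (tsupport_smul_subset_right (fun _ => c) f).trans hf.2.2⟩

lemma mem_TF {Ω : Set E} {f : E → ℝ} :
    f ∈ TF Ω ↔ ContDiff ℝ ∞ f ∧ HasCompactSupport f ∧ tsupport f ⊆ Ω := Iff.rfl

/-- The quadratic form. -/
noncomputable def qf (lam : ℝ) (u : E → ℝ) : ℝ :=
  (∫ z, ‖fderiv ℝ u z‖ ^ 2) - lam * ∫ z, u z ^ 2

lemma integ_normsq {v : E → ℝ} (hv : ContDiff ℝ ∞ v) (hc : HasCompactSupport v) :
    Integrable fun z => ‖fderiv ℝ v z‖ ^ 2 :=
  integ_of hc (cont_normsq hv) fun z hz => by simp [fderiv_of_notMem_tsupport ℝ hz]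

lemma integ_sq {v : E → ℝ} (hv : ContDiff ℝ ∞ v) (hc : HasCompactSupport v) :
    Integrable fun z => v z ^ 2 :=
  integ_of hc (hv.continuous.pow 2) fun z hz => by simp [image_eq_zero_of_notMem_tsupport hz]

theorem qf_mul (lam : ℝ) {W v : E → ℝ} (hW : ContDiff ℝ ∞ W) (hv : ContDiff ℝ ∞ v)
    (hc : HasCompactSupport v) :
    qf lam (fun y => W y * v y)
      = ∫ z, (W z ^ 2 * ‖fderiv ℝ v z‖ ^ 2 + W z * (-Lap W z - lam * W z) * v z ^ 2) := by
  unfold qf
  rw [ground_state hW hv hc, ← integral_const_mul, ← integral_sub]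
  · congr 1
    funext z
    ring
  · refine integ_of hc ?_ ?_
    · exact ((hW.continuous.pow 2).mul (cont_normsq hv)).sub
        ((hW.continuous.mul (Lap_smooth hW).continuous).mul (hv.continuous.pow 2))
    · intro z hz
      simp [image_eq_zero_of_notMem_tsupport hz, fderiv_of_notMem_tsupport ℝ hz]
  · refine integ_of hc (continuous_const.mul ((hW.continuous.mul hv.continuous).pow 2)) ?_
    intro z hz
    simp [image_eq_zero_of_notMem_tsupport hz]

/-- The energy bilinear form and the mass bilinear form. -/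
noncomputable def Ben (Ω : Set E) : TF Ω →ₗ[ℝ] TF Ω →ₗ[ℝ] ℝ :=
  LinearMap.mk₂ ℝ (fun u w => ∫ z, ∑ k, D k u.1 z * D k w.1 z)
    (fun u u' w => by
      rw [← integral_add]
      · congr 1
        funext z
        rw [← Finset.sum_add_distrib]
        refine Finset.sum_congr rfl fun k _ => ?_
        have : D k (u + u').1 = fun z => D k u.1 z + D k u'.1 z := D_add k u.2.1 u'.2.1
        rw [this]; ring
      · exact integ_of w.2.2.1 (continuous_finsetSum _ fun k _ =>
          (D_smooth k u.2.1).continuous.mul (D_smooth k w.2.1).continuous)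
          fun z hz => by simp [D_zero_of hz]
      · exact integ_of w.2.2.1 (continuous_finsetSum _ fun k _ =>
          (D_smooth k u'.2.1).continuous.mul (D_smooth k w.2.1).continuous)
          fun z hz => by simp [D_zero_of hz])
    (fun c u w => by
      rw [smul_eq_mul, ← integral_const_mul]
      congr 1
      funext z
      rw [Finset.mul_sum]
      refine Finset.sum_congr rfl fun k _ => ?_
      have : D k (c • u).1 = fun z => c * D k u.1 z := D_const_mul k c u.2.1
      rw [this]; ring)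
    (fun u w w' => by
      rw [← integral_add]
      · congr 1
        funext z
        rw [← Finset.sum_add_distrib]
        refine Finset.sum_congr rfl fun k _ => ?_
        have : D k (w + w').1 = fun z => D k w.1 z + D k w'.1 z := D_add k w.2.1 w'.2.1
        rw [this]; ring
      · exact integ_of u.2.2.1 (continuous_finsetSum _ fun k _ =>
          (D_smooth k u.2.1).continuous.mul (D_smooth k w.2.1).continuous)
          fun z hz => by simp [D_zero_of hz]
      · exact integ_of u.2.2.1 (continuous_finsetSum _ fun k _ =>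
          (D_smooth k u.2.1).continuous.mul (D_smooth k w'.2.1).continuous)
          fun z hz => by simp [D_zero_of hz])
    (fun c u w => by
      rw [smul_eq_mul, ← integral_const_mul]
      congr 1
      funext z
      rw [Finset.mul_sum]
      refine Finset.sum_congr rfl fun k _ => ?_
      have : D k (c • w).1 = fun z => c * D k w.1 z := D_const_mul k c w.2.1
      rw [this]; ring)

noncomputable def Bma (Ω : Set E) : TF Ω →ₗ[ℝ] TF Ω →ₗ[ℝ] ℝ :=
  LinearMap.mk₂ ℝ (fun u w => ∫ z, u.1 z * w.1 z)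
    (fun u u' w => by
      rw [← integral_add]
      · congr 1
        funext z
        simp [add_mul]
      · exact integ_of w.2.2.1 (u.2.1.continuous.mul w.2.1.continuous)
          fun z hz => by simp [image_eq_zero_of_notMem_tsupport hz]
      · exact integ_of w.2.2.1 (u'.2.1.continuous.mul w.2.1.continuous)
          fun z hz => by simp [image_eq_zero_of_notMem_tsupport hz])
    (fun c u w => by
      rw [smul_eq_mul, ← integral_const_mul]
      congr 1
      funext z
      simp [mul_assoc])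
    (fun u w w' => by
      rw [← integral_add]
      · congr 1
        funext z
        simp [mul_add]
      · exact integ_of u.2.2.1 (u.2.1.continuous.mul w.2.1.continuous)
          fun z hz => by simp [image_eq_zero_of_notMem_tsupport hz]
      · exact integ_of u.2.2.1 (u.2.1.continuous.mul w'.2.1.continuous)
          fun z hz => by simp [image_eq_zero_of_notMem_tsupport hz])
    (fun c u w => by
      rw [smul_eq_mul, ← integral_const_mul]
      congr 1
      funext z
      simp [mul_left_comm])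

lemma Ben_self {Ω : Set E} (u : TF Ω) : Ben Ω u u = ∫ z, ‖fderiv ℝ u.1 z‖ ^ 2 := by
  simp only [Ben, LinearMap.mk₂_apply, norm_fderiv_sq]
  simp only [sq]

lemma Bma_self {Ω : Set E} (u : TF Ω) : Bma Ω u u = ∫ z, u.1 z ^ 2 := by
  simp only [Bma, LinearMap.mk₂_apply, sq]

lemma Ben_symm {Ω : Set E} (u w : TF Ω) : Ben Ω u w = Ben Ω w u := by
  simp only [Ben, LinearMap.mk₂_apply, mul_comm]

lemma Bma_symm {Ω : Set E} (u w : TF Ω) : Bma Ω u w = Bma Ω w u := by
  simp only [Bma, LinearMap.mk₂_apply, mul_comm]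

noncomputable def Bq (lam : ℝ) (Ω : Set E) : TF Ω →ₗ[ℝ] TF Ω →ₗ[ℝ] ℝ := Ben Ω - lam • Bma Ω

lemma Bq_self (lam : ℝ) {Ω : Set E} (u : TF Ω) : Bq lam Ω u u = qf lam u.1 := by
  simp [Bq, qf, Ben_self, Bma_self]

lemma Bq_symm (lam : ℝ) {Ω : Set E} (u w : TF Ω) : Bq lam Ω u w = Bq lam Ω w u := by
  simp [Bq, Ben_symm u w, Bma_symm u w]

lemma mass_pos {u : E → ℝ} (hu : ContDiff ℝ ∞ u) (hc : HasCompactSupport u) (hne : u ≠ 0) :
    0 < ∫ z, u z ^ 2 := by
  obtain ⟨z, hz⟩ := Function.ne_iff.mp hne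
  refine Continuous.integral_pos_of_hasCompactSupport_nonneg_nonzero (x := z)
    (hu.continuous.pow 2) ?_ (fun z => sq_nonneg _) (pow_ne_zero 2 hz)
  exact HasCompactSupport.intro hc fun z hz => by simp [image_eq_zero_of_notMem_tsupport hz]

end Pool.Agent.MP_92c74b_an

end

section

set_option autoImplicit false

namespace Pool.Agent.MP_92c74b_an

open Set MeasureTheory
open scoped ContDiff

noncomputable def prim (k : ℝ → ℝ) (y : ℝ) : ℝ := ∫ t in (0:ℝ)..y, k t

lemma prim_hasDerivAt {k : ℝ → ℝ} (hk : Continuous k) (y : ℝ) : HasDerivAt (prim k) (k y) y :=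
  (hk.integral_hasStrictDerivAt 0 y).hasDerivAt

lemma deriv_prim {k : ℝ → ℝ} (hk : Continuous k) : deriv (prim k) = k :=
  funext fun y => (prim_hasDerivAt hk y).deriv

lemma prim_smooth {k : ℝ → ℝ} (hk : ContDiff ℝ ∞ k) : ContDiff ℝ ∞ (prim k) := by
  rw [contDiff_infty_iff_deriv]
  exact ⟨fun y => (prim_hasDerivAt hk.continuous y).differentiableAt,
    by rw [deriv_prim hk.continuous]; exact hk⟩

noncomputable def kk (σ : ℝ) (t : ℝ) : ℝ := Real.smoothTransition (t / σ - 1)

lemma kk_smooth (σ : ℝ) : ContDiff ℝ ∞ (kk σ) :=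
  Real.smoothTransition.contDiff.comp ((contDiff_id.div_const σ).sub contDiff_const)

lemma kk_nonneg (σ t : ℝ) : 0 ≤ kk σ t := Real.smoothTransition.nonneg _
lemma kk_le_one (σ t : ℝ) : kk σ t ≤ 1 := Real.smoothTransition.le_one _

lemma kk_zero {σ t : ℝ} (hσ : 0 < σ) (ht : t ≤ σ) : kk σ t = 0 :=
  Real.smoothTransition.zero_of_nonpos (by rw [sub_nonpos, div_le_one hσ]; exact ht)

lemma kk_one {σ t : ℝ} (hσ : 0 < σ) (ht : 2 * σ ≤ t) : kk σ t = 1 :=
  Real.smoothTransition.one_of_one_le (by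
    rw [le_sub_iff_add_le, le_div_iff₀ hσ]; linarith)

lemma kk_mono {σ : ℝ} (hσ : 0 < σ) : Monotone (kk σ) := fun a b hab =>
  Real.smoothTransition.monotone (by
    have := div_le_div_of_nonneg_right hab hσ.le
    linarith)

lemma th0_zero {σ y : ℝ} (hσ : 0 < σ) (hy : y ≤ σ) : prim (kk σ) y = 0 := by
  unfold prim
  rw [intervalIntegral.integral_congr (g := fun _ => (0:ℝ))]
  · simp
  · intro t ht
    refine kk_zero hσ ?_
    rcases mem_uIcc.mp ht with h | h
    · linarith [h.2]
    · linarith [h.2]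

lemma th0_big {σ y : ℝ} (hσ : 0 < σ) (hy : 2 * σ ≤ y) :
    prim (kk σ) y = y - (2 * σ - prim (kk σ) (2 * σ)) := by
  have hc := (kk_smooth σ).continuous
  have h1 := intervalIntegral.integral_add_adjacent_intervals (μ := volume)
    (hc.intervalIntegrable 0 (2 * σ)) (hc.intervalIntegrable (2 * σ) y)
  have h2 : ∫ t in (2 * σ)..y, kk σ t = y - 2 * σ := by
    rw [intervalIntegral.integral_congr (g := fun _ => (1:ℝ))]
    · simp
    · intro t ht
      rw [uIcc_of_le hy] at ht
      exact kk_one hσ ht.1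
  unfold prim
  linarith

lemma th0_nonneg {σ : ℝ} (hσ : 0 < σ) (y : ℝ) : 0 ≤ prim (kk σ) y := by
  rcases le_total y σ with h | h
  · rw [th0_zero hσ h]
  · exact intervalIntegral.integral_nonneg (by linarith) fun t _ => kk_nonneg σ t

lemma th0_le {σ y : ℝ} (hy : 0 ≤ y) : prim (kk σ) y ≤ y := by
  have hc := (kk_smooth σ).continuous
  have := intervalIntegral.integral_mono_on (μ := volume) hy (hc.intervalIntegrable 0 y)
    (continuous_const.intervalIntegrable 0 y) (g := fun _ => (1:ℝ)) fun t _ => kk_le_one σ t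
  simpa [prim] using this

lemma deriv_kk_support {σ : ℝ} (hσ : 0 < σ) : HasCompactSupport (deriv (kk σ)) := by
  refine HasCompactSupport.intro (isCompact_Icc (a := σ) (b := 2 * σ)) fun y hy => ?_
  rw [mem_Icc, not_and_or, not_le, not_le] at hy
  rcases hy with h | h
  · have : kk σ =ᶠ[nhds y] fun _ => 0 := by
      filter_upwards [Iio_mem_nhds h] with t ht using kk_zero hσ (le_of_lt ht)
    rw [this.deriv_eq]; simp
  · have : kk σ =ᶠ[nhds y] fun _ => 1 := by
      filter_upwards [Ioi_mem_nhds h] with t ht using kk_one hσ (le_of_lt ht)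
    rw [this.deriv_eq]; simp

/-- The almost convex cut-off family. -/
theorem exists_theta {c η : ℝ} (hc : 0 < c) (hη : 0 < η) : ∃ (θ : ℝ → ℝ) (σ : ℝ), 0 < σ ∧ σ < c ∧
    ContDiff ℝ ∞ θ ∧ (∀ y, y ≤ σ → θ y = 0) ∧ (∀ y, c / 2 ≤ y → θ y = y) ∧ (∀ y, 0 ≤ θ y) ∧
    (∀ y, 0 ≤ y → θ y ≤ y) ∧ (∀ y, deriv θ y ≤ 1 + η) ∧
    (∀ y, 0 ≤ y → y * deriv θ y - θ y ≤ η) ∧ (∀ y, -η ≤ deriv (deriv θ) y) := by
  have hc4 : 0 < c / 4 := by positivity
  set χ := kk (c / 4) with hχ
  have hχs : ContDiff ℝ ∞ χ := kk_smooth _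
  have hs1 := deriv_kk_support hc4
  obtain ⟨M1, hM1⟩ := (deriv_smooth hχs).continuous.bounded_above_of_compact_support hs1
  obtain ⟨M2, hM2⟩ := (deriv_smooth (deriv_smooth hχs)).continuous.bounded_above_of_compact_support
    hs1.deriv
  obtain ⟨M3, hM3⟩ := (continuous_id.mul
    (deriv_smooth hχs).continuous).bounded_above_of_compact_support (hs1.mul_left (f := id))
  set M := max M1 (max M2 M3) with hM
  have hM0 : 0 ≤ M := le_trans (le_trans (norm_nonneg _) (hM1 0)) (le_max_left _ _)
  have b1 : ∀ y, |deriv χ y| ≤ M := fun y => le_trans (hM1 y) (le_max_left _ _)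
  have b2 : ∀ y, |deriv (deriv χ) y| ≤ M := fun y =>
    le_trans (hM2 y) (le_trans (le_max_left _ _) (le_max_right _ _))
  have b3 : ∀ y, |y * deriv χ y| ≤ M := fun y =>
    le_trans (hM3 y) (le_trans (le_max_right _ _) (le_max_right _ _))
  set σ := min (c / 8) (η / (2 * (1 + M))) with hσdef
  have hσ : 0 < σ := lt_min (by positivity) (by positivity)
  have hσ1 : σ ≤ c / 8 := min_le_left _ _
  have hσ2 : 2 * σ * (1 + M) ≤ η := by
    have : σ ≤ η / (2 * (1 + M)) := min_le_right _ _
    rw [le_div_iff₀ (by positivity)] at this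
    linarith
  set A := 2 * σ - prim (kk σ) (2 * σ) with hA
  have hA0 : 0 ≤ A := by have := th0_le (σ := σ) (y := 2 * σ) (by linarith); linarith
  have hA1 : A ≤ 2 * σ := by have := th0_nonneg hσ (2 * σ); linarith
  have hAM : A * M ≤ 2 * σ * M := mul_le_mul_of_nonneg_right hA1 hM0
  have hd1 : deriv (fun y => prim (kk σ) y + A * χ y) = fun y => kk σ y + A * deriv χ y := by
    funext y
    exact ((prim_hasDerivAt (kk_smooth σ).continuous y).add
      ((hχs.differentiable inf_ne y).hasDerivAt.const_mul A)).deriv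
  have hd2 : deriv (fun y => kk σ y + A * deriv χ y)
      = fun y => deriv (kk σ) y + A * deriv (deriv χ) y := by
    funext y
    exact (((kk_smooth σ).differentiable inf_ne y).hasDerivAt.add
      (((deriv_smooth hχs).differentiable inf_ne y).hasDerivAt.const_mul A)).deriv
  refine ⟨fun y => prim (kk σ) y + A * χ y, σ, hσ, by linarith,
    (prim_smooth (kk_smooth σ)).add (contDiff_const.mul hχs), ?_, ?_, ?_, ?_, ?_, ?_, ?_⟩
  · intro y hy
    simp only [th0_zero hσ hy, hχ, kk_zero hc4 (show y ≤ c / 4 by linarith)]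
    ring
  · intro y hy
    simp only [th0_big hσ (show 2 * σ ≤ y by linarith), hχ,
      kk_one hc4 (show 2 * (c / 4) ≤ y by linarith)]
    rw [← hA]
    ring
  · intro y
    have := th0_nonneg hσ y
    have := mul_nonneg hA0 (kk_nonneg (c / 4) y)
    linarith
  · intro y hy
    rcases le_total y (c / 4) with h | h
    · simp only [hχ, kk_zero hc4 h]
      have := th0_le (σ := σ) hy
      linarith
    · simp only [th0_big hσ (show 2 * σ ≤ y by linarith)]
      rw [← hA]
      have := mul_le_mul_of_nonneg_left (kk_le_one (c / 4) y) hA0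
      linarith
  · intro y
    rw [hd1]
    have := kk_le_one σ y
    have := mul_le_mul_of_nonneg_left (abs_le.mp (b1 y)).2 hA0
    simp only
    linarith
  · intro y hy
    rw [hd1]
    have a1 : y * kk σ y - prim (kk σ) y ≤ 2 * σ := by
      rcases le_total y (2 * σ) with h | h
      · have := mul_le_mul_of_nonneg_left (kk_le_one σ y) hy
        have := th0_nonneg hσ y
        linarith
      · rw [th0_big hσ h, kk_one hσ h, ← hA]
        linarith
    have a2 := mul_le_mul_of_nonneg_left (abs_le.mp (b3 y)).2 hA0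
    have a3 := mul_nonneg hA0 (kk_nonneg (c / 4) y)
    simp only
    nlinarith
  · intro y
    rw [hd1, hd2]
    have a1 : 0 ≤ deriv (kk σ) y := (kk_mono hσ).deriv_nonneg
    have a2 := mul_le_mul_of_nonneg_left (abs_le.mp (b2 y)).1 hA0
    simp only
    linarith

/-- A smooth ramp from `0` to `1` with almost optimal slope. -/
theorem exists_ramp {σ : ℝ} (hσ : 0 < σ) (hσ1 : 3 * σ < 1) : ∃ l : ℝ → ℝ, ContDiff ℝ ∞ l ∧
    (∀ s, s ≤ σ → l s = 0) ∧ (∀ s, 1 - σ ≤ s → l s = 1) ∧
    ∀ s, |deriv l s| ≤ 1 / (1 - 3 * σ) := by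
  set b := 1 - 3 * σ with hb
  have hb0 : 0 < b := by linarith
  have hp := prim_smooth (kk_smooth σ)
  refine ⟨fun s => (prim (kk σ) s - prim (kk σ) (s - b)) / b,
    (hp.sub (hp.comp (contDiff_id.sub contDiff_const))).div_const b, ?_, ?_, ?_⟩
  · intro s hs
    simp only [th0_zero hσ hs, th0_zero hσ (show s - b ≤ σ by linarith)]
    simp
  · intro s hs
    simp only [th0_big hσ (show 2 * σ ≤ s by linarith),
      th0_big hσ (show 2 * σ ≤ s - b by linarith)]
    field_simp
    ring
  · intro s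
    have h1 := prim_hasDerivAt (kk_smooth σ).continuous s
    have h2 := (prim_hasDerivAt (kk_smooth σ).continuous (s - b)).comp_sub_const s b
    have h3 := ((h1.sub h2).div_const b).deriv
    have h4 : deriv (fun s => (prim (kk σ) s - prim (kk σ) (s - b)) / b) s
        = (kk σ s - kk σ (s - b)) / b := h3
    rw [h4, abs_div, abs_of_pos hb0]
    refine div_le_div_of_nonneg_right ?_ hb0.le
    have := kk_nonneg σ s
    have := kk_le_one σ s
    have := kk_nonneg σ (s - b)
    have := kk_le_one σ (s - b)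
    rw [abs_le]
    constructor <;> linarith

/-- The vertical corrector for a localized potential. -/
theorem exists_corrector : ∃ G f : ℝ → ℝ, ContDiff ℝ ∞ G ∧ ContDiff ℝ ∞ f ∧ (∀ s, 0 ≤ G s) ∧
    (∀ s, G s ≤ 1) ∧ (∀ s, G s ≠ 0 → |s| < 1) ∧ G 0 = 1 ∧
    ∀ s, deriv (deriv f) s + f s = G s := by
  let G : ContDiffBump (0:ℝ) := ⟨1 / 2, 1, by norm_num, by norm_num⟩
  have hG : ContDiff ℝ ∞ G := G.contDiff
  have h1 : ContDiff ℝ ∞ fun s => Real.cos s * G s := Real.contDiff_cos.mul hG
  have h2 : ContDiff ℝ ∞ fun s => Real.sin s * G s := Real.contDiff_sin.mul hG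
  refine ⟨G, fun s => Real.sin s * prim (fun s => Real.cos s * G s) s
    - Real.cos s * prim (fun s => Real.sin s * G s) s, hG,
    (Real.contDiff_sin.mul (prim_smooth h1)).sub (Real.contDiff_cos.mul (prim_smooth h2)),
    fun s => G.nonneg, fun s => G.le_one, ?_, ?_, ?_⟩
  · intro s hs
    have : s ∈ Function.support G := hs
    rw [G.support_eq] at this
    simpa using this
  · exact G.one_of_mem_closedBall (by simp [G])
  · have hd : deriv (fun s => Real.sin s * prim (fun s => Real.cos s * G s) s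
        - Real.cos s * prim (fun s => Real.sin s * G s) s)
        = fun s => Real.cos s * prim (fun s => Real.cos s * G s) s
          + Real.sin s * prim (fun s => Real.sin s * G s) s := by
      funext s
      have := (((Real.hasDerivAt_sin s).mul (prim_hasDerivAt h1.continuous s)).sub
        ((Real.hasDerivAt_cos s).mul (prim_hasDerivAt h2.continuous s))).deriv
      refine this.trans ?_
      ring
    intro s
    rw [hd]
    have := (((Real.hasDerivAt_cos s).mul (prim_hasDerivAt h1.continuous s)).add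
      ((Real.hasDerivAt_sin s).mul (prim_hasDerivAt h2.continuous s))).deriv
    have e : deriv (fun s => Real.cos s * prim (fun s => Real.cos s * G s) s
          + Real.sin s * prim (fun s => Real.sin s * G s) s) s = _ := this
    rw [e]
    have := Real.sin_sq_add_cos_sq s
    linear_combination (G s) * this

end Pool.Agent.MP_92c74b_an

end
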