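import Pool.Agent.Mg.F92c74b.G47aeb8
import Pool.Agent.Mg.F92c74b.Ged4e79
import Pool.Agent.MP_92c74b_an.Brouwer

set_option autoImplicit false
set_option maxSynthPendingDepth 3

namespace Pool.Agent.MP_92c74b_an

open Set MeasureTheory
open scoped ContDiff

abbrev Par (N : ℕ) : Type := Fin N × Fin N → ℝ

def Qc (N : ℕ) : Set (Par N) := {a | ∀ i, |a i| ≤ 1 / 2}

noncomputable def cc {N : ℕ} (a : Par N) (i j : Fin N) : ℝ := 1 - (a (i, j) + a (j, i)) / 2

noncomputable def Gf {N : ℕ} (a : Par N) (x : Fin N → ℝ) : ℝ := -∑ i, ∑ j, cc a i j * x i * x j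

noncomputable def Xv {N : ℕ} (α : Fin N → E → ℝ) (v : E → ℝ) : Fin N → ℝ :=
  fun i => ∫ z, α i z * v z

noncomputable def En (Φ v : E → ℝ) : ℝ := ∫ z, max (Φ z) 0 ^ 2 * ‖fderiv ℝ v z‖ ^ 2

noncomputable def Wt (Φ F v : E → ℝ) : ℝ := ∫ z, F z * max (Φ z) 0 * v z ^ 2

def Fx (N : ℕ) : Set (Fin N → ℝ) :=
  {x | ∃ i j, x = Pi.single i 1 ∨ x = Pi.single i 1 + Pi.single j 1}

structure Setup (N : ℕ) where
  lam : ℝ
  B : Set E
  K : Set E
  Φ : Par N → E → ℝ
  Pos : Par N → E → ℝ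
  Neg : Par N → E → ℝ
  α : Fin N → E → ℝ
  c : ℝ
  κ : ℝ
  s : ℝ
  lam_nonneg : 0 ≤ lam
  B_open : IsOpen B
  B_bdd : Bornology.IsBounded B
  K_compact : IsCompact K
  Φ_smooth : ContDiff ℝ ∞ (Function.uncurry Φ)
  Pos_cont : Continuous (Function.uncurry Pos)
  Neg_cont : Continuous (Function.uncurry Neg)
  eqn : ∀ a z, -Lap (Φ a) z - lam * Φ a z = Pos a z - Neg a z
  c_pos : 0 < c
  κ_pos : 0 < κ
  s_pos : 0 < s
  Pos_ge : ∀ a ∈ Qc N, ∀ z ∈ B, κ ≤ Pos a z
  Neg_nonneg : ∀ a ∈ Qc N, ∀ z ∈ B, 0 ≤ Neg a z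
  Neg_supp : ∀ a ∈ Qc N, ∀ z ∈ B, z ∉ K → Neg a z = 0
  Φ_K : ∀ a ∈ Qc N, ∀ z ∈ K, c ≤ Φ a z
  α_cont : ∀ i, Continuous (α i)
  α_nonneg : ∀ i z, 0 ≤ α i z
  α_supp : ∀ i z, z ∉ K → α i z = 0
  conn : ∀ a ∈ Qc N, IsConnected {z | z ∈ B ∧ 0 < Φ a z}
  lower : ∀ a ∈ Qc N, ∀ v ∈ TF B,
    s * (Gf a (Xv α v) - 1 / 12 * ∑ i, Xv α v i ^ 2) ≤ En (Φ a) v - Wt (Φ a) (Neg a) v
  upper : ∀ a ∈ Qc N, ∀ x ∈ Fx N, ∃ v ∈ TF B, Xv α v = x ∧
    En (Φ a) v + Wt (Φ a) (Pos a) v - Wt (Φ a) (Neg a) v ≤ s * (Gf a x + 1 / 12)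

lemma Qc_compact (N : ℕ) : IsCompact (Qc N) := by
  have : Qc N = Metric.closedBall (0 : Par N) (1 / 2) := by
    ext a
    rw [mem_closedBall_zero_iff, pi_norm_le_iff_of_nonneg (by norm_num)]
    rfl
  rw [this]
  exact isCompact_closedBall _ _

lemma csw {b h : E → ℝ} (hb : ∀ z, 0 ≤ b z) (h0 : Integrable b) (h1 : Integrable fun z => b z * h z)
    (h2 : Integrable fun z => b z * h z ^ 2) :
    (∫ z, b z * h z) ^ 2 ≤ (∫ z, b z) * ∫ z, b z * h z ^ 2 := by
  refine disc_le (integral_nonneg fun z => mul_nonneg (hb z) (sq_nonneg _)) fun t => ?_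
  have h3 : 0 ≤ ∫ z, (b z + (2 * t * (b z * h z) + t ^ 2 * (b z * h z ^ 2))) :=
    integral_nonneg fun z => by
      have := mul_nonneg (hb z) (sq_nonneg (1 + t * h z))
      simp only [Pi.zero_apply]
      linarith only [this]
  rw [integral_add h0 (iadd (h1.const_mul _) (h2.const_mul _)),
    integral_add (h1.const_mul _) (h2.const_mul _), integral_const_mul, integral_const_mul] at h3
  linarith

lemma integ_En {Φ v : E → ℝ} (hΦ : Continuous Φ) (hv : ContDiff ℝ ∞ v) (hc : HasCompactSupport v) :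
    Integrable fun z => max (Φ z) 0 ^ 2 * ‖fderiv ℝ v z‖ ^ 2 :=
  integ_of hc (((hΦ.max continuous_const).pow 2).mul (cont_normsq hv))
    fun z hz => by simp [fderiv_of_notMem_tsupport ℝ hz]

lemma integ_Wt {Φ F v : E → ℝ} (hΦ : Continuous Φ) (hF : Continuous F) (hv : ContDiff ℝ ∞ v)
    (hc : HasCompactSupport v) : Integrable fun z => F z * max (Φ z) 0 * v z ^ 2 :=
  integ_of hc ((hF.mul (hΦ.max continuous_const)).mul (hv.continuous.pow 2))
    fun z hz => by simp [image_eq_zero_of_notMem_tsupport hz]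

lemma En_nonneg (Φ v : E → ℝ) : 0 ≤ En Φ v :=
  integral_nonneg fun _ => mul_nonneg (sq_nonneg _) (sq_nonneg _)

lemma pointwise {y y' p p' n n' g e w th th1 th2 lam η M σ : ℝ} (hη : 0 < η) (hη1 : η ≤ 1 / 2)
    (hσ : 0 < σ) (hy' : σ < y') (hyy : |y - y'| ≤ η * σ) (hp : |p - p'| ≤ η) (hn : |n - n'| ≤ η)
    (hp0 : 0 ≤ p) (hp0' : 0 ≤ p') (hpM : p ≤ M) (hn0 : 0 ≤ n') (hnM : n' ≤ M) (hg0 : 0 ≤ g)
    (hgM : g ≤ M) (he : 0 ≤ e) (hw : 0 ≤ w) (hlam : 0 ≤ lam) (h0 : 0 ≤ th) (h1 : th ≤ y')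
    (h2 : th1 ≤ 1 + η) (h3 : y' * th1 - th ≤ η) (h4 : -η ≤ th2)
    (hK : (th = y' ∧ th1 = 1) ∨ (n = 0 ∧ n' = 0)) :
    th ^ 2 * e + th * (th1 * (p' - n') + lam * (y' * th1 - th) - th2 * g) * w
      ≤ (max y 0 ^ 2 * e + p * max y 0 * w - n * max y 0 * w)
        + η * (10 + 8 * M + 2 * lam) * (max y 0 ^ 2 * e + 1 * max y 0 * w) := by
  have a1 := abs_le.mp hyy
  have a2 := abs_le.mp hp
  have a3 := abs_le.mp hn
  have hM : 0 ≤ M := le_trans hp0 hpM
  have b0 : η * σ ≤ η * y' := mul_le_mul_of_nonneg_left hy'.le hη.le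
  have b1 : y' ≤ 2 * y := by
    linarith only [a1.1, b0, mul_le_mul_of_nonneg_right hη1 (hσ.trans hy').le]
  have hy : 0 < y := by linarith only [b1, hσ, hy']
  have b3 := mul_le_mul_of_nonneg_left b1 hη.le
  have b4 := mul_le_mul_of_nonneg_left hη1 hη.le
  have b2 : y' ≤ (1 + 2 * η) * y := by linarith only [a1.1, b0, b3]
  rw [max_eq_left hy.le]
  have c1 : th ^ 2 ≤ (1 + 6 * η) * y ^ 2 := by
    have : th ^ 2 ≤ ((1 + 2 * η) * y) ^ 2 := pow_le_pow_left₀ h0 (le_trans h1 b2) 2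
    linarith only [this, mul_le_mul_of_nonneg_right b4 (sq_nonneg y)]
  have c2 : th * (th1 * p') ≤ (p + η * (3 + 4 * M)) * y := by
    have d1 : th1 * p' ≤ (1 + η) * (p + η) :=
      le_trans (mul_le_mul_of_nonneg_right h2 hp0') (mul_le_mul_of_nonneg_left
        (by linarith only [a2.1]) (by linarith only [hη]))
    have d2 : th * (th1 * p') ≤ (1 + 2 * η) * y * ((1 + η) * (p + η)) :=
      le_trans (mul_le_mul_of_nonneg_left d1 h0)
        (mul_le_mul_of_nonneg_right (le_trans h1 b2) (by positivity))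
    have d3 : (1 + 2 * η) * ((1 + η) * (p + η)) ≤ p + η * (3 + 4 * M) := by
      have e1 : (1 + 2 * η) * (1 + η) ≤ 1 + 4 * η := by linarith only [b4]
      have e2 : (1 + 2 * η) * (1 + η) * (p + η) ≤ (1 + 4 * η) * (p + η) :=
        mul_le_mul_of_nonneg_right e1 (by linarith only [hp0, hη])
      linarith only [e2, b4, mul_le_mul_of_nonneg_left hpM hη.le]
    linarith only [d2, mul_le_mul_of_nonneg_right d3 hy.le]
  have c3 : -(th * (th1 * n')) ≤ (-n + η * (1 + 2 * M)) * y := by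
    rcases hK with ⟨k1, k2⟩ | ⟨k1, k2⟩
    · rw [k1, k2]
      have d1 : (y - y') * n' ≤ η * (2 * y) * M := by
        have : (y - y') * n' ≤ η * (2 * y) * n' :=
          mul_le_mul_of_nonneg_right (by linarith only [a1.2, b0, b3]) hn0
        exact le_trans this (mul_le_mul_of_nonneg_left hnM (by positivity))
      have d2 : y * (n - n') ≤ y * η := mul_le_mul_of_nonneg_left a3.2 hy.le
      linarith only [d1, d2]
    · rw [k1, k2]
      have : 0 ≤ η * (1 + 2 * M) * y := by positivity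
      linarith only [this]
  have c4 : th * (lam * (y' * th1 - th)) ≤ η * (2 * lam) * y := by
    have d1 : lam * (y' * th1 - th) ≤ lam * η := mul_le_mul_of_nonneg_left h3 hlam
    have d2 := mul_le_mul_of_nonneg_left d1 h0
    have d3 : th * (lam * η) ≤ 2 * y * (lam * η) :=
      mul_le_mul_of_nonneg_right (le_trans h1 b1) (by positivity)
    linarith only [d2, d3]
  have c5 : -(th * (th2 * g)) ≤ η * (2 * M) * y := by
    have d1 : -(th2 * g) ≤ η * M := by
      linarith only [mul_le_mul_of_nonneg_left hgM hη.le, mul_le_mul_of_nonneg_right h4 hg0]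
    have d2 := mul_le_mul_of_nonneg_left d1 h0
    have d3 : th * (η * M) ≤ 2 * y * (η * M) :=
      mul_le_mul_of_nonneg_right (le_trans h1 b1) (by positivity)
    linarith only [d2, d3]
  have c6 : th * (th1 * (p' - n') + lam * (y' * th1 - th) - th2 * g)
      ≤ (p - n + η * (4 + 8 * M + 2 * lam)) * y := by linarith only [c2, c3, c4, c5]
  have c7 := mul_le_mul_of_nonneg_right c6 hw
  have c8 := mul_le_mul_of_nonneg_right c1 he
  have c9 : 0 ≤ η * (4 + 8 * M + 2 * lam) * (y ^ 2 * e) := by positivity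
  have c10 : 0 ≤ η * 6 * (y * w) := by positivity
  linarith only [c7, c8, c9, c10]

namespace Setup

variable {N : ℕ} (S : Setup N)

def Om (a : Par N) : Set E := {z | z ∈ S.B ∧ 0 < S.Φ a z}

lemma Φ_sm (a : Par N) : ContDiff ℝ ∞ (S.Φ a) :=
  S.Φ_smooth.comp (contDiff_const.prodMk contDiff_id)

lemma Pos_c (a : Par N) : Continuous (S.Pos a) := S.Pos_cont.comp (Continuous.prodMk_right a)
lemma Neg_c (a : Par N) : Continuous (S.Neg a) := S.Neg_cont.comp (Continuous.prodMk_right a)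

lemma Om_open (a : Par N) : IsOpen (S.Om a) :=
  S.B_open.inter (isOpen_lt continuous_const (S.Φ_sm a).continuous)

noncomputable def Q (a : Par N) (v : E → ℝ) : ℝ :=
  En (S.Φ a) v + Wt (S.Φ a) (S.Pos a) v - Wt (S.Φ a) (S.Neg a) v

lemma Q_eq (a : Par N) {v : E → ℝ} (hv : ContDiff ℝ ∞ v) (hc : HasCompactSupport v) :
    S.Q a v = ∫ z, (max (S.Φ a z) 0 ^ 2 * ‖fderiv ℝ v z‖ ^ 2
      + S.Pos a z * max (S.Φ a z) 0 * v z ^ 2 - S.Neg a z * max (S.Φ a z) 0 * v z ^ 2) := by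
  have hΦ := (S.Φ_sm a).continuous
  unfold Q En Wt
  rw [integral_sub (iadd (integ_En hΦ hv hc) (integ_Wt hΦ (S.Pos_c a) hv hc))
    (integ_Wt hΦ (S.Neg_c a) hv hc), integral_add (integ_En hΦ hv hc)
    (integ_Wt hΦ (S.Pos_c a) hv hc)]

lemma div_mem (a : Par N) {u : E → ℝ} (hu : u ∈ TF (S.Om a)) :
    (fun z => u z / S.Φ a z) ∈ TF (S.Om a) := by
  have hsub : tsupport (fun z => u z / S.Φ a z) ⊆ tsupport u := by
    refine closure_mono fun z hz => ?_
    intro h0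
    exact hz (by simp [h0])
  refine ⟨?_, hu.2.1.of_isClosed_subset (isClosed_tsupport _) hsub, hsub.trans hu.2.2⟩
  rw [contDiff_iff_contDiffAt]
  intro z
  by_cases hz : z ∈ S.Om a
  · exact hu.1.contDiffAt.div (S.Φ_sm a).contDiffAt hz.2.ne'
  · have h1 : z ∉ tsupport u := fun h => hz (hu.2.2 h)
    have h2 : (fun z => u z / S.Φ a z) =ᶠ[nhds z] fun _ => 0 := by
      filter_upwards [notMem_tsupport_iff_eventuallyEq.mp h1] with y hy
      simp [hy]
    exact contDiffAt_const.congr_of_eventuallyEq h2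

lemma TF_mono {A B : Set E} (h : A ⊆ B) {u : E → ℝ} (hu : u ∈ TF A) : u ∈ TF B :=
  ⟨hu.1, hu.2.1, hu.2.2.trans h⟩

lemma qf_eq_Q (a : Par N) {u : E → ℝ} (hu : u ∈ TF (S.Om a)) :
    qf S.lam u = S.Q a (fun z => u z / S.Φ a z) := by
  have hv := S.div_mem a hu
  set v := fun z => u z / S.Φ a z with hvdef
  have h1 : u = fun z => S.Φ a z * v z := by
    funext z
    by_cases hz : z ∈ S.Om a
    · simp only [hvdef]
      rw [mul_div_cancel₀ _ hz.2.ne']
    · have : u z = 0 := image_eq_zero_of_notMem_tsupport fun h => hz (hu.2.2 h)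
      simp [hvdef, this]
  rw [S.Q_eq a hv.1 hv.2.1]
  conv_lhs => rw [h1]
  rw [qf_mul S.lam (S.Φ_sm a) hv.1 hv.2.1]
  congr 1
  funext z
  by_cases hz : z ∈ tsupport v
  · rw [max_eq_left (hv.2.2 hz).2.le, S.eqn]
    ring
  · simp [image_eq_zero_of_notMem_tsupport hz, fderiv_of_notMem_tsupport ℝ hz]

lemma integ_α (i : Fin N) {v : E → ℝ} (hv : Continuous v) :
    Integrable fun z => S.α i z * v z :=
  ((S.α_cont i).mul hv).integrable_of_hasCompactSupport
    (HasCompactSupport.intro S.K_compact fun z hz => by simp [S.α_supp i z hz])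

noncomputable def X (a : Par N) : TF (S.Om a) →ₗ[ℝ] (Fin N → ℝ) where
  toFun := fun u => Xv S.α (fun z => u.1 z / S.Φ a z)
  map_add' := fun u w => by
    funext i
    simp only [Xv, Pi.add_apply]
    rw [← integral_add (S.integ_α i (S.div_mem a u.2).1.continuous)
      (S.integ_α i (S.div_mem a w.2).1.continuous)]
    congr 1
    funext z
    simp only [Submodule.coe_add, Pi.add_apply]
    ring
  map_smul' := fun c u => by
    funext i
    simp only [Xv, Pi.smul_apply, smul_eq_mul, RingHom.id_apply]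
    rw [← integral_const_mul]
    congr 1
    funext z
    simp only [Submodule.coe_smul, Pi.smul_apply, smul_eq_mul]
    ring

lemma X_apply (a : Par N) (u : TF (S.Om a)) :
    S.X a u = Xv S.α (fun z => u.1 z / S.Φ a z) := rfl

lemma bounds : ∃ M : ℝ, 0 ≤ M ∧ ∀ a ∈ Qc N, ∀ z ∈ S.B,
    S.Pos a z ≤ M ∧ S.Neg a z ≤ M ∧ ‖fderiv ℝ (S.Φ a) z‖ ^ 2 ≤ M := by
  have hK : IsCompact (Qc N ×ˢ closure S.B) := (Qc_compact N).prod S.B_bdd.isCompact_closure
  obtain ⟨M1, h1⟩ := hK.exists_bound_of_continuousOn S.Pos_cont.continuousOn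
  obtain ⟨M2, h2⟩ := hK.exists_bound_of_continuousOn S.Neg_cont.continuousOn
  have hc : Continuous fun p : Par N × E =>
      ‖(fderiv ℝ (Function.uncurry S.Φ) p).comp (ContinuousLinearMap.inr ℝ (Par N) E)‖ ^ 2 :=
    ((S.Φ_smooth.continuous_fderiv inf_ne).clm_comp continuous_const).norm.pow 2
  obtain ⟨M3, h3⟩ := hK.exists_bound_of_continuousOn hc.continuousOn
  refine ⟨max 0 (max M1 (max M2 M3)), le_max_left _ _, fun a ha z hz => ?_⟩
  have hm : (a, z) ∈ Qc N ×ˢ closure S.B := ⟨ha, subset_closure hz⟩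
  have a1 := le_trans (le_abs_self _) (h1 _ hm)
  have a2 := le_trans (le_abs_self _) (h2 _ hm)
  have a3 := le_trans (le_abs_self _) (h3 _ hm)
  have e : fderiv ℝ (S.Φ a) z
      = (fderiv ℝ (Function.uncurry S.Φ) (a, z)).comp (ContinuousLinearMap.inr ℝ (Par N) E) := by
    have h4 := (S.Φ_smooth.differentiable inf_ne (a, z)).hasFDerivAt
    exact (h4.comp z (hasFDerivAt_prodMk_right a z)).fderiv
  rw [e]
  refine ⟨le_trans a1 ?_, le_trans a2 ?_, le_trans a3 ?_⟩ <;> simp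

lemma unif {F : Par N → E → ℝ} (hF : Continuous (Function.uncurry F)) {η : ℝ} (hη : 0 < η) :
    ∃ ζ > 0, ∀ a ∈ Qc N, ∀ a' ∈ Qc N, dist a a' < ζ → ∀ z ∈ S.B, |F a z - F a' z| ≤ η := by
  have hK : IsCompact (Qc N ×ˢ closure S.B) := (Qc_compact N).prod S.B_bdd.isCompact_closure
  obtain ⟨ζ, hζ, h⟩ := Metric.uniformContinuousOn_iff.mp
    (hK.uniformContinuousOn_of_continuous hF.continuousOn) η hη
  refine ⟨ζ, hζ, fun a ha a' ha' hd z hz => ?_⟩
  have := h (a, z) ⟨ha, subset_closure hz⟩ (a', z) ⟨ha', subset_closure hz⟩ (by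
    rw [Prod.dist_eq]; simp [hd])
  rw [Real.dist_eq] at this
  exact this.le

theorem transfer {η : ℝ} (hη : 0 < η) : ∃ ζ > 0, ∀ a ∈ Qc N, ∀ a' ∈ Qc N, dist a a' < ζ →
    ∀ v ∈ TF S.B, ∃ u : TF (S.Om a'), S.X a' u = Xv S.α v ∧
      qf S.lam u.1 ≤ S.Q a v + η * (En (S.Φ a) v + Wt (S.Φ a) (fun _ => 1) v) := by
  obtain ⟨M, hM0, hM⟩ := S.bounds
  have hl := S.lam_nonneg
  set η1 := min (1 / 2) (η / (10 + 8 * M + 2 * S.lam)) with hη1def
  have hη1 : 0 < η1 := lt_min (by norm_num) (by positivity)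
  have hη2 : η1 ≤ 1 / 2 := min_le_left _ _
  have hη3 : η1 * (10 + 8 * M + 2 * S.lam) ≤ η := by
    have : η1 ≤ η / (10 + 8 * M + 2 * S.lam) := min_le_right _ _
    rwa [le_div_iff₀ (by positivity)] at this
  obtain ⟨θ, σ, hσ, hσc, hθ, t1, t2, t3, t4, t5, t6, t7⟩ := exists_theta S.c_pos hη1
  obtain ⟨ζ1, hζ1, u1⟩ := S.unif S.Φ_smooth.continuous (mul_pos hη1 hσ)
  obtain ⟨ζ2, hζ2, u2⟩ := S.unif S.Pos_cont hη1
  obtain ⟨ζ3, hζ3, u3⟩ := S.unif S.Neg_cont hη1
  refine ⟨min ζ1 (min ζ2 ζ3), lt_min hζ1 (lt_min hζ2 hζ3), ?_⟩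
  intro a ha a' ha' hd v hv
  have hd1 := lt_of_lt_of_le hd (min_le_left _ _)
  have hd2 := lt_of_lt_of_le hd (le_trans (min_le_right _ _) (min_le_left _ _))
  have hd3 := lt_of_lt_of_le hd (le_trans (min_le_right _ _) (min_le_right _ _))
  have hW : ContDiff ℝ ∞ fun z => θ (S.Φ a' z) := hθ.comp (S.Φ_sm a')
  have hmem : (fun z => θ (S.Φ a' z) * v z) ∈ TF (S.Om a') := by
    refine ⟨hW.mul hv.1, hv.2.1.mul_left, fun z hz => ⟨hv.2.2 (tsupport_mul_subset_right hz), ?_⟩⟩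
    have hcl : IsClosed {z | σ ≤ S.Φ a' z} := isClosed_le continuous_const (S.Φ_sm a').continuous
    have : z ∈ {z | σ ≤ S.Φ a' z} := by
      refine closure_minimal (fun y hy => ?_) hcl (tsupport_mul_subset_left hz)
      by_contra hcon
      exact hy (t1 _ (not_le.mp hcon).le)
    exact lt_of_lt_of_le hσ this
  have hd1' : ∀ y, S.c ≤ y → deriv θ y = 1 := by
    intro y hy
    have : θ =ᶠ[nhds y] id := by
      filter_upwards [Ioi_mem_nhds (show S.c / 2 < y by linarith [S.c_pos])] with t ht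
        using t2 t (le_of_lt ht)
    rw [this.deriv_eq, deriv_id]
  refine ⟨⟨_, hmem⟩, ?_, ?_⟩
  · funext i
    simp only [X_apply, Xv]
    congr 1
    funext z
    by_cases hz : z ∈ S.K
    · have h1 := S.Φ_K a' ha' z hz
      have h2 : 0 < S.Φ a' z := lt_of_lt_of_le S.c_pos h1
      rw [t2 _ (by linarith [S.c_pos])]
      field_simp
    · simp [S.α_supp i z hz]
  · have hΦ := (S.Φ_sm a).continuous
    simp only
    rw [qf_mul S.lam hW hv.1 hv.2.1, S.Q_eq a hv.1 hv.2.1]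
    unfold En Wt
    rw [← integral_add (integ_En hΦ hv.1 hv.2.1) (integ_Wt hΦ continuous_const hv.1 hv.2.1),
      ← integral_const_mul, ← integral_add (isub (iadd (integ_En hΦ hv.1 hv.2.1)
        (integ_Wt hΦ (S.Pos_c a) hv.1 hv.2.1)) (integ_Wt hΦ (S.Neg_c a) hv.1 hv.2.1))
        ((iadd (integ_En hΦ hv.1 hv.2.1)
          (integ_Wt hΦ continuous_const hv.1 hv.2.1)).const_mul η)]
    refine integral_mono ?_ (iadd (isub (iadd (integ_En hΦ hv.1 hv.2.1)
        (integ_Wt hΦ (S.Pos_c a) hv.1 hv.2.1)) (integ_Wt hΦ (S.Neg_c a) hv.1 hv.2.1))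
        ((iadd (integ_En hΦ hv.1 hv.2.1)
          (integ_Wt hΦ continuous_const hv.1 hv.2.1)).const_mul η)) fun z => ?_
    · refine integ_of hv.2.1 (((hW.continuous.pow 2).mul (cont_normsq hv.1)).add
        ((hW.continuous.mul ((Lap_smooth hW).continuous.neg.sub
          (continuous_const.mul hW.continuous))).mul (hv.1.continuous.pow 2))) fun z hz => ?_
      simp [image_eq_zero_of_notMem_tsupport hz, fderiv_of_notMem_tsupport ℝ hz]
    · by_cases hz : z ∈ tsupport v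
      swap
      · simp [image_eq_zero_of_notMem_tsupport hz, fderiv_of_notMem_tsupport ℝ hz]
      have hzB := hv.2.2 hz
      have hp := le_trans S.κ_pos.le (S.Pos_ge a ha z hzB)
      have hm0 : 0 ≤ max (S.Φ a z) 0 := le_max_right _ _
      have hextra : 0 ≤ max (S.Φ a z) 0 ^ 2 * ‖fderiv ℝ v z‖ ^ 2
          + 1 * max (S.Φ a z) 0 * v z ^ 2 := by positivity
      simp only
      rcases le_or_gt (S.Φ a' z) σ with hy | hy
      · have hzK : z ∉ S.K := fun h => by have := S.Φ_K a' ha' z h; linarith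
        rw [t1 _ hy, S.Neg_supp a ha z hzB hzK]
        have q1 : 0 ≤ S.Pos a z * max (S.Φ a z) 0 * v z ^ 2 := by positivity
        have q2 : 0 ≤ max (S.Φ a z) 0 ^ 2 * ‖fderiv ℝ v z‖ ^ 2 := by positivity
        have q3 := mul_nonneg hη.le hextra
        linarith only [q1, q2, q3]
      · have hy0 : 0 ≤ S.Φ a' z := (hσ.trans hy).le
        have hpt := pointwise (y := S.Φ a z) (y' := S.Φ a' z) (p := S.Pos a z) (p' := S.Pos a' z)
          (n := S.Neg a z) (n' := S.Neg a' z) (g := ‖fderiv ℝ (S.Φ a') z‖ ^ 2)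
          (e := ‖fderiv ℝ v z‖ ^ 2) (w := v z ^ 2) (th := θ (S.Φ a' z))
          (th1 := deriv θ (S.Φ a' z)) (th2 := deriv (deriv θ) (S.Φ a' z)) (lam := S.lam)
          (M := M) hη1 hη2 hσ hy (u1 a ha a' ha' hd1 z hzB) (u2 a ha a' ha' hd2 z hzB)
          (u3 a ha a' ha' hd3 z hzB) hp (le_trans S.κ_pos.le (S.Pos_ge a' ha' z hzB))
          (hM a ha z hzB).1 (S.Neg_nonneg a' ha' z hzB) (hM a' ha' z hzB).2.1 (sq_nonneg _)
          (hM a' ha' z hzB).2.2 (sq_nonneg _) (sq_nonneg _) hl (t3 _) (t4 _ hy0) (t5 _)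
          (t6 _ hy0) (t7 _) (by
            by_cases hzK : z ∈ S.K
            · have h1 := S.Φ_K a' ha' z hzK
              exact Or.inl ⟨t2 _ (by linarith [S.c_pos]), hd1' _ h1⟩
            · exact Or.inr ⟨S.Neg_supp a ha z hzB hzK, S.Neg_supp a' ha' z hzB hzK⟩)
        rw [Lap_comp hθ (S.Φ_sm a')]
        have he := S.eqn a' z
        have e2 : Lap (S.Φ a') z = -(S.Pos a' z - S.Neg a' z) - S.lam * S.Φ a' z := by
          linarith only [he]
        rw [e2]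
        have := mul_le_mul_of_nonneg_right hη3 hextra
        linarith only [this, hpt]

end Setup

end Pool.Agent.MP_92c74b_an
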