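import Pool.Agent.Mg.F92c74b.Ged4e79

set_option autoImplicit false
set_option maxSynthPendingDepth 3

namespace Pool.Agent.MP_92c74b_an

open Set MeasureTheory Metric Filter Topology
open scoped ContDiff Manifold RealInnerProductSpace

lemma glue {ι : Type} [Fintype ι] (A : ι → Set E) (f : ι → E → ℝ) (hA : ∀ k, IsClosed (A k))
    (h : ∀ z, ∃ g : E → ℝ, ContDiff ℝ ∞ g ∧ ∀ k, z ∈ A k → ∀ y ∈ A k, g y = f k y) :
    ∃ v : E → ℝ, ContDiff ℝ ∞ v ∧ ∀ k, ∀ y ∈ A k, v y = f k y := by
  obtain ⟨g, hg⟩ := exists_contMDiffMap_forall_mem_convex_of_local (n := ⊤) 𝓘(ℝ, E)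
    (t := fun z => {y : ℝ | ∀ k, z ∈ A k → y = f k z}) (fun z => by
      intro a ha b hb s t _ _ hst k hk
      rw [ha k hk, hb k hk, ← add_smul, hst, one_smul]) (fun z => by
      obtain ⟨g, hg1, hg2⟩ := h z
      refine ⟨{y | ∀ k, z ∉ A k → y ∉ A k}, ?_, g, hg1.contMDiff.contMDiffOn, ?_⟩
      · refine eventually_all.mpr fun k => ?_
        by_cases hk : z ∈ A k
        · exact Eventually.of_forall fun y h => absurd hk h
        · filter_upwards [(hA k).isOpen_compl.mem_nhds hk] with y hy _ using hy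
      · intro y hy k hk
        by_cases hz : z ∈ A k
        · exact hg2 k hz y hk
        · exact absurd hk (hy k hz))
  exact ⟨g, g.contMDiff.contDiff, fun k y hy => hg y k hy⟩

lemma ev_disj {A C : Set E} (hA : IsCompact A) (hC : IsClosed C) (h : Disjoint A C) :
    ∀ᶠ r in 𝓝[>] (0:ℝ), Disjoint (cthickening r A) (cthickening r C) := by
  obtain ⟨δ, hδ, hd⟩ := h.exists_cthickenings hA hC
  filter_upwards [Ioo_mem_nhdsGT hδ] with r hr
  exact hd.mono (cthickening_mono hr.2.le _) (cthickening_mono hr.2.le _)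

noncomputable def PP {N : ℕ} (i : Fin N) : E :=
  WithLp.toLp 2 ![0, (i.val : ℝ), (i.val : ℝ) ^ 2, (i.val : ℝ) ^ 3]

lemma PP_zero {N : ℕ} (i : Fin N) : PP i 0 = 0 := by simp [PP]

lemma PP_dist {N : ℕ} {i j : Fin N} (h : i ≠ j) : 1 ≤ ‖PP j - PP i‖ := by
  have h1 := PiLp.norm_apply_le (PP j - PP i) 1
  refine le_trans ?_ h1
  have h2 : (PP j - PP i) 1 = ((j.val : ℤ) - (i.val : ℤ) : ℤ) := by simp [PP]
  rw [h2, Real.norm_eq_abs, ← Int.cast_abs]
  have h3 : (j.val : ℤ) - (i.val : ℤ) ≠ 0 := by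
    intro h0
    exact h (Fin.ext (by omega))
  exact_mod_cast Int.one_le_abs h3

lemma moment {N : ℕ} {i j k l : Fin N} {s t : ℝ}
    (h : PP i + s • (PP j - PP i) = PP k + t • (PP l - PP k)) (hij : i ≠ j) (hik : i ≠ k)
    (hil : i ≠ l) : s = 1 := by
  have h1 := congrArg (fun z : E => z 1) h
  have h2 := congrArg (fun z : E => z 2) h
  have h3 := congrArg (fun z : E => z 3) h
  simp [PP] at h1 h2 h3
  have n1 : (i.val : ℝ) - j.val ≠ 0 := sub_ne_zero.mpr (by
    exact_mod_cast fun h => hij (Fin.ext h))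
  have n2 : (i.val : ℝ) - k.val ≠ 0 := sub_ne_zero.mpr (by
    exact_mod_cast fun h => hik (Fin.ext h))
  have n3 : (i.val : ℝ) - l.val ≠ 0 := sub_ne_zero.mpr (by
    exact_mod_cast fun h => hil (Fin.ext h))
  have h4 : (1 - s) * (((i.val : ℝ) - j.val) * ((i.val : ℝ) - k.val) * ((i.val : ℝ) - l.val)) = 0 := by
    linear_combination h3 - ((j.val : ℝ) + k.val + l.val) * h2
      + ((j.val : ℝ) * k.val + j.val * l.val + k.val * l.val) * h1
  rcases mul_eq_zero.mp h4 with h5 | h5
  · linarith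
  · exact absurd h5 (mul_ne_zero (mul_ne_zero n1 n2) n3)

noncomputable def sg {N : ℕ} (i j : Fin N) (a b : ℝ) : Set E :=
  (fun s : ℝ => PP i + s • (PP j - PP i)) '' Icc a b

lemma sg_compact {N : ℕ} (i j : Fin N) (a b : ℝ) : IsCompact (sg i j a b) :=
  isCompact_Icc.image (by fun_prop)

lemma flip_seg (p q : E) (s : ℝ) : p + s • (q - p) = q + (1 - s) • (p - q) := by
  simp only [smul_sub, sub_smul, one_smul]
  abel

lemma not_mem_sg {N : ℕ} {i j k : Fin N} (hi : k ≠ i) (hj : k ≠ j) :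
    Disjoint ({PP k} : Set E) (sg i j 0 1) := by
  rw [disjoint_singleton_left]
  rintro ⟨s, _, hs⟩
  have h : PP k + (0:ℝ) • (PP i - PP k) = PP i + s • (PP j - PP i) := by simp [← hs]
  have := moment h hi hi hj
  norm_num at this

lemma sg_disj {N : ℕ} {i j k l : Fin N} (hij : i < j) (hkl : k < l) (hne : (i, j) ≠ (k, l))
    {a : ℝ} (ha : 0 < a) : Disjoint (sg i j a (1 - a)) (sg k l a (1 - a)) := by
  rw [Set.disjoint_left]
  rintro _ ⟨s, hs, rfl⟩ ⟨t, ht, h⟩
  simp only at h
  by_cases h1 : i ≠ k ∧ i ≠ l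
  · have := moment h.symm hij.ne h1.1 h1.2
    linarith [hs.2]
  · have h2 : j ≠ k ∧ j ≠ l := by
      rw [not_and_or, not_not, not_not] at h1
      rcases h1 with rfl | rfl
      · exact ⟨hij.ne', fun e => hne (by rw [e])⟩
      · exact ⟨(hkl.trans hij).ne', hij.ne'⟩
    rw [flip_seg (PP i) (PP j)] at h
    have := moment h.symm hij.ne' h2.1 h2.2
    linarith [hs.1]

theorem geometry (N : ℕ) {ε : ℝ} (hε : 0 < ε) : ∃ r R : ℝ, 0 < r ∧ r ≤ 1 ∧
    (∀ i : Fin N, ‖PP i‖ + 2 < R) ∧ ∀ x : Fin N → ℝ, ∃ v : E → ℝ, ContDiff ℝ ∞ v ∧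
      (∀ z, R - 1 ≤ ‖z‖ → v z = 0) ∧ (∀ i z, ‖z - PP i‖ ≤ 3 * r → v z = x i) ∧
      ∀ i j, ∀ s ∈ Icc (0:ℝ) 1, ∀ z, ‖z - PP i - s • (PP j - PP i)‖ ≤ r →
        ‖PP j - PP i‖ ^ 2 * ‖fderiv ℝ v z‖ ^ 2 ≤ (1 + ε) * (x i - x j) ^ 2 := by
  set σ := min (ε / 12) (1 / 12) with hσdef
  have hσ : 0 < σ := lt_min (by positivity) (by norm_num)
  have hσ1 : σ ≤ ε / 12 := min_le_left _ _
  have hσ2 : σ ≤ 1 / 12 := min_le_right _ _
  obtain ⟨l, hl, l0, l1, l2⟩ := exists_ramp hσ (by linarith)
  have l3 : ∀ s, deriv l s ^ 2 ≤ 1 + ε := by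
    intro s
    have h1 : deriv l s ^ 2 ≤ (1 / (1 - 3 * σ)) ^ 2 := by
      rw [← sq_abs]
      exact pow_le_pow_left₀ (abs_nonneg _) (l2 s) 2
    refine le_trans h1 ?_
    rw [div_pow, div_le_iff₀ (pow_pos (by linarith) 2)]
    nlinarith [sq_nonneg σ, mul_nonneg hε.le (sq_nonneg σ),
      mul_le_mul_of_nonneg_left hσ2 hε.le]
  set L : ℝ := ∑ i : Fin N, ‖PP i‖ + 1 with hL
  have hL0 : 0 ≤ ∑ i : Fin N, ‖PP i‖ := Finset.sum_nonneg fun i _ => norm_nonneg _
  have hL1 : ∀ i : Fin N, ‖PP i‖ ≤ L - 1 := fun i => by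
    have := Finset.single_le_sum (f := fun i : Fin N => ‖PP i‖) (fun i _ => norm_nonneg _)
      (Finset.mem_univ i)
    linarith
  have hL2 : ∀ i j : Fin N, ‖PP j - PP i‖ ≤ 2 * L := fun i j => by
    have := norm_sub_le (PP j) (PP i)
    linarith [hL1 i, hL1 j]
  have hseg : ∀ i j : Fin N, ∀ s ∈ Icc (0:ℝ) 1, ‖PP i + s • (PP j - PP i)‖ ≤ L - 1 := by
    intro i j s hs
    have := (convex_closedBall (0:E) (L - 1)).add_smul_sub_mem
      (mem_closedBall_zero_iff.mpr (hL1 i)) (mem_closedBall_zero_iff.mpr (hL1 j)) hs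
    exact mem_closedBall_zero_iff.mp this
  obtain ⟨R0, hR1, hR0, hR2⟩ : ∃ R0 : ℝ, (∀ i j k : Fin N, k ≠ i → k ≠ j →
      Disjoint (cthickening R0 {PP k}) (cthickening R0 (sg i j 0 1))) ∧ 0 < R0 ∧ R0 < σ := by
    have h1 : ∀ᶠ R0 in 𝓝[>] (0:ℝ), ∀ i j k : Fin N, k ≠ i → k ≠ j →
        Disjoint (cthickening R0 {PP k}) (cthickening R0 (sg i j 0 1)) := by
      refine eventually_all.mpr fun i => eventually_all.mpr fun j => eventually_all.mpr fun k => ?_
      by_cases h : k ≠ i ∧ k ≠ j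
      · filter_upwards [ev_disj isCompact_singleton (sg_compact i j 0 1).isClosed
          (not_mem_sg h.1 h.2)] with r hr _ _ using hr
      · exact Eventually.of_forall fun r h1 h2 => absurd ⟨h1, h2⟩ h
    exact (h1.and (Ioo_mem_nhdsGT hσ)).exists
  have hLpos : 0 < L := by linarith
  set s0 := R0 / (4 * L) with hs0
  have hs0pos : 0 < s0 := by positivity
  have hs0L : s0 * (2 * L) = R0 / 2 := by rw [hs0]; field_simp; norm_num
  obtain ⟨r1, hr1, hr0, hr2⟩ : ∃ r1 : ℝ, (∀ i j k l : Fin N, i < j → k < l → (i, j) ≠ (k, l) →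
      Disjoint (cthickening r1 (sg i j s0 (1 - s0))) (cthickening r1 (sg k l s0 (1 - s0)))) ∧
      0 < r1 ∧ r1 < R0 / 2 := by
    have h1 : ∀ᶠ r1 in 𝓝[>] (0:ℝ), ∀ i j k l : Fin N, i < j → k < l → (i, j) ≠ (k, l) →
        Disjoint (cthickening r1 (sg i j s0 (1 - s0))) (cthickening r1 (sg k l s0 (1 - s0))) := by
      refine eventually_all.mpr fun i => eventually_all.mpr fun j => eventually_all.mpr fun k =>
        eventually_all.mpr fun l => ?_
      by_cases h : i < j ∧ k < l ∧ (i, j) ≠ (k, l)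
      · filter_upwards [ev_disj (sg_compact i j _ _) (sg_compact k l _ _).isClosed
          (sg_disj h.1 h.2.1 h.2.2 hs0pos)] with r hr _ _ _ using hr
      · exact Eventually.of_forall fun r h1 h2 h3 => absurd ⟨h1, h2, h3⟩ h
    exact (h1.and (Ioo_mem_nhdsGT (half_pos hR0))).exists
  refine ⟨r1 / 2, L + 2, by linarith, by linarith, fun i => by linarith [hL1 i], fun x => ?_⟩
  let lam : Fin N → Fin N → E → ℝ := fun i j z => ⟪PP j - PP i, z - PP i⟫ / ‖PP j - PP i‖ ^ 2
  have hlam : ∀ i j, ContDiff ℝ ∞ (lam i j) := fun i j =>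
    (contDiff_const.inner ℝ (contDiff_id.sub contDiff_const)).div_const _
  let g : Fin N → Fin N → E → ℝ := fun i j z => x i + (x j - x i) * l (lam i j z)
  have hg : ∀ i j, ContDiff ℝ ∞ (g i j) := fun i j =>
    contDiff_const.add (contDiff_const.mul (hl.comp (hlam i j)))
  have hsmall : ∀ (i j : Fin N) (w : E), i ≠ j → ‖w‖ ≤ R0 →
      |⟪PP j - PP i, w⟫ / ‖PP j - PP i‖ ^ 2| ≤ σ := by
    intro i j w hij hw
    have h1 := PP_dist hij
    rw [abs_div, abs_of_pos (by positivity : (0:ℝ) < ‖PP j - PP i‖ ^ 2),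
      div_le_iff₀ (by positivity)]
    have h2 := abs_real_inner_le_norm (PP j - PP i) w
    have h3 : ‖PP j - PP i‖ * ‖w‖ ≤ ‖PP j - PP i‖ * σ :=
      mul_le_mul_of_nonneg_left (by linarith) (norm_nonneg _)
    nlinarith [mul_le_mul_of_nonneg_left h1 (by positivity : 0 ≤ σ * ‖PP j - PP i‖)]
  have hg0 : ∀ i j, i ≠ j → ∀ y ∈ closedBall (PP i) R0, g i j y = x i := by
    intro i j hij y hy
    rw [mem_closedBall, dist_eq_norm] at hy
    have := (abs_le.mp (hsmall i j _ hij hy)).2
    simp only [g, lam]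
    rw [l0 _ this]
    ring
  have hg1 : ∀ i j, i ≠ j → ∀ y ∈ closedBall (PP j) R0, g i j y = x j := by
    intro i j hij y hy
    rw [mem_closedBall, dist_eq_norm] at hy
    have h1 := (abs_le.mp (hsmall i j _ hij hy)).1
    have h2 := PP_dist hij
    have h3 : lam i j y = 1 + ⟪PP j - PP i, y - PP j⟫ / ‖PP j - PP i‖ ^ 2 := by
      simp only [lam]
      rw [show y - PP i = (PP j - PP i) + (y - PP j) by abel, inner_add_right,
        real_inner_self_eq_norm_sq]
      field_simp
    simp only [g]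
    rw [l1 _ (by rw [h3]; linarith)]
    ring
  let A : Fin N ⊕ (Fin N × Fin N) ⊕ Unit → Set E := fun k => match k with
    | Sum.inl i => closedBall (PP i) R0
    | Sum.inr (Sum.inl p) => if p.1 < p.2 then cthickening r1 (sg p.1 p.2 s0 (1 - s0)) else ∅
    | Sum.inr (Sum.inr _) => {z | L + 1 ≤ ‖z‖}
  let f : Fin N ⊕ (Fin N × Fin N) ⊕ Unit → E → ℝ := fun k => match k with
    | Sum.inl i => fun _ => x i
    | Sum.inr (Sum.inl p) => g p.1 p.2
    | Sum.inr (Sum.inr _) => fun _ => 0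
  have hCsub : ∀ i j : Fin N, cthickening r1 (sg i j s0 (1 - s0)) ⊆ cthickening R0 (sg i j 0 1) :=
    fun i j => (cthickening_mono (by linarith) _).trans (cthickening_subset_of_subset _
      (image_mono (Icc_subset_Icc hs0pos.le (by linarith))))
  have hCnorm : ∀ i j : Fin N, ∀ z ∈ cthickening r1 (sg i j s0 (1 - s0)), ‖z‖ < L + 1 := by
    intro i j z hz
    have h1 := cthickening_subset_iUnion_closedBall_of_lt (sg i j 0 1) (δ' := 1) one_pos
      (by linarith) (hCsub i j hz)
    obtain ⟨_, ⟨s, hs, rfl⟩, h2⟩ := mem_iUnion₂.mp h1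
    rw [mem_closedBall, dist_eq_norm] at h2
    have := norm_le_insert' z (PP i + s • (PP j - PP i))
    linarith [hseg i j s hs]
  obtain ⟨v, hv, hvA⟩ := glue A f (by
    rintro (i | p | u)
    · exact isClosed_closedBall
    · simp only [A]
      split_ifs
      · exact isClosed_cthickening
      · exact isClosed_empty
    · exact isClosed_le continuous_const continuous_norm) (by
    intro z
    by_cases h1 : ∃ i j : Fin N, i < j ∧ z ∈ cthickening r1 (sg i j s0 (1 - s0))
    · obtain ⟨i, j, hij, hz⟩ := h1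
      refine ⟨g i j, hg i j, ?_⟩
      rintro (k | p | u) hk y hy
      · by_cases hki : k = i
        · subst hki; exact hg0 k j hij.ne y hy
        by_cases hkj : k = j
        · subst hkj; exact hg1 i k hij.ne y hy
        exfalso
        have h2 := hR1 i j k hki hkj
        rw [cthickening_singleton _ hR0.le] at h2
        exact Set.disjoint_left.mp h2 hk (hCsub i j hz)
      · simp only [A] at hk
        split_ifs at hk with hp
        · by_cases he : (i, j) = p
          · subst he; rfl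
          · exact absurd hk (Set.disjoint_left.mp (hr1 i j p.1 p.2 hij hp he) hz)
        · exact absurd hk (notMem_empty _)
      · exact absurd (hCnorm i j z hz) (not_lt.mpr hk)
    · by_cases h2 : ∃ k : Fin N, z ∈ closedBall (PP k) R0
      · obtain ⟨k, hz⟩ := h2
        refine ⟨fun _ => x k, contDiff_const, ?_⟩
        rw [mem_closedBall, dist_eq_norm] at hz
        rintro (k' | p | u) hk y hy
        · by_cases he : k = k'
          · subst he; rfl
          · exfalso
            have a1 := PP_dist he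
            have a2 : ‖z - PP k'‖ ≤ R0 := by
              have : z ∈ closedBall (PP k') R0 := hk
              rwa [mem_closedBall, dist_eq_norm] at this
            have a3 := norm_sub_le (z - PP k) (z - PP k')
            rw [show z - PP k - (z - PP k') = PP k' - PP k by abel] at a3
            linarith
        · simp only [A] at hk
          split_ifs at hk with hp
          · exact absurd ⟨p.1, p.2, hp, hk⟩ h1
          · exact absurd hk (notMem_empty _)
        · exfalso
          have a1 : L + 1 ≤ ‖z‖ := hk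
          have := norm_le_insert' z (PP k)
          linarith [hL1 k]
      · refine ⟨fun _ => 0, contDiff_const, ?_⟩
        rintro (k' | p | u) hk y hy
        · exact absurd ⟨k', hk⟩ h2
        · simp only [A] at hk
          split_ifs at hk with hp
          · exact absurd ⟨p.1, p.2, hp, hk⟩ h1
          · exact absurd hk (notMem_empty _)
        · rfl)
  have hvB : ∀ i, ∀ y ∈ closedBall (PP i) R0, v y = x i := fun i y hy => hvA (Sum.inl i) y hy
  have hD0 : ∀ (i : Fin N) (z : E), ‖z - PP i‖ < R0 → fderiv ℝ v z = 0 := by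
    intro i z hz
    have hz' : z ∈ ball (PP i) R0 := by rwa [mem_ball, dist_eq_norm]
    have : v =ᶠ[𝓝 z] fun _ => x i := by
      filter_upwards [isOpen_ball.mem_nhds hz'] with y hy
      exact hvB i y (ball_subset_closedBall hy)
    rw [this.fderiv_eq]
    simp
  have main : ∀ i j : Fin N, i < j → ∀ s ∈ Icc (0:ℝ) 1, ∀ z, ‖z - PP i - s • (PP j - PP i)‖ ≤ r1 / 2 →
      ‖PP j - PP i‖ ^ 2 * ‖fderiv ℝ v z‖ ^ 2 ≤ (1 + ε) * (x i - x j) ^ 2 := by
    intro i j hij s hs z hz
    have hR : 0 ≤ (1 + ε) * (x i - x j) ^ 2 := by positivity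
    by_cases c1 : s < s0
    · rw [hD0 i z]
      · simpa using hR
      have a1 := norm_le_insert' (z - PP i) (s • (PP j - PP i))
      rw [norm_smul, Real.norm_of_nonneg hs.1] at a1
      have a2 : s * ‖PP j - PP i‖ ≤ s0 * (2 * L) :=
        mul_le_mul c1.le (hL2 i j) (norm_nonneg _) hs0pos.le
      linarith
    by_cases c2 : 1 - s0 < s
    · rw [hD0 j z]
      · simpa using hR
      have a0 : z - PP i - s • (PP j - PP i) = z - PP j - (1 - s) • (PP i - PP j) := by
        rw [sub_sub, flip_seg, sub_sub]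
      rw [a0] at hz
      have a1 := norm_le_insert' (z - PP j) ((1 - s) • (PP i - PP j))
      rw [norm_smul, Real.norm_of_nonneg (by linarith [hs.2])] at a1
      have a2 : (1 - s) * ‖PP i - PP j‖ ≤ s0 * (2 * L) :=
        mul_le_mul (by linarith) (hL2 j i) (norm_nonneg _) hs0pos.le
      linarith
    have hev : v =ᶠ[𝓝 z] g i j := by
      filter_upwards [ball_mem_nhds z (half_pos hr0)] with y hy
      refine hvA (Sum.inr (Sum.inl (i, j))) y ?_
      simp only [A, if_pos hij]
      refine mem_cthickening_of_dist_le y (PP i + s • (PP j - PP i)) _ _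
        ⟨s, ⟨not_lt.mp c1, not_lt.mp c2⟩, rfl⟩ ?_
      have a1 := dist_triangle y z (PP i + s • (PP j - PP i))
      rw [mem_ball] at hy
      rw [dist_eq_norm z, ← sub_sub] at a1
      linarith
    rw [hev.fderiv_eq]
    have hn := PP_dist hij.ne
    have d1 : HasFDerivAt (lam i j) ((‖PP j - PP i‖ ^ 2)⁻¹ • innerSL ℝ (PP j - PP i)) z := by
      have e1 : HasFDerivAt (fun y : E => ⟪PP j - PP i, y - PP i⟫) (innerSL ℝ (PP j - PP i)) z := by
        have := (innerSL ℝ (PP j - PP i)).hasFDerivAt.comp z ((hasFDerivAt_id z).sub_const (PP i))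
        rw [ContinuousLinearMap.comp_id] at this
        exact this
      have := e1.const_smul (‖PP j - PP i‖ ^ 2)⁻¹
      refine this.congr_of_eventuallyEq (Eventually.of_forall fun y => ?_)
      simp [lam, div_eq_inv_mul]
    have d2 := (((hl.differentiable inf_ne (lam i j z)).hasDerivAt.comp_hasFDerivAt z
      d1).const_mul (x j - x i)).const_add (x i)
    have d3 : fderiv ℝ (g i j) z = _ := d2.fderiv
    rw [d3, norm_smul, norm_smul, norm_smul, innerSL_apply_norm, Real.norm_eq_abs,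
      Real.norm_eq_abs, Real.norm_of_nonneg (by positivity), mul_pow, mul_pow, sq_abs, sq_abs]
    have e2 : ‖PP j - PP i‖ ^ 2 * ((x j - x i) ^ 2 * (deriv l (lam i j z) ^ 2
        * ((‖PP j - PP i‖ ^ 2)⁻¹ * ‖PP j - PP i‖) ^ 2))
        = deriv l (lam i j z) ^ 2 * (x i - x j) ^ 2 := by
      field_simp
      ring
    rw [e2]
    exact mul_le_mul_of_nonneg_right (l3 _) (sq_nonneg _)
  refine ⟨v, hv, fun z hz => hvA (Sum.inr (Sum.inr ())) z (by
    change L + 1 ≤ ‖z‖
    linarith), fun i z hz => hvB i z (by rw [mem_closedBall, dist_eq_norm]; linarith), ?_⟩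
  intro i j s hs z hz
  rcases lt_trichotomy i j with h | h | h
  · exact main i j h s hs z hz
  · subst h
    simp
  · have a0 : z - PP i - s • (PP j - PP i) = z - PP j - (1 - s) • (PP i - PP j) := by
      rw [sub_sub, flip_seg, sub_sub]
    rw [a0] at hz
    have := main j i h (1 - s) ⟨by linarith [hs.2], by linarith [hs.1]⟩ z hz
    rw [norm_sub_rev, ← neg_sub (x j), neg_sq]
    exact this

end Pool.Agent.MP_92c74b_an
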