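import Pool.Agent.Mg.F92c74b.Ged4e79
import Pool.Agent.MP_92c74b_an.Schur

set_option autoImplicit false
set_option maxSynthPendingDepth 3

namespace Pool.Agent.MP_92c74b_an

open Set MeasureTheory
open scoped ContDiff

noncomputable def ray (f : E → ℝ) : ℝ := (∫ x, ‖fderiv ℝ f x‖ ^ 2) / (∫ x, f x ^ 2)

noncomputable def lamv (Ω : Set E) (j : ℕ) : ℝ :=
  sInf ((fun V : Submodule ℝ (E → ℝ) => sSup (ray '' {f | f ∈ V ∧ f ≠ 0})) ''
    {V : Submodule ℝ (E → ℝ) | Module.finrank ℝ V = j ∧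
      ∀ f ∈ V, ContDiff ℝ ∞ f ∧ HasCompactSupport f ∧ tsupport f ⊆ Ω})

lemma ray_nonneg (f : E → ℝ) : 0 ≤ ray f :=
  div_nonneg (integral_nonneg fun _ => sq_nonneg _) (integral_nonneg fun _ => sq_nonneg _)

theorem minmax (Ω : Set E) {lam : ℝ} (hlam : 0 ≤ lam) {N : ℕ} (X : TF Ω →ₗ[ℝ] (Fin N → ℝ))
    (h1 : ∀ u : TF Ω, ∑ i, X u i = 0 → 0 ≤ qf lam u.1)
    (h2 : ∀ ε : ℝ, 0 < ε → ∃ u : Fin N → TF Ω, (∀ i, X (u i) = Pi.single i 1) ∧
      ∀ x : Fin N → ℝ, qf lam (∑ i, x i • u i : TF Ω).1 ≤ ε * (∑ i, |x i|) ^ 2)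
    (h3 : ∃ C : ℝ, 0 ≤ C ∧ ∀ (u : TF Ω) i, X u i ^ 2 ≤ C * ∫ z, u.1 z ^ 2)
    (j : ℕ) (hj2 : 2 ≤ j) (hjN : j ≤ N) : lamv Ω j = lam := by
  obtain ⟨C, hC0, hC⟩ := h3
  have upper : ∀ δ : ℝ, 0 < δ → ∃ V : Submodule ℝ (E → ℝ), (Module.finrank ℝ V = j ∧
      ∀ f ∈ V, ContDiff ℝ ∞ f ∧ HasCompactSupport f ∧ tsupport f ⊆ Ω) ∧
      sSup (ray '' {f | f ∈ V ∧ f ≠ 0}) ≤ lam + δ := by
    intro δ hδ
    obtain ⟨u, hu1, hu2⟩ := h2 (δ / (N ^ 2 * C + 1)) (by positivity)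
    let U : (Fin N → ℝ) →ₗ[ℝ] TF Ω := Fintype.linearCombination ℝ u
    have hU : ∀ x, U x = ∑ i, x i • u i := fun x => Fintype.linearCombination_apply ℝ u x
    have hXU : ∀ x : Fin N → ℝ, X (U x) = x := by
      intro x
      rw [hU, map_sum]
      simp only [map_smul, hu1]
      funext j
      simp [Finset.sum_apply, Pi.single_apply]
    let ext : (Fin j → ℝ) →ₗ[ℝ] (Fin N → ℝ) := Function.ExtendByZero.linearMap ℝ (Fin.castLE hjN)
    have hext : Function.Injective ext := by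
      intro x y hxy
      funext i
      have := congrFun hxy (Fin.castLE hjN i)
      simpa [ext, (Fin.castLE_injective hjN).extend_apply] using this
    let L : (Fin j → ℝ) →ₗ[ℝ] (E → ℝ) := (TF Ω).subtype ∘ₗ U ∘ₗ ext
    have hL : Function.Injective L := by
      intro x y hxy
      have h4 : U (ext x) = U (ext y) := Subtype.ext hxy
      have h5 := congrArg X h4
      rw [hXU, hXU] at h5
      exact hext h5
    refine ⟨LinearMap.range L, ⟨?_, ?_⟩, ?_⟩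
    · rw [LinearMap.finrank_range_of_inj hL]
      simp
    · rintro f ⟨x, rfl⟩
      exact (U (ext x)).2
    · refine Real.sSup_le ?_ (by linarith)
      rintro r ⟨f, ⟨⟨x, rfl⟩, hne⟩, rfl⟩
      set w := U (ext x) with hw
      have hLw : L x = w.1 := rfl
      rw [hLw] at hne ⊢
      have hm := mass_pos w.2.1 w.2.2.1 hne
      have a1 := hu2 (ext x)
      rw [← hU, ← hw] at a1
      have a2 : (∑ i, |ext x i|) ^ 2 ≤ N ^ 2 * C * ∫ z, w.1 z ^ 2 := by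
        have b1 := sq_sum_le_card_mul_sum_sq (s := Finset.univ) (f := fun i => |ext x i|)
        have b2 : ∑ i, |ext x i| ^ 2 ≤ ∑ _i : Fin N, C * ∫ z, w.1 z ^ 2 := by
          refine Finset.sum_le_sum fun i _ => ?_
          have := hC w i
          rw [hw, hXU] at this
          rw [sq_abs]
          exact this
        rw [Finset.sum_const, Finset.card_univ, Fintype.card_fin, nsmul_eq_mul] at b2
        rw [Finset.card_univ, Fintype.card_fin] at b1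
        calc (∑ i, |ext x i|) ^ 2 ≤ N * ∑ i, |ext x i| ^ 2 := b1
          _ ≤ N * (N * (C * ∫ z, w.1 z ^ 2)) := mul_le_mul_of_nonneg_left b2 (by positivity)
          _ = N ^ 2 * C * ∫ z, w.1 z ^ 2 := by ring
      have a3 : δ / (N ^ 2 * C + 1) * (∑ i, |ext x i|) ^ 2 ≤ δ * ∫ z, w.1 z ^ 2 := by
        rw [div_mul_eq_mul_div, div_le_iff₀ (by positivity)]
        nlinarith
      unfold ray
      rw [div_le_iff₀ hm]
      unfold qf at a1
      linarith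
  have lower : ∀ V : Submodule ℝ (E → ℝ), (Module.finrank ℝ V = j ∧
      ∀ f ∈ V, ContDiff ℝ ∞ f ∧ HasCompactSupport f ∧ tsupport f ⊆ Ω) →
      lam ≤ sSup (ray '' {f | f ∈ V ∧ f ≠ 0}) := by
    rintro V ⟨hV1, hV2⟩
    have : FiniteDimensional ℝ V := Module.finite_of_finrank_pos (by omega)
    let inc : V →ₗ[ℝ] TF Ω := Submodule.inclusion (fun f hf => hV2 f hf)
    let sm : (Fin N → ℝ) →ₗ[ℝ] ℝ := ∑ i, LinearMap.proj i
    have hk : LinearMap.ker (sm ∘ₗ X ∘ₗ inc) ≠ ⊥ :=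
      LinearMap.ker_ne_bot_of_finrank_lt (by rw [hV1]; simp; omega)
    obtain ⟨v, hv1, hv2⟩ := Submodule.exists_mem_ne_zero_of_ne_bot hk
    have hv3 : ∑ i, X (inc v) i = 0 := by
      have := LinearMap.mem_ker.mp hv1
      simpa [sm] using this
    have hv4 : v.1 ≠ 0 := fun h => hv2 (Subtype.ext h)
    have a1 := h1 (inc v) hv3
    have hm := mass_pos (hV2 v.1 v.2).1 (hV2 v.1 v.2).2.1 hv4
    have a2 : lam ≤ ray v.1 := by
      unfold ray
      rw [le_div_iff₀ hm]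
      unfold qf at a1
      have e : (inc v).1 = v.1 := rfl
      rw [e] at a1
      linarith
    obtain ⟨C', hC'⟩ := dominated ((Ben Ω).compl₁₂ inc inc) ((Bma Ω).compl₁₂ inc inc) (by
      intro w hw
      rw [LinearMap.compl₁₂_apply, Bma_self]
      exact mass_pos (hV2 w.1 w.2).1 (hV2 w.1 w.2).2.1 (fun h => hw (Subtype.ext h)))
    refine le_trans a2 (le_csSup ⟨C', ?_⟩ ⟨v.1, ⟨v.2, hv4⟩, rfl⟩)
    rintro r ⟨f, ⟨hf1, hf2⟩, rfl⟩
    have := hC' ⟨f, hf1⟩ (fun h => hf2 (congrArg Subtype.val h))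
    rw [LinearMap.compl₁₂_apply, LinearMap.compl₁₂_apply, Bma_self, Ben_self] at this
    exact this
  unfold lamv
  apply le_antisymm
  · refine le_of_forall_pos_le_add fun δ hδ => ?_
    obtain ⟨V, hV1, hV2⟩ := upper δ hδ
    refine le_trans (csInf_le ⟨lam, ?_⟩ ⟨V, hV1, rfl⟩) hV2
    rintro r ⟨W, hW, rfl⟩
    exact lower W hW
  · obtain ⟨V, hV1, _⟩ := upper 1 one_pos
    refine le_csInf ⟨_, V, hV1, rfl⟩ ?_
    rintro r ⟨W, hW, rfl⟩
    exact lower W hW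

end Pool.Agent.MP_92c74b_an
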