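import Pool.Agent.Mg.F92c74b.Ge99573
import Pool.Agent.Mg.F92c74b.G1c1f6b
import Pool.Agent.Mg.F92c74b.G08f4cc

section

set_option autoImplicit false
set_option maxSynthPendingDepth 3

namespace Pool.Agent.MP_92c74b_an

open Set MeasureTheory Metric
open scoped ContDiff

noncomputable def gam (σ s : ℝ) : ℝ := max (Real.cos (min |s| 2) - σ) 0 ^ 2

lemma gam_cont (σ : ℝ) : Continuous (gam σ) := by
  unfold gam
  fun_prop

lemma gam_eq (σ : ℝ) {s : ℝ} (hs : |s| ≤ 2) : gam σ s = max (Real.cos s - σ) 0 ^ 2 := by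
  rw [gam, min_eq_left hs, Real.cos_abs]

lemma cos_anti {a b : ℝ} (ha : 0 ≤ a) (hab : a ≤ b) (hb : b ≤ 2) : Real.cos b ≤ Real.cos a :=
  Real.cos_le_cos_of_nonneg_of_le_pi ha (by linarith [Real.pi_gt_three]) hab

lemma cos_95 : Real.cos (9 / 5) ≤ -1 / 10 := by
  have h1 := (abs_le.mp (Real.cos_bound (x := 9 / 10) (by rw [abs_of_pos] <;> norm_num))).2
  rw [abs_of_pos (by norm_num)] at h1
  have h2 := cos_ge_half (s := 9 / 10) (by rw [abs_of_pos] <;> norm_num)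
  rw [show (9 / 5 : ℝ) = 2 * (9 / 10) by norm_num, Real.cos_two_mul]
  nlinarith

lemma gam_zero {σ θ s : ℝ} (h0 : 0 ≤ θ) (h2 : θ ≤ 2) (hc : Real.cos θ ≤ σ) (hs : θ ≤ |s|) :
    gam σ s = 0 := by
  have := cos_anti h0 (le_min hs h2) (min_le_right _ _)
  rw [gam, max_eq_right (by linarith)]
  norm_num

lemma gam_supp {σ : ℝ} (hσ : -1 / 10 ≤ σ) : HasCompactSupport (gam σ) :=
  HasCompactSupport.intro (isCompact_Icc (a := (-2:ℝ)) (b := 2)) fun s hs =>
    gam_zero (θ := 9 / 5) (by norm_num) (by norm_num) (le_trans cos_95 hσ) (by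
      by_contra h
      exact hs (abs_le.mp (by linarith [not_le.mp h])))

theorem exists_vert {ε : ℝ} (hε : 0 < ε) : ∃ σ θ : ℝ, 0 < σ ∧ σ ≤ ε ∧ σ ≤ 1 / 10 ∧ 1 ≤ θ ∧
    θ ≤ 8 / 5 ∧ Real.cos θ = σ ∧ (0 < ∫ s, gam σ s) ∧
    ∫ s, gam (-σ) s ≤ (1 + ε) * ∫ s, gam σ s := by
  let η : ContDiffBump (0:ℝ) := ⟨2, 3, by norm_num, by norm_num⟩
  have hη : Integrable η := η.integrable
  have hI : 0 ≤ ∫ s, η s := integral_nonneg fun s => η.nonneg
  have hint : ∀ σ : ℝ, -1 / 10 ≤ σ → Integrable (gam σ) := fun σ h =>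
    (gam_cont σ).integrable_of_hasCompactSupport (gam_supp h)
  have hZ0 : 0 < ∫ s, gam (1 / 10) s :=
    Continuous.integral_pos_of_hasCompactSupport_nonneg_nonzero (x := 0) (gam_cont _)
      (gam_supp (by norm_num)) (fun s => sq_nonneg _) (by
        rw [gam_eq _ (by norm_num)]
        norm_num)
  obtain ⟨σ, hσ, hσ1, hσ2, hσ3⟩ : ∃ σ : ℝ, 0 < σ ∧ σ ≤ 1 / 10 ∧ σ ≤ ε ∧
      σ * (4 * (∫ s, η s) + 1) ≤ ε * ∫ s, gam (1 / 10) s := by
    refine ⟨min (1 / 10) (min ε ((ε * ∫ s, gam (1 / 10) s) / (4 * (∫ s, η s) + 1))),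
      lt_min (by norm_num) (lt_min hε (div_pos (mul_pos hε hZ0) (by linarith))), min_le_left _ _,
      le_trans (min_le_right _ _) (min_le_left _ _), ?_⟩
    rw [← le_div_iff₀ (by linarith)]
    exact le_trans (min_le_right _ _) (min_le_right _ _)
  have hZ : ∫ s, gam (1 / 10) s ≤ ∫ s, gam σ s := by
    refine integral_mono (hint _ (by norm_num)) (hint _ (by linarith)) fun s => ?_
    exact pow_le_pow_left₀ (le_max_right _ _) (max_le_max (by linarith) le_rfl) 2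
  have hc : Real.cos (Real.arccos σ) = σ := Real.cos_arccos (by linarith) (by linarith)
  have h2 : Real.arccos σ ≤ 8 / 5 := by
    have := Real.arccos_le_pi_div_two.mpr hσ.le
    linarith [Real.pi_lt_d2]
  refine ⟨σ, Real.arccos σ, hσ, hσ2, hσ1, ?_, h2, hc, by linarith, ?_⟩
  · by_contra h
    have := cos_ge_half (s := Real.arccos σ) (by
      rw [abs_of_nonneg (Real.arccos_nonneg σ)]; linarith [not_le.mp h])
    linarith
  · have h3 : ∫ s, gam (-σ) s ≤ ∫ s, (gam σ s + 4 * σ * η s) := by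
      refine integral_mono (hint _ (by linarith)) (iadd (hint _ (by linarith)) (hη.const_mul _))
        fun s => ?_
      simp only
      by_cases hs : |s| ≤ 2
      · rw [η.one_of_mem_closedBall (by simpa [η] using hs), gam_eq _ hs, gam_eq _ hs]
        have := Real.cos_le_one s
        rcases le_total (Real.cos s - -σ) 0 with h | h <;>
          rcases le_total (Real.cos s - σ) 0 with h' | h' <;>
          simp only [max_eq_left, max_eq_right, h, h'] <;> nlinarith only [this, h, h', hσ, hσ1]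
      · rw [gam_zero (θ := 9 / 5) (by norm_num) (by norm_num) (by linarith [cos_95])
          (by linarith [not_le.mp hs])]
        exact add_nonneg (sq_nonneg _) (mul_nonneg (by linarith) η.nonneg)
    rw [integral_add (hint _ (by linarith)) (hη.const_mul _), integral_const_mul] at h3
    have h4 := mul_le_mul_of_nonneg_left hZ hε.le
    linarith

lemma prod_supp {A : E → ℝ} {B : ℝ → ℝ} {P : E} {r t om : ℝ} (hom : 0 < om)
    (hA : ∀ z, A z ≠ 0 → ‖pr z - P‖ ≤ r) (hB : ∀ s, B s ≠ 0 → |s| ≤ t) :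
    HasCompactSupport fun z => A z * B (om * z 0) :=
  HasCompactSupport.intro (slab_compact P r t hom) fun z hz => by
    by_contra h
    exact hz ⟨hA z (left_ne_zero_of_mul h), hB _ (right_ne_zero_of_mul h)⟩

theorem exists_a0 {r : ℝ} (hr : 0 < r) : ∃ (a0 : E → ℝ) (A : ℝ), ContDiff ℝ ∞ a0 ∧ Hor a0 ∧
    (∀ z, 0 ≤ a0 z) ∧ (∀ z, a0 z ≤ A) ∧ (∀ z, a0 z ≠ 0 → ‖pr z‖ ≤ r) ∧ IH a0 = 1 := by
  let b : ContDiffBump (0:E) := ⟨r / 2, r, by positivity, by linarith⟩
  let η : ContDiffBump (0:ℝ) := ⟨2, 3, by norm_num, by norm_num⟩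
  have hb : ∀ z, b (pr z) ≠ 0 → ‖pr z‖ ≤ r := fun z hz => by
    have : pr z ∈ Function.support b := hz
    rw [b.support_eq, mem_ball_zero_iff] at this
    exact this.le
  have h1 : 0 < ∫ z : E, b (pr z) * η (1 * z 0) := by
    refine Continuous.integral_pos_of_hasCompactSupport_nonneg_nonzero (x := 0)
      ((b.continuous.comp pr.continuous).mul (η.continuous.comp (by fun_prop)))
      (prod_supp (P := 0) (r := r) (t := 3) one_pos (by simpa using hb) fun s hs => ?_)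
      (fun z => mul_nonneg b.nonneg η.nonneg) ?_
    · have : s ∈ Function.support η := hs
      rw [η.support_eq, mem_ball_zero_iff] at this
      exact this.le
    · rw [map_zero, b.one_of_mem_closedBall (mem_closedBall_self b.rIn_pos.le)]
      simp only [PiLp.zero_apply, mul_zero]
      rw [η.one_of_mem_closedBall (mem_closedBall_self η.rIn_pos.le)]
      norm_num
  rw [fubini_scaled (Hor_pr b) η one_pos, div_one] at h1
  have h2 : 0 < IH fun z => b (pr z) :=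
    (pos_iff_pos_of_mul_pos h1).mpr (η.integral_pos (μ := volume))
  refine ⟨fun z => b (pr z) / IH fun z => b (pr z), 1 / IH fun z => b (pr z),
    (b.contDiff.comp pr.contDiff).div_const _, fun z t => by simp only [pr_add_vert],
    fun z => div_nonneg b.nonneg h2.le, fun z => div_le_div_of_nonneg_right b.le_one h2.le,
    fun z hz => hb z fun h => hz (by simp [h]), ?_⟩
  conv_lhs => unfold IH
  rw [integral_div]
  exact div_self h2.ne'

structure Pre (N : ℕ) where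
  ε : ℝ
  r : ℝ
  R : ℝ
  σ : ℝ
  θ : ℝ
  A : ℝ
  a0 : E → ℝ
  isl : E → ℝ
  G : ℝ → ℝ
  f : ℝ → ℝ
  vx : (Fin N → ℝ) → E → ℝ
  ε_pos : 0 < ε
  ε_small : ε * (N + 1) ≤ 1 / 1000
  r_pos : 0 < r
  r_le : r ≤ 1
  R_pos : 0 < R
  R_big : ∀ i : Fin N, ‖PP i‖ + 2 < R
  σ_pos : 0 < σ
  σ_ε : σ ≤ ε
  σ_le : σ ≤ 1 / 10
  θ1 : 1 ≤ θ
  θ2 : θ ≤ 8 / 5
  cos_θ : Real.cos θ = σ
  Z_pos : 0 < ∫ s, gam σ s
  Γ_le : ∫ s, gam (-σ) s ≤ (1 + ε) * ∫ s, gam σ s
  a0_smooth : ContDiff ℝ ∞ a0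
  a0_hor : Hor a0
  a0_nonneg : ∀ z, 0 ≤ a0 z
  a0_le : ∀ z, a0 z ≤ A
  a0_supp : ∀ z, a0 z ≠ 0 → ‖pr z‖ ≤ r
  a0_IH : IH a0 = 1
  isl_cont : Continuous isl
  isl_hor : Hor isl
  isl_nonneg : ∀ z, 0 ≤ isl z
  isl_one : ∀ (i : Fin N) z, ‖pr z - PP i‖ ≤ r → 1 ≤ isl z
  isl_supp : ∀ z, isl z ≠ 0 → ∃ i : Fin N, ‖pr z - PP i‖ ≤ 2 * r
  G_smooth : ContDiff ℝ ∞ G
  f_smooth : ContDiff ℝ ∞ f
  G_nonneg : ∀ s, 0 ≤ G s
  G_le : ∀ s, G s ≤ 1
  G_supp : ∀ s, G s ≠ 0 → |s| < 1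
  G_zero : G 0 = 1
  fG : ∀ s, deriv (deriv f) s + f s = G s
  vx_smooth : ∀ x, ContDiff ℝ ∞ (vx x)
  vx_out : ∀ x z, R - 1 ≤ ‖z‖ → vx x z = 0
  vx_isl : ∀ x i z, ‖z - PP i‖ ≤ 3 * r → vx x z = x i
  vx_tube : ∀ x i j, ∀ s ∈ Icc (0:ℝ) 1, ∀ z, ‖z - PP i - s • (PP j - PP i)‖ ≤ r →
    ‖PP j - PP i‖ ^ 2 * ‖fderiv ℝ (vx x) z‖ ^ 2 ≤ (1 + ε) * (x i - x j) ^ 2

theorem exists_pre (N : ℕ) : Nonempty (Pre N) := by
  have hε : (0:ℝ) < 1 / 1000 / (N + 1) := by positivity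
  obtain ⟨r, R, hr, hr1, hR, hv⟩ := geometry N hε
  choose vx v1 v2 v3 v4 using hv
  obtain ⟨σ, θ, s1, s2, s3, s4, s5, s6, s7, s8⟩ := exists_vert hε
  obtain ⟨a0, A, a1, a2, a3, a4, a5, a6⟩ := exists_a0 hr
  obtain ⟨G, f, g1, g2, g3, g4, g5, g6, g7⟩ := exists_corrector
  let b : ContDiffBump (0:E) := ⟨r, 2 * r, hr, by linarith⟩
  refine ⟨⟨1 / 1000 / (N + 1), r, max R 1, σ, θ, A, a0, fun z => ∑ i : Fin N, b (pr z - PP i), G, f,
    vx, hε, le_of_eq (by field_simp), hr, hr1, lt_of_lt_of_le one_pos (le_max_right _ _),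
    fun i => lt_of_lt_of_le (hR i) (le_max_left _ _), s1, s2, s3, s4, s5, s6, s7, s8,
    a1, a2, a3, a4, a5, a6, ?_, ?_, ?_, ?_, ?_, g1, g2, g3, g4, g5, g6, g7, v1,
    fun x z hz => v2 x z (by linarith [le_max_left R 1]), v3, v4⟩⟩
  · exact continuous_finsetSum _ fun i _ => b.continuous.comp (pr.continuous.sub continuous_const)
  · intro z t
    simp only [pr_add_vert]
  · exact fun z => Finset.sum_nonneg fun i _ => b.nonneg
  · intro i z hz
    have := Finset.single_le_sum (f := fun i : Fin N => b (pr z - PP i)) (fun i _ => b.nonneg)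
      (Finset.mem_univ i)
    rwa [b.one_of_mem_closedBall (mem_closedBall_zero_iff.mpr hz)] at this
  · intro z hz
    obtain ⟨i, -, hi⟩ := Finset.exists_ne_zero_of_sum_ne_zero hz
    have : pr z - PP i ∈ Function.support b := hi
    rw [b.support_eq, mem_ball_zero_iff] at this
    exact ⟨i, this.le⟩

end Pool.Agent.MP_92c74b_an

end

section

set_option autoImplicit false
set_option maxSynthPendingDepth 3

namespace Pool.Agent.MP_92c74b_an

open Set MeasureTheory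
open scoped ContDiff

lemma cc_bounds {N : ℕ} {a : Par N} (ha : a ∈ Qc N) (i j : Fin N) :
    1 / 2 ≤ cc a i j ∧ cc a i j ≤ 3 / 2 := by
  have h1 := abs_le.mp (ha (i, j))
  have h2 := abs_le.mp (ha (j, i))
  unfold cc
  constructor <;> linarith

lemma cc_symm {N : ℕ} (a : Par N) (i j : Fin N) : cc a i j = cc a j i := by
  unfold cc; ring

lemma Gf_ge {N : ℕ} {a : Par N} (ha : a ∈ Qc N) (x : Fin N → ℝ) :
    -(2 * N) * ∑ i, x i ^ 2 ≤ Gf a x := by
  unfold Gf
  have h1 : ∑ i, ∑ j, cc a i j * x i * x j ≤ ∑ i : Fin N, ∑ j : Fin N, (x i ^ 2 + x j ^ 2) := by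
    refine Finset.sum_le_sum fun i _ => Finset.sum_le_sum fun j _ => ?_
    have := cc_bounds ha i j
    nlinarith [mul_nonneg (by linarith : 0 ≤ cc a i j) (sq_nonneg (x i - x j)),
      sq_nonneg (x i), sq_nonneg (x j)]
  simp only [Finset.sum_add_distrib, Finset.sum_const, Finset.card_univ, Fintype.card_fin,
    nsmul_eq_mul] at h1
  rw [← Finset.mul_sum] at h1
  linarith

lemma Gf_polar {N : ℕ} (a : Par N) (i j : Fin N) :
    Gf a (Pi.single i 1 + Pi.single j 1) - Gf a (Pi.single i 1) - Gf a (Pi.single j 1)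
      = -2 * cc a i j := by
  unfold Gf
  simp [Pi.single_apply, mul_add, add_mul, Finset.sum_add_distrib, cc_symm a j i]
  ring

lemma Fx_sq {N : ℕ} {x : Fin N → ℝ} (hx : x ∈ Fx N) : ∑ i, x i ^ 2 ≤ 4 := by
  obtain ⟨i, j, rfl | rfl⟩ := hx
  · simp [Pi.single_apply]
  · have h : ∀ k, (Pi.single i (1:ℝ) + Pi.single j 1 : Fin N → ℝ) k ^ 2
        ≤ 2 * (Pi.single i (1:ℝ) : Fin N → ℝ) k + 2 * (Pi.single j (1:ℝ) : Fin N → ℝ) k := by
      intro k
      simp only [Pi.add_apply, Pi.single_apply]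
      split_ifs <;> norm_num
    refine le_trans (Finset.sum_le_sum fun k _ => h k) ?_
    simp [Finset.sum_add_distrib, ← Finset.mul_sum]
    norm_num

namespace Setup

variable {N : ℕ} (S : Setup N)

lemma Wt_Pos {a : Par N} (ha : a ∈ Qc N) {v : E → ℝ} (hv : v ∈ TF S.B) :
    S.κ * Wt (S.Φ a) (fun _ => 1) v ≤ Wt (S.Φ a) (S.Pos a) v := by
  have hΦ := (S.Φ_sm a).continuous
  unfold Wt
  rw [← integral_const_mul]
  refine integral_mono ((integ_Wt hΦ continuous_const hv.1 hv.2.1).const_mul _)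
    (integ_Wt hΦ (S.Pos_c a) hv.1 hv.2.1) fun z => ?_
  by_cases hz : z ∈ tsupport v
  · have h1 := S.Pos_ge a ha z (hv.2.2 hz)
    have h2 : 0 ≤ max (S.Φ a z) 0 * v z ^ 2 := mul_nonneg (le_max_right _ _) (sq_nonneg _)
    simp only
    nlinarith
  · simp [image_eq_zero_of_notMem_tsupport hz]

lemma Wt_Neg {M : ℝ} {a : Par N} (hM : ∀ z ∈ S.B, S.Neg a z ≤ M) {v : E → ℝ} (hv : v ∈ TF S.B) :
    Wt (S.Φ a) (S.Neg a) v ≤ M * Wt (S.Φ a) (fun _ => 1) v := by
  have hΦ := (S.Φ_sm a).continuous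
  unfold Wt
  rw [← integral_const_mul]
  refine integral_mono (integ_Wt hΦ (S.Neg_c a) hv.1 hv.2.1)
    ((integ_Wt hΦ continuous_const hv.1 hv.2.1).const_mul _) fun z => ?_
  by_cases hz : z ∈ tsupport v
  · have h1 := hM z (hv.2.2 hz)
    have h2 : 0 ≤ max (S.Φ a z) 0 * v z ^ 2 := mul_nonneg (le_max_right _ _) (sq_nonneg _)
    simp only
    nlinarith
  · simp [image_eq_zero_of_notMem_tsupport hz]

lemma Wt_nonneg (a : Par N) (v : E → ℝ) : 0 ≤ Wt (S.Φ a) (fun _ => 1) v :=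
  integral_nonneg fun z => mul_nonneg (mul_nonneg zero_le_one (le_max_right _ _)) (sq_nonneg _)

lemma Q_ge {a : Par N} (ha : a ∈ Qc N) {v : E → ℝ} (hv : v ∈ TF S.B) :
    S.s * (Gf a (Xv S.α v) - 1 / 12 * ∑ i, Xv S.α v i ^ 2) + S.κ * Wt (S.Φ a) (fun _ => 1) v
      ≤ S.Q a v := by
  have h1 := S.lower a ha v hv
  have h2 := S.Wt_Pos ha hv
  unfold Q
  linarith

lemma Q_ge' {a : Par N} (ha : a ∈ Qc N) {v : E → ℝ} (hv : v ∈ TF S.B) :
    -(S.s * (2 * N + 1)) * ∑ i, Xv S.α v i ^ 2 + S.κ * Wt (S.Φ a) (fun _ => 1) v ≤ S.Q a v := by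
  have h1 := S.Q_ge ha hv
  have h2 := Gf_ge ha (Xv S.α v)
  have h3 : 0 ≤ ∑ i, Xv S.α v i ^ 2 := Finset.sum_nonneg fun i _ => sq_nonneg _
  have h4 : S.s * (-(2 * N + 1) * ∑ i, Xv S.α v i ^ 2)
      ≤ S.s * (Gf a (Xv S.α v) - 1 / 12 * ∑ i, Xv S.α v i ^ 2) :=
    mul_le_mul_of_nonneg_left (by linarith) S.s_pos.le
  linarith

lemma div_memB (a : Par N) (u : TF (S.Om a)) : (fun z => u.1 z / S.Φ a z) ∈ TF S.B :=
  TF_mono (fun _ hz => hz.1) (S.div_mem a u.2)

lemma hl {a : Par N} (ha : a ∈ Qc N) (u : TF (S.Om a)) :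
    -(S.s * (2 * N + 1)) * ∑ i, S.X a u i ^ 2 ≤ Bq S.lam (S.Om a) u u := by
  rw [Bq_self, S.qf_eq_Q a u.2, X_apply]
  have h1 := S.Q_ge' ha (S.div_memB a u)
  have h2 := mul_nonneg S.κ_pos.le (S.Wt_nonneg a (fun z => u.1 z / S.Φ a z))
  linarith

noncomputable def m (a : Par N) (x : Fin N → ℝ) : ℝ := mm (Bq S.lam (S.Om a)) (S.X a) x

lemma surj {a : Par N} (ha : a ∈ Qc N) {x : Fin N → ℝ} (hx : x ∈ Fx N) : ∃ u, S.X a u = x := by
  obtain ⟨ζ, hζ, h⟩ := S.transfer one_pos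
  obtain ⟨v, hv, hX, _⟩ := S.upper a ha x hx
  obtain ⟨u, hu, _⟩ := h a ha a ha (by simpa using hζ) v hv
  exact ⟨u, hu.trans hX⟩

lemma m_le {a : Par N} (ha : a ∈ Qc N) {x : Fin N → ℝ} (hx : x ∈ Fx N) :
    S.m a x ≤ S.s * (Gf a x + 1 / 12) := by
  obtain ⟨v, hv, hX, hQ⟩ := S.upper a ha x hx
  refine le_of_forall_pos_le_add fun δ hδ => ?_
  have hE := add_nonneg (En_nonneg (S.Φ a) v) (S.Wt_nonneg a v)
  set T := En (S.Φ a) v + Wt (S.Φ a) (fun _ => 1) v with hT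
  obtain ⟨ζ, hζ, h⟩ := S.transfer (η := δ / (T + 1)) (by positivity)
  obtain ⟨u, hu, hq⟩ := h a ha a ha (by simpa using hζ) v hv
  have h1 := mm_le (S.hl ha) u
  rw [hu, hX, Bq_self] at h1
  have h2 : δ / (T + 1) * T ≤ δ := by
    rw [div_mul_eq_mul_div, div_le_iff₀ (by positivity)]
    nlinarith
  unfold m
  unfold Q at hq
  linarith

lemma le_m {a : Par N} (ha : a ∈ Qc N) {x : Fin N → ℝ} (hx : x ∈ Fx N) :
    S.s * (Gf a x - 1 / 3) ≤ S.m a x := by
  refine le_mm (S.surj ha hx) fun u hu => ?_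
  rw [Bq_self, S.qf_eq_Q a u.2]
  have h1 := S.Q_ge ha (S.div_memB a u)
  have h2 := mul_nonneg S.κ_pos.le (S.Wt_nonneg a (fun z => u.1 z / S.Φ a z))
  rw [← X_apply, hu] at h1
  have h3 := Fx_sq hx
  have h4 : S.s * (Gf a x - 1 / 3) ≤ S.s * (Gf a x - 1 / 12 * ∑ i, x i ^ 2) :=
    mul_le_mul_of_nonneg_left (by linarith) S.s_pos.le
  linarith

lemma m_step {x : Fin N → ℝ} (hx : x ∈ Fx N) : ∃ C : ℝ, 0 ≤ C ∧ ∀ η : ℝ, 0 < η → ∃ ζ > 0,
    ∀ a ∈ Qc N, ∀ a' ∈ Qc N, dist a a' < ζ → S.m a' x ≤ S.m a x + η * C := by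
  obtain ⟨M, hM0, hM⟩ := S.bounds
  have hκ := S.κ_pos
  have hs := S.s_pos
  set T := S.s * (8 * N + 1) + 1 + 4 * (S.s * (2 * N + 1)) with hT
  have hT0 : 0 ≤ T := by positivity
  refine ⟨1 + T + (M + 1) * (T / S.κ), by positivity, fun η hη => ?_⟩
  obtain ⟨ζ, hζ, h⟩ := S.transfer hη
  refine ⟨ζ, hζ, fun a ha a' ha' hd => ?_⟩
  obtain ⟨u, hu, hq⟩ := exists_near (B := Bq S.lam (S.Om a)) (S.surj ha hx)
    (ε := min η 1) (lt_min hη one_pos)
  rw [Bq_self, S.qf_eq_Q a u.2] at hq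
  have hv := S.div_memB a u
  set v := fun z => u.1 z / S.Φ a z with hvdef
  have hXv : Xv S.α v = x := hu
  obtain ⟨u', hu', hq'⟩ := h a ha a' ha' hd v hv
  have h1 := mm_le (S.hl ha') u'
  rw [hu', hXv, Bq_self] at h1
  have h2 := S.Q_ge' ha hv
  rw [hXv] at h2
  have h3 := Fx_sq hx
  have h3' : 0 ≤ ∑ i, x i ^ 2 := Finset.sum_nonneg fun i _ => sq_nonneg _
  have h4 := S.m_le ha hx
  have h5 : Gf a x ≤ 8 * N := by
    have e : Gf a x = -Gf (fun p => 2 - a p) x := by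
      unfold Gf cc
      rw [neg_neg, ← Finset.sum_neg_distrib]
      refine Finset.sum_congr rfl fun i _ => ?_
      rw [← Finset.sum_neg_distrib]
      refine Finset.sum_congr rfl fun j _ => ?_
      ring
    have e2 : -Gf (fun p => 2 - a p) x ≤ ∑ i : Fin N, ∑ j : Fin N, (x i ^ 2 + x j ^ 2) := by
      rw [← e]
      unfold Gf
      rw [← Finset.sum_neg_distrib]
      refine Finset.sum_le_sum fun i _ => ?_
      rw [← Finset.sum_neg_distrib]
      refine Finset.sum_le_sum fun j _ => ?_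
      have := cc_bounds ha i j
      nlinarith only [mul_nonneg (by linarith only [this.1] : 0 ≤ cc a i j) (sq_nonneg (x i + x j)),
        sq_nonneg (x i), sq_nonneg (x j), this.1, this.2]
    simp only [Finset.sum_add_distrib, Finset.sum_const, Finset.card_univ, Fintype.card_fin,
      nsmul_eq_mul] at e2
    rw [← Finset.mul_sum] at e2
    have : (N:ℝ) * ∑ i, x i ^ 2 ≤ N * 4 := mul_le_mul_of_nonneg_left h3 (Nat.cast_nonneg N)
    linarith
  have h6 : S.Q a v ≤ S.s * (8 * N + 1) + 1 := by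
    have : S.s * (Gf a x + 1 / 12) ≤ S.s * (8 * N + 1) :=
      mul_le_mul_of_nonneg_left (by linarith) hs.le
    have := min_le_right η 1
    unfold m at h4
    linarith
  have h7 : S.s * (2 * N + 1) * ∑ i, x i ^ 2 ≤ S.s * (2 * N + 1) * 4 :=
    mul_le_mul_of_nonneg_left h3 (by positivity)
  have hW0 := S.Wt_nonneg a v
  have h8 : Wt (S.Φ a) (fun _ => 1) v ≤ T / S.κ := by
    rw [le_div_iff₀ hκ]
    linarith
  have h9 := S.Wt_Neg (fun z hz => (hM a ha z hz).2.1) hv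
  have h10 := S.Wt_Pos ha hv
  have h11 : En (S.Φ a) v ≤ T + M * (T / S.κ) := by
    have := mul_le_mul_of_nonneg_left h8 hM0
    have := mul_nonneg hκ.le hW0
    have : 0 ≤ 4 * (S.s * (2 * N + 1)) := by positivity
    unfold Q at h6
    linarith
  have h12 : η * (En (S.Φ a) v + Wt (S.Φ a) (fun _ => 1) v) ≤ η * (T + (M + 1) * (T / S.κ)) :=
    mul_le_mul_of_nonneg_left (by linarith) hη.le
  have := min_le_left η 1
  unfold m
  linarith

lemma m_cont {x : Fin N → ℝ} (hx : x ∈ Fx N) : ContinuousOn (fun a => S.m a x) (Qc N) := by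
  obtain ⟨C, hC0, hC⟩ := S.m_step hx
  rw [Metric.continuousOn_iff]
  intro b hb ε hε
  obtain ⟨ζ, hζ, h⟩ := hC (ε / (C + 1)) (by positivity)
  refine ⟨ζ, hζ, fun a ha hd => ?_⟩
  have h1 := h a ha b hb hd
  have h2 := h b hb a ha (by rwa [dist_comm])
  have h3 : ε / (C + 1) * C < ε := by
    rw [div_mul_eq_mul_div, div_lt_iff₀ (by positivity)]
    nlinarith
  rw [Real.dist_eq, abs_lt]
  constructor <;> linarith

lemma X_sq {a : Par N} (ha : a ∈ Qc N) :
    ∃ C : ℝ, 0 ≤ C ∧ ∀ (u : TF (S.Om a)) i, S.X a u i ^ 2 ≤ C * ∫ z, u.1 z ^ 2 := by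
  have hcs : ∀ i, HasCompactSupport (S.α i) := fun i =>
    HasCompactSupport.intro S.K_compact (S.α_supp i)
  choose M hM using fun i => (S.α_cont i).bounded_above_of_compact_support (hcs i)
  have hM0 : ∀ i, 0 ≤ M i := fun i => le_trans (norm_nonneg _) (hM i 0)
  have hI0 : ∀ i, 0 ≤ ∫ z, S.α i z := fun i => integral_nonneg (S.α_nonneg i)
  have hc := S.c_pos
  refine ⟨∑ i, (∫ z, S.α i z) * (M i / S.c ^ 2),
    Finset.sum_nonneg fun i _ => mul_nonneg (hI0 i) (div_nonneg (hM0 i) (by positivity)), ?_⟩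
  intro u i
  have hv := (S.div_mem a u.2).1.continuous
  have h1 := csw (S.α_nonneg i) ((S.α_cont i).integrable_of_hasCompactSupport (hcs i))
    (S.integ_α i hv) (S.integ_α i (hv.pow 2))
  have h2 : ∫ z, S.α i z * (u.1 z / S.Φ a z) ^ 2 ≤ M i / S.c ^ 2 * ∫ z, u.1 z ^ 2 := by
    rw [← integral_const_mul]
    refine integral_mono (S.integ_α i (hv.pow 2)) ((integ_sq u.2.1 u.2.2.1).const_mul _)
      fun z => ?_
    simp only
    by_cases hz : z ∈ S.K
    · have a1 := S.Φ_K a ha z hz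
      have a2 : S.α i z ≤ M i := le_trans (le_abs_self _) (hM i z)
      rw [div_pow, div_mul_eq_mul_div, mul_div_assoc]
      refine mul_le_mul a2 ?_ (by positivity) (hM0 i)
      exact div_le_div_of_nonneg_left (sq_nonneg _) (by positivity) (pow_le_pow_left₀ hc.le a1 2)
    · rw [S.α_supp i z hz, zero_mul]
      exact mul_nonneg (div_nonneg (hM0 i) (by positivity)) (sq_nonneg _)
  have h3 : 0 ≤ ∫ z, u.1 z ^ 2 := integral_nonneg fun _ => sq_nonneg _
  have h4 := Finset.single_le_sum (s := Finset.univ)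
    (f := fun i => (∫ z, S.α i z) * (M i / S.c ^ 2))
    (fun i _ => mul_nonneg (hI0 i) (div_nonneg (hM0 i) (by positivity))) (Finset.mem_univ i)
  calc S.X a u i ^ 2 ≤ (∫ z, S.α i z) * ∫ z, S.α i z * (u.1 z / S.Φ a z) ^ 2 := h1
    _ ≤ (∫ z, S.α i z) * (M i / S.c ^ 2 * ∫ z, u.1 z ^ 2) :=
        mul_le_mul_of_nonneg_left h2 (hI0 i)
    _ = (∫ z, S.α i z) * (M i / S.c ^ 2) * ∫ z, u.1 z ^ 2 := by ring
    _ ≤ _ := mul_le_mul_of_nonneg_right h4 h3

theorem reduction : ∃ Ω : Set E, IsOpen Ω ∧ IsConnected Ω ∧ Bornology.IsBounded Ω ∧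
    ∀ j, 2 ≤ j → j ≤ N → lamv Ω j = S.lam := by
  have hs := S.s_pos
  have hF1 : ∀ i : Fin N, (Pi.single i 1 : Fin N → ℝ) ∈ Fx N := fun i => ⟨i, i, Or.inl rfl⟩
  have hF2 : ∀ i j : Fin N, (Pi.single i 1 + Pi.single j 1 : Fin N → ℝ) ∈ Fx N :=
    fun i j => ⟨i, j, Or.inr rfl⟩
  let f : Par N → Par N := fun a p => -cc a p.1 p.2
    - (S.m a (Pi.single p.1 1 + Pi.single p.2 1) - S.m a (Pi.single p.1 1)
      - S.m a (Pi.single p.2 1)) / (2 * S.s)
  have hf : ContinuousOn f (Qc N) := by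
    refine continuousOn_pi.mpr fun p => ?_
    refine ContinuousOn.sub ?_ ((((S.m_cont (hF2 _ _)).sub (S.m_cont (hF1 _))).sub
      (S.m_cont (hF1 _))).div_const _)
    unfold cc
    fun_prop
  obtain ⟨a, ha, hfa⟩ := brouwer_cube (by norm_num : (0:ℝ) ≤ 1 / 2) f hf (by
    intro a ha p
    have a1 := S.m_le ha (hF2 p.1 p.2)
    have a2 := S.m_le ha (hF1 p.1)
    have a3 := S.m_le ha (hF1 p.2)
    have b1 := S.le_m ha (hF2 p.1 p.2)
    have b2 := S.le_m ha (hF1 p.1)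
    have b3 := S.le_m ha (hF1 p.2)
    have c1 := Gf_polar a p.1 p.2
    have c2 : S.s * (Gf a (Pi.single p.1 1 + Pi.single p.2 1) - Gf a (Pi.single p.1 1)
      - Gf a (Pi.single p.2 1)) = S.s * (-2 * cc a p.1 p.2) := by rw [c1]
    simp only [f]
    rw [abs_le, sub_le_iff_le_add, le_sub_comm, div_le_iff₀ (by positivity), ← sub_le_iff_le_add',
      le_div_iff₀ (by positivity)]
    constructor <;> linarith only [a1, a2, a3, b1, b2, b3, c2, hs])
  have hsym : ∀ i j, a (i, j) = a (j, i) := by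
    intro i j
    rw [← congrFun hfa (i, j), ← congrFun hfa (j, i)]
    simp only [f]
    rw [cc_symm a j i, add_comm (Pi.single j (1:ℝ) : Fin N → ℝ)]
    ring
  have hM : ∀ i j, mm (Bq S.lam (S.Om a)) (S.X a) (Pi.single i 1 + Pi.single j 1)
      - mm (Bq S.lam (S.Om a)) (S.X a) (Pi.single i 1)
      - mm (Bq S.lam (S.Om a)) (S.X a) (Pi.single j 1) = -2 * S.s := by
    intro i j
    have h1 := congrFun hfa (i, j)
    simp only [f, cc, m] at h1
    rw [hsym j i] at h1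
    have h2 : (mm (Bq S.lam (S.Om a)) (S.X a) (Pi.single i 1 + Pi.single j 1)
      - mm (Bq S.lam (S.Om a)) (S.X a) (Pi.single i 1)
      - mm (Bq S.lam (S.Om a)) (S.X a) (Pi.single j 1)) / (2 * S.s) = -1 := by linarith
    rw [div_eq_iff (by positivity)] at h2
    linarith
  obtain ⟨k1, k2⟩ := schur (Bq_symm S.lam) (S.hl ha) (fun i => S.surj ha (hF1 i)) hs.le hM
  refine ⟨S.Om a, S.Om_open a, S.conn a ha, S.B_bdd.subset fun _ hz => hz.1, fun j h1 h2 => ?_⟩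
  refine minmax (S.Om a) S.lam_nonneg (S.X a) (fun u hu => ?_) (fun ε hε => ?_) (S.X_sq ha) j h1 h2
  · rw [← Bq_self]; exact k1 u hu
  · obtain ⟨u, hu1, hu2⟩ := k2 ε hε
    exact ⟨u, hu1, fun x => by rw [← Bq_self]; exact hu2 x⟩

end Setup

theorem final (h : ∀ N : ℕ, Nonempty (Setup N)) :
    ¬ (∀ n : ℕ, 3 ≤ n → ∀ k : ℕ, 1 ≤ k → ∃ C : ℕ,
    ∀ Ω : Set (EuclideanSpace ℝ (Fin n)), IsOpen Ω → IsConnected Ω → Bornology.IsBounded Ω →
    ∀ lam : ℕ → ℝ,
      (∀ j : ℕ, lam j = sInf ((fun V : Submodule ℝ (EuclideanSpace ℝ (Fin n) → ℝ) =>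
          sSup ((fun f : EuclideanSpace ℝ (Fin n) → ℝ =>
            (∫ x, ‖fderiv ℝ f x‖ ^ 2) / (∫ x, f x ^ 2)) '' {f | f ∈ V ∧ f ≠ 0})) ''
        {V : Submodule ℝ (EuclideanSpace ℝ (Fin n) → ℝ) | Module.finrank ℝ V = j ∧
          ∀ f ∈ V, ContDiff ℝ ((⊤ : ℕ∞) : WithTop ℕ∞) f ∧ HasCompactSupport f ∧ tsupport f ⊆ Ω})) →
      ∀ S : Finset ℕ, (∀ j ∈ S, 1 ≤ j ∧ lam j = lam k) → S.card ≤ C) := by
  intro H
  obtain ⟨C, hC⟩ := H 4 (by norm_num) 2 (by norm_num)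
  obtain ⟨S⟩ := h (C + 2)
  obtain ⟨Ω, h1, h2, h3, h4⟩ := S.reduction
  have := hC Ω h1 h2 h3 (lamv Ω) (fun j => rfl) (Finset.Icc 2 (C + 2)) (by
    intro j hj
    rw [Finset.mem_Icc] at hj
    exact ⟨by omega, by rw [h4 j hj.1 hj.2, h4 2 le_rfl (by omega)]⟩)
  rw [Nat.card_Icc] at this
  omega

end Pool.Agent.MP_92c74b_an

end

section

set_option autoImplicit false
set_option maxSynthPendingDepth 3

namespace Pool.Agent.MP_92c74b_an

open Set MeasureTheory Metric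
open scoped ContDiff

noncomputable def mu {N : ℕ} (a : Par N) (i : Fin N) : ℝ := ∑ j, cc a i j

lemma mu_bounds {N : ℕ} {a : Par N} (ha : a ∈ Qc N) (i : Fin N) :
    0 ≤ mu a i ∧ mu a i ≤ 3 / 2 * N := by
  refine ⟨Finset.sum_nonneg fun j _ => by linarith [(cc_bounds ha i j).1], ?_⟩
  have := Finset.sum_le_sum (s := Finset.univ) fun j _ => (cc_bounds ha i j).2
  simpa [mul_comm, mu] using this

noncomputable def TT {N : ℕ} (a : Par N) (x : Fin N → ℝ) : ℝ :=
  1 / 2 * ∑ i, ∑ j, cc a i j * (x i - x j) ^ 2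

noncomputable def MM {N : ℕ} (a : Par N) (x : Fin N → ℝ) : ℝ := ∑ i, mu a i * x i ^ 2

lemma MM_eq {N : ℕ} (a : Par N) (x : Fin N → ℝ) :
    MM a x = 1 / 2 * ∑ i, ∑ j, cc a i j * (x i ^ 2 + x j ^ 2) := by
  have h1 : MM a x = ∑ i, ∑ j, cc a i j * x i ^ 2 := by
    simp only [MM, mu, Finset.sum_mul]
  have h2 : MM a x = ∑ i, ∑ j, cc a i j * x j ^ 2 := by
    rw [h1, Finset.sum_comm]
    simp only [cc_symm a]
  simp only [mul_add, Finset.sum_add_distrib]
  linarith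

lemma Gf_eq {N : ℕ} (a : Par N) (x : Fin N → ℝ) : Gf a x = TT a x - MM a x := by
  rw [MM_eq, TT, Gf, ← mul_sub, ← Finset.sum_sub_distrib, Finset.mul_sum, ← Finset.sum_neg_distrib]
  refine Finset.sum_congr rfl fun i _ => ?_
  rw [← Finset.sum_sub_distrib, Finset.mul_sum, ← Finset.sum_neg_distrib]
  refine Finset.sum_congr rfl fun j _ => ?_
  ring

lemma TT_bounds {N : ℕ} {a : Par N} (ha : a ∈ Qc N) (x : Fin N → ℝ) :
    0 ≤ TT a x ∧ TT a x ≤ 2 * MM a x := by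
  have hc : ∀ i j, 0 ≤ cc a i j := fun i j => by linarith [(cc_bounds ha i j).1]
  refine ⟨mul_nonneg (by norm_num) (Finset.sum_nonneg fun i _ => Finset.sum_nonneg fun j _ =>
    mul_nonneg (hc i j) (sq_nonneg _)), ?_⟩
  have : ∑ i, ∑ j, cc a i j * (x i - x j) ^ 2 ≤ ∑ i, ∑ j, 2 * (cc a i j * (x i ^ 2 + x j ^ 2)) :=
    Finset.sum_le_sum fun i _ => Finset.sum_le_sum fun j _ => by
      nlinarith [mul_nonneg (hc i j) (sq_nonneg (x i + x j))]
  simp only [← Finset.mul_sum] at this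
  rw [MM_eq, TT]
  linarith

lemma MM_bounds {N : ℕ} {a : Par N} (ha : a ∈ Qc N) (x : Fin N → ℝ) :
    0 ≤ MM a x ∧ MM a x ≤ 3 / 2 * N * ∑ i, x i ^ 2 := by
  refine ⟨Finset.sum_nonneg fun i _ => mul_nonneg (mu_bounds ha i).1 (sq_nonneg _), ?_⟩
  rw [Finset.mul_sum]
  exact Finset.sum_le_sum fun i _ => mul_le_mul_of_nonneg_right (mu_bounds ha i).2 (sq_nonneg _)

lemma pr_PP {N : ℕ} (i : Fin N) : pr (PP i) = PP i := pr_of (PP_zero i)

namespace Pre

variable {N : ℕ} (D : Pre N)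

noncomputable def Z : ℝ := ∫ s, gam D.σ s
noncomputable def Y : ℝ := ∫ s, D.G s * Real.cos s

noncomputable def Tb (i j : Fin N) (z : E) : ℝ :=
  ∫ s in (0:ℝ)..1, D.a0 (z - s • (PP j - PP i) - PP i)

noncomputable def tw (a : Par N) (z : E) : ℝ :=
  ∑ i, ∑ j, |cc a i j| * (‖PP j - PP i‖ ^ 2 * D.Tb i j z)

noncomputable def w (δ : ℝ) (a : Par N) (z : E) : ℝ := δ ^ 2 + D.isl z + δ / 2 * D.tw a z

noncomputable def al (om : ℝ) (i : Fin N) (z : E) : ℝ :=
  D.a0 (z - PP i) * (gam D.σ (om * z 0) * (om / D.Z))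

noncomputable def be (om : ℝ) (i : Fin N) (z : E) : ℝ :=
  D.a0 (z - PP i) * (D.G (om * z 0) * Real.cos (om * z 0) * (om / D.Y))

def Ki (om : ℝ) (i : Fin N) : Set E := slab (PP i) D.r D.θ om

lemma ε_le : D.ε ≤ 1 / 1000 := by
  have := D.ε_small
  have h : (0:ℝ) ≤ N := Nat.cast_nonneg N
  nlinarith [D.ε_pos]

lemma Gc_nonneg (s : ℝ) : 0 ≤ D.G s * Real.cos s := by
  by_cases h : D.G s = 0
  · simp [h]
  · exact mul_nonneg (D.G_nonneg s) (by linarith [cos_ge_half (D.G_supp s h).le])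

lemma Gc_cont : Continuous fun s => D.G s * Real.cos s :=
  D.G_smooth.continuous.mul Real.continuous_cos

lemma Y_pos : 0 < D.Y :=
  Continuous.integral_pos_of_hasCompactSupport_nonneg_nonzero (x := 0) D.Gc_cont
    (HasCompactSupport.intro (isCompact_Icc (a := (-1:ℝ)) (b := 1)) fun s hs => by
      by_contra h
      exact hs (abs_le.mp (D.G_supp s (left_ne_zero_of_mul h)).le))
    D.Gc_nonneg (by simp [D.G_zero])

lemma Zp : 0 < D.Z := D.Z_pos

lemma a0_cont : Continuous D.a0 := D.a0_smooth.continuous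

lemma a0_supp' (i : Fin N) (z : E) (h : D.a0 (z - PP i) ≠ 0) : ‖pr z - PP i‖ ≤ D.r := by
  have := D.a0_supp _ h
  rwa [map_sub, pr_PP] at this

lemma int_shift {P : E} (hP : P 0 = 0) (B : ℝ → ℝ) {om : ℝ} (hom : 0 < om) :
    ∫ z : E, D.a0 (z - P) * B (om * z 0) = (∫ t, B t) / om := by
  rw [← integral_add_right_eq_self _ P]
  simp only [add_sub_cancel_right, PiLp.add_apply, hP, add_zero]
  rw [fubini_scaled D.a0_hor B hom, D.a0_IH, one_mul]

lemma Tb_cont (i j : Fin N) : Continuous (D.Tb i j) :=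
  cont01 (h := fun s z => D.a0 (z - s • (PP j - PP i) - PP i)) (by
    have := D.a0_cont
    unfold Function.uncurry
    fun_prop)

lemma Tb_nonneg (i j : Fin N) (z : E) : 0 ≤ D.Tb i j z :=
  intervalIntegral.integral_nonneg zero_le_one fun _ _ => D.a0_nonneg _

lemma Tb_hor (i j : Fin N) : Hor (D.Tb i j) := fun z t => by
  unfold Tb
  congr 1
  funext s
  rw [show z + t • ee 0 - s • (PP j - PP i) - PP i = z - s • (PP j - PP i) - PP i + t • ee 0 by abel,
    D.a0_hor]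

lemma tw_nonneg (a : Par N) (z : E) : 0 ≤ D.tw a z :=
  Finset.sum_nonneg fun i _ => Finset.sum_nonneg fun j _ =>
    mul_nonneg (abs_nonneg _) (mul_nonneg (sq_nonneg _) (D.Tb_nonneg i j z))

lemma w_ge {δ : ℝ} (hδ : 0 < δ) (a : Par N) (z : E) : δ ^ 2 ≤ D.w δ a z := by
  have := mul_nonneg (half_pos hδ).le (D.tw_nonneg a z)
  unfold w
  linarith [D.isl_nonneg z]

lemma w_hor (δ : ℝ) (a : Par N) : Hor (D.w δ a) := fun z t => by
  simp only [w, tw, D.isl_hor z t, D.Tb_hor _ _ z t]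

lemma w_cont (δ : ℝ) : Continuous fun p : Par N × E => D.w δ p.1 p.2 := by
  have h1 := D.isl_cont
  have h2 := D.Tb_cont
  unfold w tw cc
  fun_prop

lemma al_cont (om : ℝ) (i : Fin N) : Continuous (D.al om i) := by
  have h1 := D.a0_cont
  have h2 := gam_cont D.σ
  unfold al
  fun_prop

lemma be_cont (om : ℝ) (i : Fin N) : Continuous (D.be om i) := by
  have h1 := D.a0_cont
  have h2 := D.G_smooth.continuous
  unfold be
  fun_prop

lemma al_nonneg {om : ℝ} (hom : 0 < om) (i : Fin N) (z : E) : 0 ≤ D.al om i z :=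
  mul_nonneg (D.a0_nonneg _) (mul_nonneg (sq_nonneg _) (div_nonneg hom.le D.Zp.le))

lemma be_nonneg {om : ℝ} (hom : 0 < om) (i : Fin N) (z : E) : 0 ≤ D.be om i z :=
  mul_nonneg (D.a0_nonneg _) (mul_nonneg (D.Gc_nonneg _) (div_nonneg hom.le D.Y_pos.le))

lemma al_supp (om : ℝ) (i : Fin N) (z : E) (hz : z ∉ D.Ki om i) : D.al om i z = 0 := by
  by_contra h
  refine hz ⟨D.a0_supp' i z (left_ne_zero_of_mul h), ?_⟩
  by_contra h2
  exact left_ne_zero_of_mul (right_ne_zero_of_mul h) (gam_zero (by linarith [D.θ1])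
    (by linarith [D.θ2]) D.cos_θ.le (not_le.mp h2).le)

lemma be_supp (om : ℝ) (i : Fin N) (z : E) (hz : z ∉ D.Ki om i) : D.be om i z = 0 := by
  by_contra h
  exact hz ⟨D.a0_supp' i z (left_ne_zero_of_mul h), le_trans (D.G_supp _
    (left_ne_zero_of_mul (left_ne_zero_of_mul (right_ne_zero_of_mul h)))).le D.θ1⟩

lemma al_int {om : ℝ} (hom : 0 < om) (i : Fin N) : ∫ z, D.al om i z = 1 := by
  have := D.int_shift (PP_zero i) (fun s => gam D.σ s * (om / D.Z)) hom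
  rw [integral_mul_const] at this
  refine this.trans ?_
  have h := D.Zp
  change D.Z * (om / D.Z) / om = 1
  field_simp

lemma be_int {om : ℝ} (hom : 0 < om) (i : Fin N) : ∫ z, D.be om i z = 1 := by
  have := D.int_shift (PP_zero i) (fun s => D.G s * Real.cos s * (om / D.Y)) hom
  rw [integral_mul_const] at this
  refine this.trans ?_
  have h := D.Y_pos
  change D.Y * (om / D.Y) / om = 1
  field_simp

lemma Ki_compact {om : ℝ} (hom : 0 < om) (i : Fin N) : IsCompact (D.Ki om i) :=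
  slab_compact _ _ _ hom

lemma Ki_sub (om : ℝ) (i : Fin N) : D.Ki om i ⊆ Bx D.R om := fun z hz =>
  ⟨by linarith [norm_le_insert' (pr z) (PP i), hz.1, D.R_big i, D.r_le],
    by linarith [hz.2, D.θ2]⟩

structure Adm (δ om : ℝ) (a : Par N) (Φ ρ g : E → ℝ) : Prop where
  δ_pos : 0 < δ
  om_ge : 1 ≤ om
  ha : a ∈ Qc N
  Φ_cont : Continuous Φ
  g_cont : Continuous g
  ρ_approx : ∀ z, |ρ z - √(D.w δ a z)| ≤ D.ε * √(D.w δ a z)
  Φ_approx : ∀ z ∈ Bx D.R om, |Φ z - ρ z * Real.cos (om * z 0)| ≤ D.σ / 2 * ρ z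
  g_eq : ∀ z, g z * ρ z = δ * D.Z / D.Y * ∑ i, mu a i * D.a0 (z - PP i)

lemma approx_ge {δ : ℝ} (hδ : 0 < δ) {a : Par N} {z : E} {y : ℝ}
    (h : |y - √(D.w δ a z)| ≤ D.ε * √(D.w δ a z)) : δ / 2 ≤ y := by
  have h1 : δ ≤ √(D.w δ a z) := Real.le_sqrt_of_sq_le (D.w_ge hδ a z)
  have h2 := (abs_le.mp h).1
  have h3 := mul_le_mul_of_nonneg_right D.ε_le (Real.sqrt_nonneg (D.w δ a z))
  linarith

variable {D}

namespace Adm

variable {δ om : ℝ} {a : Par N} {Φ ρ g : E → ℝ} (h : D.Adm δ om a Φ ρ g)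
include h

lemma om_pos : 0 < om := lt_of_lt_of_le one_pos h.om_ge

lemma ρ_pos (z : E) : 0 < ρ z :=
  lt_of_lt_of_le (half_pos h.δ_pos) (D.approx_ge h.δ_pos (h.ρ_approx z))

lemma w_nonneg (z : E) : 0 ≤ D.w δ a z := le_trans (sq_nonneg _) (D.w_ge h.δ_pos a z)

lemma ρ_sq_ge (z : E) : (1 - D.ε) ^ 2 * D.w δ a z ≤ ρ z ^ 2 := by
  have h1 := (abs_le.mp (h.ρ_approx z)).1
  have h2 : ((1 - D.ε) * √(D.w δ a z)) ^ 2 ≤ ρ z ^ 2 :=
    pow_le_pow_left₀ (mul_nonneg (by linarith [D.ε_le]) (Real.sqrt_nonneg _)) (by linarith) 2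
  rwa [mul_pow, Real.sq_sqrt (h.w_nonneg z)] at h2

lemma ρ_sq_le (z : E) : ρ z ^ 2 ≤ (1 + D.ε) ^ 2 * D.w δ a z := by
  have h1 := (abs_le.mp (h.ρ_approx z)).2
  have h2 : ρ z ^ 2 ≤ ((1 + D.ε) * √(D.w δ a z)) ^ 2 :=
    pow_le_pow_left₀ (h.ρ_pos z).le (by linarith) 2
  rwa [mul_pow, Real.sq_sqrt (h.w_nonneg z)] at h2

lemma g_nonneg (z : E) : 0 ≤ g z := by
  have h1 : 0 ≤ g z * ρ z := by
    rw [h.g_eq]
    exact mul_nonneg (div_nonneg (mul_pos h.δ_pos D.Zp).le D.Y_pos.le)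
      (Finset.sum_nonneg fun i _ => mul_nonneg (mu_bounds h.ha i).1 (D.a0_nonneg _))
  exact nonneg_of_mul_nonneg_left h1 (h.ρ_pos z)

lemma Φ_K {i : Fin N} {z : E} (hz : z ∈ D.Ki om i) : D.σ / 4 ≤ Φ z := by
  have h1 := (abs_le.mp (h.Φ_approx z (D.Ki_sub om i hz))).1
  have h2 : D.σ ≤ Real.cos (om * z 0) := by
    rw [← Real.cos_abs, ← D.cos_θ]
    exact cos_anti (abs_nonneg _) hz.2 (by linarith [D.θ2])
  have h3 : 1 ≤ √(D.w δ a z) := by
    refine Real.le_sqrt_of_sq_le ?_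
    have := mul_nonneg (half_pos h.δ_pos).le (D.tw_nonneg a z)
    unfold w
    linarith [D.isl_one i z hz.1, sq_nonneg δ]
  have h4 := (abs_le.mp (h.ρ_approx z)).1
  have h5 := mul_le_mul_of_nonneg_right D.ε_le (Real.sqrt_nonneg (D.w δ a z))
  have h6 : 1 / 2 ≤ ρ z := by linarith
  have h7 := mul_le_mul_of_nonneg_left h2 (h.ρ_pos z).le
  have h8 := mul_le_mul_of_nonneg_left h6 D.σ_pos.le
  linarith

lemma gG_eq (z : E) : g z * D.G (om * z 0) * (ρ z * Real.cos (om * z 0))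
    = δ * D.Z / om * ∑ i, mu a i * D.be om i z := by
  have h1 := h.om_pos
  have h2 := D.Y_pos
  calc g z * D.G (om * z 0) * (ρ z * Real.cos (om * z 0))
      = g z * ρ z * (D.G (om * z 0) * Real.cos (om * z 0)) := by ring
    _ = _ := by
      rw [h.g_eq, mul_assoc, Finset.sum_mul, Finset.mul_sum, Finset.mul_sum]
      refine Finset.sum_congr rfl fun i _ => ?_
      unfold be
      field_simp

lemma neg_bounds {z : E} (hz : z ∈ Bx D.R om) :
    (1 - D.ε) * (δ * D.Z / om * ∑ i, mu a i * D.be om i z) ≤ g z * D.G (om * z 0) * max (Φ z) 0 ∧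
    g z * D.G (om * z 0) * max (Φ z) 0 ≤ (1 + D.ε) * (δ * D.Z / om * ∑ i, mu a i * D.be om i z) := by
  rw [← h.gG_eq]
  by_cases hG : D.G (om * z 0) = 0
  · simp [hG]
  have h1 := cos_ge_half (D.G_supp _ hG).le
  have h2 := abs_le.mp (h.Φ_approx z hz)
  have h3 := h.ρ_pos z
  have h4 : D.σ / 2 * ρ z ≤ D.ε * (ρ z * Real.cos (om * z 0)) := by
    have := mul_le_mul D.σ_ε (mul_le_mul_of_nonneg_left h1 h3.le) (by positivity) D.ε_pos.le
    linarith
  have h5 := mul_nonneg (h.g_nonneg z) (D.G_nonneg (om * z 0))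
  have h6 : 0 ≤ ρ z * Real.cos (om * z 0) := mul_nonneg h3.le (by linarith)
  have h7 : (1 - D.ε) * (ρ z * Real.cos (om * z 0)) ≤ max (Φ z) 0 :=
    le_trans (by linarith) (le_max_left _ _)
  have h8 : max (Φ z) 0 ≤ (1 + D.ε) * (ρ z * Real.cos (om * z 0)) :=
    max_le (by linarith) (mul_nonneg (by linarith [D.ε_pos]) h6)
  have h9 := mul_le_mul_of_nonneg_left h7 h5
  have h10 := mul_le_mul_of_nonneg_left h8 h5
  constructor <;> linarith

lemma max_ge {z : E} (hz : z ∈ Bx D.R om) :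
    (1 - D.ε) ^ 2 * D.w δ a z * gam D.σ (om * z 0) ≤ max (Φ z) 0 ^ 2 := by
  have h2 := (abs_le.mp (h.Φ_approx z hz)).1
  have h3 := h.ρ_pos z
  have h4 := mul_pos D.σ_pos h3
  refine le_trans (mul_le_mul_of_nonneg_right (h.ρ_sq_ge z) (sq_nonneg _)) ?_
  rw [gam_eq _ hz.2.le, ← mul_pow]
  refine pow_le_pow_left₀ (mul_nonneg h3.le (le_max_right _ _)) ?_ 2
  rw [mul_max_of_nonneg _ _ h3.le, mul_zero]
  exact max_le_max (by linarith) le_rfl

lemma max_le {z : E} (hz : z ∈ Bx D.R om) :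
    max (Φ z) 0 ^ 2 ≤ (1 + D.ε) ^ 2 * D.w δ a z * gam (-D.σ) (om * z 0) := by
  have h2 := (abs_le.mp (h.Φ_approx z hz)).2
  have h3 := h.ρ_pos z
  have h4 := mul_pos D.σ_pos h3
  have h5 : 0 ≤ gam (-D.σ) (om * z 0) := sq_nonneg _
  refine le_trans ?_ (mul_le_mul_of_nonneg_right (h.ρ_sq_le z) h5)
  rw [gam_eq _ hz.2.le, ← mul_pow]
  refine pow_le_pow_left₀ (le_max_right _ _) ?_ 2
  rw [mul_max_of_nonneg _ _ h3.le, mul_zero]
  exact max_le_max (by linarith) le_rfl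

end Adm

end Pre

end Pool.Agent.MP_92c74b_an

end

section

set_option autoImplicit false
set_option maxSynthPendingDepth 3

namespace Pool.Agent.MP_92c74b_an

open Set MeasureTheory Metric
open scoped ContDiff

namespace Pre

variable {N : ℕ} {D : Pre N}

lemma al_shift (om : ℝ) (i j : Fin N) (z : E) : D.al om i (z - (PP j - PP i)) = D.al om j z := by
  unfold al
  rw [show z - (PP j - PP i) - PP i = z - PP j by abel]
  simp [PP_zero]

lemma al_avg (om : ℝ) (i j : Fin N) (z : E) :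
    ∫ s in (0:ℝ)..1, D.al om i (z - s • (PP j - PP i))
      = D.Tb i j z * (gam D.σ (om * z 0) * (om / D.Z)) := by
  unfold Tb
  rw [← intervalIntegral.integral_mul_const]
  congr 1
  funext s
  unfold al
  simp [PP_zero]

lemma al_hcs {om : ℝ} (hom : 0 < om) (i : Fin N) : HasCompactSupport (D.al om i) :=
  HasCompactSupport.intro (D.Ki_compact hom i) (D.al_supp om i)

lemma be_hcs {om : ℝ} (hom : 0 < om) (i : Fin N) : HasCompactSupport (D.be om i) :=
  HasCompactSupport.intro (D.Ki_compact hom i) (D.be_supp om i)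

lemma tube_lower {δ om : ℝ} {a : Par N} {Φ ρ g : E → ℝ} (h : D.Adm δ om a Φ ρ g) {v : E → ℝ}
    (hv : v ∈ TF (Bx D.R om)) :
    (1 - D.ε) ^ 2 * (δ * D.Z / om) * TT a (Xv (D.al om) v) ≤ En Φ v := by
  have hom := h.om_pos
  have hZ := D.Zp
  have hD := cont_normsq hv.1
  have hg := gam_cont D.σ
  have hT := D.Tb_cont
  let H : Fin N → Fin N → E → ℝ := fun i j z =>
    ‖PP j - PP i‖ ^ 2 * D.Tb i j z * (gam D.σ (om * z 0) * ‖fderiv ℝ v z‖ ^ 2)
  have hHi : ∀ i j, Integrable (H i j) := fun i j =>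
    integ_of hv.2.1 (by fun_prop) fun z hz => by simp [H, fderiv_of_notMem_tsupport ℝ hz]
  have h1 : ∀ i j, (Xv (D.al om) v i - Xv (D.al om) v j) ^ 2 ≤ om / D.Z * ∫ z, H i j z := by
    intro i j
    have := tube_bound (D.al_cont om i) (al_hcs hom i) (D.al_nonneg hom i) (D.al_int hom i) hv.1
      (PP j - PP i)
    simp only [al_shift, al_avg] at this
    rw [← neg_sq, neg_sub, ← integral_const_mul]
    refine le_trans this (le_of_eq ?_)
    congr 1
    funext z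
    simp only [H]
    ring
  have h2 : TT a (Xv (D.al om) v)
      ≤ 1 / 2 * (om / D.Z) * ∫ z, D.tw a z * (gam D.σ (om * z 0) * ‖fderiv ℝ v z‖ ^ 2) := by
    have e : ∫ z, D.tw a z * (gam D.σ (om * z 0) * ‖fderiv ℝ v z‖ ^ 2)
        = ∑ i, ∑ j, cc a i j * ∫ z, H i j z := by
      simp only [← integral_const_mul]
      rw [← Finset.sum_congr rfl fun i _ => integral_finsetSum _
        fun j _ => (hHi i j).const_mul (cc a i j), ← integral_finsetSum _ fun i _ =>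
          integrable_finsetSum _ fun j _ => (hHi i j).const_mul (cc a i j)]
      congr 1
      funext z
      simp only [tw, Finset.sum_mul, H]
      refine Finset.sum_congr rfl fun i _ => Finset.sum_congr rfl fun j _ => ?_
      rw [abs_of_nonneg (by linarith [(cc_bounds h.ha i j).1])]
      ring
    rw [e, TT, mul_assoc]
    refine mul_le_mul_of_nonneg_left ?_ (by norm_num)
    rw [Finset.mul_sum]
    refine Finset.sum_le_sum fun i _ => ?_
    rw [Finset.mul_sum]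
    refine Finset.sum_le_sum fun j _ => ?_
    rw [mul_left_comm]
    exact mul_le_mul_of_nonneg_left (h1 i j) (by linarith [(cc_bounds h.ha i j).1])
  refine le_trans (mul_le_mul_of_nonneg_left h2
    (mul_nonneg (sq_nonneg _) (div_pos (mul_pos h.δ_pos hZ) hom).le)) ?_
  have e2 : (1 - D.ε) ^ 2 * (δ * D.Z / om) * (1 / 2 * (om / D.Z)
      * ∫ z, D.tw a z * (gam D.σ (om * z 0) * ‖fderiv ℝ v z‖ ^ 2))
      = ∫ z, (1 - D.ε) ^ 2 * (δ / 2) * (D.tw a z * (gam D.σ (om * z 0) * ‖fderiv ℝ v z‖ ^ 2)) := by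
    rw [integral_const_mul]
    field_simp
  rw [e2]
  have htw : Continuous (D.tw a) := by
    unfold tw
    fun_prop
  refine integral_mono (integ_of hv.2.1 (by fun_prop) fun z hz => by
    simp [fderiv_of_notMem_tsupport ℝ hz]) (integ_En h.Φ_cont hv.1 hv.2.1) fun z => ?_
  by_cases hz : z ∈ tsupport v
  swap
  · simp [fderiv_of_notMem_tsupport ℝ hz]
  have a1 := h.max_ge (hv.2.2 hz)
  have a2 : δ / 2 * D.tw a z ≤ D.w δ a z := by
    unfold w
    linarith [D.isl_nonneg z, sq_nonneg δ]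
  have a3 : 0 ≤ gam D.σ (om * z 0) := sq_nonneg _
  have a4 := mul_le_mul_of_nonneg_right (mul_le_mul_of_nonneg_left a2 (sq_nonneg (1 - D.ε))) a3
  have a5 := mul_le_mul_of_nonneg_right (le_trans a4 a1) (sq_nonneg ‖fderiv ℝ v z‖)
  simp only
  linarith

lemma var_bound (D : Pre N) : ∃ C : ℝ, 0 ≤ C ∧ ∀ (δ om : ℝ) (a : Par N) (Φ ρ g : E → ℝ),
    D.Adm δ om a Φ ρ g → ∀ v ∈ TF (Bx D.R om), ∀ i,
      ∫ z, D.be om i z * (v z - Xv (D.al om) v i) ^ 2 ≤ C * om * En Φ v := by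
  let b : ContDiffBump (0:E) := ⟨2, 3, by norm_num, by norm_num⟩
  let η : ContDiffBump (0:ℝ) := ⟨4, 5, by norm_num, by norm_num⟩
  have hA : 0 ≤ D.A := le_trans (D.a0_nonneg 0) (D.a0_le 0)
  have hZ := D.Zp
  have hY := D.Y_pos
  have hσ := D.σ_pos
  have hI : 0 ≤ IH fun z => b (pr z) := integral_nonneg fun _ => b.nonneg
  have hJ : 0 ≤ ∫ s, η s := integral_nonneg fun _ => η.nonneg
  refine ⟨D.A / D.Y * (D.A / D.Z) * 6 ^ 2 / (D.σ / 4) ^ 2 * ((IH fun z => b (pr z)) * ∫ s, η s),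
    by positivity, fun δ om a Φ ρ g h v hv i => ?_⟩
  have hom := h.om_pos
  have key := variance (α := D.al om i) (β := D.be om i) (η := fun z => b (pr z) * η (om * z 0))
    (W := fun z => max (Φ z) 0 ^ 2) (v := v) (K := D.Ki om i) (Ma := D.A * (om / D.Z))
    (Mb := D.A * (om / D.Y)) (d := 6) (c2 := (D.σ / 4) ^ 2) (D.Ki_compact hom i)
    (slab_convex _ _ _ _) (D.al_cont om i) (D.be_cont om i)
    ((b.continuous.comp pr.continuous).mul (η.continuous.comp (by fun_prop)))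
    (prod_supp (P := 0) (r := 3) (t := 5) hom (fun z hz => by
      have : pr z ∈ Function.support b := hz
      rw [b.support_eq, mem_ball_zero_iff] at this
      simpa using this.le) fun s hs => by
      have : s ∈ Function.support η := hs
      rw [η.support_eq, mem_ball_zero_iff] at this
      exact this.le)
    ((h.Φ_cont.max continuous_const).pow 2) (D.al_nonneg hom i) (D.be_nonneg hom i)
    (fun z => mul_nonneg b.nonneg η.nonneg) (fun z => sq_nonneg _) (D.al_supp om i)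
    (D.be_supp om i) (fun z => by
      refine mul_le_mul (D.a0_le _) (mul_le_of_le_one_left (by positivity) ?_)
        (mul_nonneg (sq_nonneg _) (by positivity)) hA
      refine pow_le_one₀ (le_max_right _ _) (max_le ?_ zero_le_one)
      linarith [Real.cos_le_one (min |om * z 0| 2)])
    (fun z => by
      refine mul_le_mul (D.a0_le _) (mul_le_of_le_one_left (by positivity) ?_)
        (mul_nonneg (D.Gc_nonneg _) (by positivity)) hA
      exact le_trans (mul_le_of_le_one_right (D.G_nonneg _) (Real.cos_le_one _)) (D.G_le _))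
    (D.al_int hom i) (by positivity)
    (fun z hz => pow_le_pow_left₀ (by positivity) (le_trans (h.Φ_K hz) (le_max_left _ _)) 2)
    (fun z y hz hy => by
      have a1 : ‖pr y‖ ≤ 2 := by
        have := norm_sub_le (pr (z + y) - PP i) (pr z - PP i)
        rw [map_add, show pr z + pr y - PP i - (pr z - PP i) = pr y by abel, ← map_add] at this
        linarith [hz.1, hy.1, D.r_le]
      have a2 : |om * y 0| ≤ 4 := by
        have := abs_sub (om * (z + y) 0) (om * z 0)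
        rw [show om * (z + y) 0 - om * z 0 = om * y 0 by simp; ring] at this
        linarith [hz.2, hy.2, D.θ2]
      constructor
      · rw [b.one_of_mem_closedBall (mem_closedBall_zero_iff.mpr a1),
          η.one_of_mem_closedBall (mem_closedBall_zero_iff.mpr a2), one_mul]
      · rw [abs_mul, abs_of_pos hom] at a2
        have := mul_le_mul_of_nonneg_right h.om_ge (abs_nonneg (y 0))
        linarith [norm_le_pr y])
    hv.1 hv.2.1
  rw [fubini_scaled (Hor_pr b) η hom] at key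
  refine le_trans key (le_of_eq ?_)
  unfold En
  field_simp

theorem lower (D : Pre N) : ∃ δ0 : ℝ, 0 < δ0 ∧ ∀ (δ om : ℝ) (a : Par N) (Φ ρ g : E → ℝ), δ ≤ δ0 →
    D.Adm δ om a Φ ρ g → ∀ v ∈ TF (Bx D.R om),
      δ * D.Z / om * (Gf a (Xv (D.al om) v) - 1 / 12 * ∑ i, Xv (D.al om) v i ^ 2)
        ≤ En Φ v - Wt Φ (fun z => g z * D.G (om * z 0)) v := by
  obtain ⟨C, hC, hvar⟩ := D.var_bound
  have hε := D.ε_pos
  have hε1 := D.ε_le
  have hZ := D.Zp
  set L := (1 + D.ε) * (1 + 1 / D.ε) * C * D.Z * (3 / 2 * N * N) with hL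
  have hL0 : 0 ≤ L := by positivity
  refine ⟨D.ε / (L + 1), by positivity, fun δ om a Φ ρ g hδ h v hv => ?_⟩
  have hom := h.om_pos
  have hδ0 := h.δ_pos
  have hδL : δ * L ≤ D.ε := by
    rw [le_div_iff₀ (by positivity)] at hδ
    linarith
  have hT := tube_lower h hv
  have hvc := hv.1.continuous
  set X := Xv (D.al om) v with hX
  set e := En Φ v with he
  have he0 : 0 ≤ e := En_nonneg Φ v
  have hs : 0 < δ * D.Z / om := by positivity
  have hbi : ∀ i (F : E → ℝ), Continuous F → Integrable fun z => D.be om i z * F z :=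
    fun i F hF => integ_of (be_hcs (D := D) hom i) ((D.be_cont om i).mul hF) fun z hz => by
      simp [image_eq_zero_of_notMem_tsupport hz]
  have h1 : ∀ i, ∫ z, D.be om i z * v z ^ 2
      ≤ (1 + D.ε) * X i ^ 2 + (1 + 1 / D.ε) * (C * om * e) := by
    intro i
    have a1 : ∫ z, D.be om i z * v z ^ 2 ≤ ∫ z, ((1 + D.ε) * X i ^ 2 * (D.be om i z * 1)
        + (1 + 1 / D.ε) * (D.be om i z * (v z - X i) ^ 2)) := by
      refine integral_mono (hbi i _ (by fun_prop)) (iadd ((hbi i _ continuous_const).const_mul _)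
        ((hbi i _ (by fun_prop)).const_mul _)) fun z => ?_
      have b1 : v z ^ 2 ≤ (1 + D.ε) * X i ^ 2 + (1 + 1 / D.ε) * (v z - X i) ^ 2 := by
        have b2 : 0 ≤ 1 / D.ε * (D.ε * X i - (v z - X i)) ^ 2 := by positivity
        have b3 : 1 / D.ε * (D.ε * X i - (v z - X i)) ^ 2
            = D.ε * X i ^ 2 - 2 * X i * (v z - X i) + 1 / D.ε * (v z - X i) ^ 2 := by
          field_simp
          ring
        linarith only [b2, b3]
      have := mul_le_mul_of_nonneg_left b1 (D.be_nonneg hom i z)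
      simp only
      linarith only [this]
    rw [integral_add ((hbi i _ continuous_const).const_mul _)
      ((hbi i _ (by fun_prop)).const_mul _), integral_const_mul, integral_const_mul] at a1
    simp only [mul_one, D.be_int hom i] at a1
    have a2 := mul_le_mul_of_nonneg_left (hvar δ om a Φ ρ g h v hv i)
      (by positivity : 0 ≤ 1 + 1 / D.ε)
    linarith only [a1, a2]
  have h2 : Wt Φ (fun z => g z * D.G (om * z 0)) v
      ≤ (1 + D.ε) * (δ * D.Z / om) * ∑ i, mu a i * ∫ z, D.be om i z * v z ^ 2 := by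
    simp only [← integral_const_mul]
    rw [← integral_finsetSum _ fun i _ => (hbi i _ (by fun_prop)).const_mul (mu a i),
      ← integral_const_mul]
    refine integral_mono (integ_Wt h.Φ_cont (h.g_cont.mul (D.G_smooth.continuous.comp
      (by fun_prop))) hv.1 hv.2.1) ((integrable_finsetSum _ fun i _ =>
        (hbi i _ (by fun_prop)).const_mul (mu a i)).const_mul _) fun z => ?_
    by_cases hz : z ∈ tsupport v
    swap
    · simp [image_eq_zero_of_notMem_tsupport hz]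
    have := mul_le_mul_of_nonneg_right (h.neg_bounds (hv.2.2 hz)).2 (sq_nonneg (v z))
    simp only [← mul_assoc, ← Finset.sum_mul] at this ⊢
    exact this
  have h3 : ∑ i, mu a i * ∫ z, D.be om i z * v z ^ 2
      ≤ (1 + D.ε) * MM a X + (1 + 1 / D.ε) * (C * om * e) * (3 / 2 * N * N) := by
    have a1 : ∑ i, mu a i * ∫ z, D.be om i z * v z ^ 2 ≤ ∑ i : Fin N, ((1 + D.ε) * (mu a i * X i ^ 2)
        + (1 + 1 / D.ε) * (C * om * e) * (3 / 2 * N)) := by
      refine Finset.sum_le_sum fun i _ => ?_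
      have b1 := mul_le_mul_of_nonneg_left (h1 i) (mu_bounds h.ha i).1
      have b2 := mul_le_mul_of_nonneg_left (mu_bounds h.ha i).2
        (by positivity : 0 ≤ (1 + 1 / D.ε) * (C * om * e))
      linarith only [b1, b2]
    rw [Finset.sum_add_distrib, ← Finset.mul_sum] at a1
    simp only [Finset.sum_const, Finset.card_univ, Fintype.card_fin, nsmul_eq_mul] at a1
    unfold MM
    linarith only [a1]
  have h4 := mul_le_mul_of_nonneg_left h3 (by positivity : 0 ≤ (1 + D.ε) * (δ * D.Z / om))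
  have h5 : (1 + D.ε) * (δ * D.Z / om) * ((1 + D.ε) * MM a X
      + (1 + 1 / D.ε) * (C * om * e) * (3 / 2 * N * N))
      = (1 + D.ε) ^ 2 * (δ * D.Z / om * MM a X) + δ * L * e := by
    rw [hL]
    field_simp
  have h6 := mul_le_mul_of_nonneg_right hδL he0
  obtain ⟨t1, t2⟩ := TT_bounds h.ha X
  obtain ⟨m1, m2⟩ := MM_bounds h.ha X
  have hS : 0 ≤ ∑ i, X i ^ 2 := Finset.sum_nonneg fun i _ => sq_nonneg _
  have h7 : TT a X - MM a X - 1 / 12 * ∑ i, X i ^ 2
      ≤ (1 - D.ε) ^ 3 * TT a X - (1 + D.ε) ^ 2 * MM a X := by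
    have b1 : D.ε * MM a X ≤ 3 / 2 * (1 / 1000) * ∑ i, X i ^ 2 := by
      have c1 := mul_le_mul_of_nonneg_left m2 hε.le
      have c2 : D.ε * N ≤ 1 / 1000 := by linarith only [D.ε_small, hε]
      have c3 := mul_le_mul_of_nonneg_right c2 hS
      linarith only [c1, c3]
    have b2 : 1 - 3 * D.ε ≤ (1 - D.ε) ^ 3 := by nlinarith only [sq_nonneg D.ε, hε, hε1]
    have b3 : (1 + D.ε) ^ 2 ≤ 1 + 3 * D.ε := by nlinarith only [hε, hε1]
    have b4 := mul_le_mul_of_nonneg_right b2 t1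
    have b5 := mul_le_mul_of_nonneg_right b3 m1
    have b6 := mul_le_mul_of_nonneg_left t2 hε.le
    linarith only [b1, b4, b5, b6, hS]
  have h8 := mul_le_mul_of_nonneg_left h7 hs.le
  have h9 := mul_le_mul_of_nonneg_left hT (by linarith only [hε1] : 0 ≤ 1 - D.ε)
  rw [Gf_eq]
  linarith only [h2, h4, h5, h6, h8, h9]

end Pre

end Pool.Agent.MP_92c74b_an

end
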