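import Pool.Agent.Mg.F92c74b.G71d0bc

section

set_option autoImplicit false
set_option maxSynthPendingDepth 3

namespace Pool.Agent.MP_92c74b_an

open Set MeasureTheory Metric Filter Topology
open scoped ContDiff

lemma Fx_finite (N : ℕ) : (Fx N).Finite := by
  refine ((finite_range fun i : Fin N => (Pi.single i 1 : Fin N → ℝ)).union
    (finite_range fun p : Fin N × Fin N =>
      (Pi.single p.1 1 + Pi.single p.2 1 : Fin N → ℝ))).subset ?_
  rintro x ⟨i, j, rfl | rfl⟩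
  · exact Or.inl ⟨i, rfl⟩
  · exact Or.inr ⟨(i, j), rfl⟩

noncomputable def chi : ContDiffBump (0:ℝ) := ⟨9 / 5, 19 / 10, by norm_num, by norm_num⟩

lemma chi_supp {s : ℝ} (h : chi s ≠ 0) : |s| ≤ 19 / 10 := by
  have : s ∈ Function.support chi := h
  rw [chi.support_eq, mem_ball_zero_iff] at this
  exact this.le

lemma chi_one {s : ℝ} (h : |s| ≤ 9 / 5) : chi s = 1 :=
  chi.one_of_mem_closedBall (mem_closedBall_zero_iff.mpr h)

namespace Pre

variable {N : ℕ} (D : Pre N)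

noncomputable def vv (om : ℝ) (x : Fin N → ℝ) (z : E) : ℝ := D.vx x (pr z) * chi (om * z 0)

noncomputable def qq (x : Fin N → ℝ) (z : E) : ℝ := ‖fderiv ℝ (D.vx x) (pr z)‖ ^ 2

lemma vv_mem {om : ℝ} (hom : 0 < om) (x : Fin N → ℝ) : D.vv om x ∈ TF (Bx D.R om) := by
  have hs : Function.support (D.vv om x) ⊆ slab 0 (D.R - 1) (19 / 10) om := fun z hz =>
    ⟨by
      by_contra h
      exact left_ne_zero_of_mul hz (D.vx_out x _ (by simpa using (not_le.mp h).le)),
    chi_supp (right_ne_zero_of_mul hz)⟩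
  have ht : tsupport (D.vv om x) ⊆ slab 0 (D.R - 1) (19 / 10) om :=
    closure_minimal hs (slab_closed _ _ _ _)
  refine ⟨((D.vx_smooth x).comp pr.contDiff).mul (vert_smooth chi.contDiff om),
    (slab_compact _ _ _ hom).of_isClosed_subset (isClosed_tsupport _) ht, fun z hz => ?_⟩
  have h1 := (ht hz).1
  have h2 := (ht hz).2
  rw [sub_zero] at h1
  exact ⟨by linarith, by linarith⟩

lemma vv_K {om : ℝ} {x : Fin N → ℝ} {i : Fin N} {z : E} (hz : z ∈ D.Ki om i) :
    D.vv om x z = x i := by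
  unfold vv
  rw [D.vx_isl x i _ (by linarith [hz.1, D.r_pos]), chi_one (by linarith [hz.2, D.θ2]), mul_one]

lemma vv_deriv {om : ℝ} {x : Fin N → ℝ} {z : E} (hz : |om * z 0| < 9 / 5) :
    ‖fderiv ℝ (D.vv om x) z‖ ^ 2 ≤ D.qq x z := by
  have h1 : D.vv om x =ᶠ[𝓝 z] fun y => D.vx x (pr y) := by
    have ho : IsOpen {y : E | |om * y 0| < 9 / 5} := isOpen_lt (by fun_prop) continuous_const
    filter_upwards [ho.mem_nhds hz] with y hy
    unfold vv
    rw [chi_one (le_of_lt hy), mul_one]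
  have h2 : fderiv ℝ (fun y => D.vx x (pr y)) z = _ :=
    ((smooth_diff (D.vx_smooth x) (pr z)).hasFDerivAt.comp z pr.hasFDerivAt).fderiv
  rw [h1.fderiv_eq, h2]
  refine pow_le_pow_left₀ (norm_nonneg _) ?_ 2
  refine ContinuousLinearMap.opNorm_le_bound _ (norm_nonneg _) fun y => ?_
  exact le_trans ((fderiv ℝ (D.vx x) (pr z)).le_opNorm _)
    (mul_le_mul_of_nonneg_left (norm_pr_le y) (norm_nonneg _))

lemma qq_cont (x : Fin N → ℝ) : Continuous (D.qq x) :=
  (cont_normsq (D.vx_smooth x)).comp pr.continuous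

lemma qq_supp (x : Fin N → ℝ) (z : E) (h : D.qq x z ≠ 0) : ‖pr z - 0‖ ≤ D.R := by
  by_contra hn
  rw [sub_zero, not_le] at hn
  have h1 : D.vx x =ᶠ[𝓝 (pr z)] fun _ => 0 := by
    have ho : IsOpen {y : E | D.R < ‖y‖} := isOpen_lt continuous_const continuous_norm
    filter_upwards [ho.mem_nhds hn] with y hy
    exact D.vx_out x y (by have : D.R < ‖y‖ := hy; linarith)
  exact h (by simp [qq, h1.fderiv_eq])

lemma isl_qq (x : Fin N → ℝ) (z : E) : D.isl z * D.qq x z = 0 := by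
  by_cases h : D.isl z = 0
  · simp [h]
  obtain ⟨i, hi⟩ := D.isl_supp z h
  have h1 : D.vx x =ᶠ[𝓝 (pr z)] fun _ => x i := by
    have ho : IsOpen {y : E | ‖y - PP i‖ < 3 * D.r} := isOpen_lt (by fun_prop) continuous_const
    have hm : pr z ∈ {y : E | ‖y - PP i‖ < 3 * D.r} := by
      change ‖pr z - PP i‖ < 3 * D.r
      linarith [D.r_pos]
    filter_upwards [ho.mem_nhds hm] with y hy
    exact D.vx_isl x i y (le_of_lt hy)
  simp [qq, h1.fderiv_eq]

lemma a0_tube (i j : Fin N) (s : ℝ) (z : E) (h : D.a0 (z - s • (PP j - PP i) - PP i) ≠ 0) :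
    ‖pr z - PP i - s • (PP j - PP i)‖ ≤ D.r := by
  have := D.a0_supp _ h
  rwa [map_sub, map_sub, map_smul, map_sub, pr_PP, pr_PP, sub_right_comm] at this

lemma Tb_qq (x : Fin N → ℝ) (i j : Fin N) (z : E) :
    ‖PP j - PP i‖ ^ 2 * D.Tb i j z * D.qq x z ≤ (1 + D.ε) * (x i - x j) ^ 2 * D.Tb i j z := by
  have hc := D.a0_cont
  rw [mul_right_comm]
  unfold Tb
  rw [← intervalIntegral.integral_const_mul, ← intervalIntegral.integral_const_mul]
  refine intervalIntegral.integral_mono_on zero_le_one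
    (Continuous.intervalIntegrable (by fun_prop) 0 1)
    (Continuous.intervalIntegrable (by fun_prop) 0 1) fun s hs => ?_
  by_cases h : D.a0 (z - s • (PP j - PP i) - PP i) = 0
  · simp [h]
  · exact mul_le_mul_of_nonneg_right (D.vx_tube x i j s hs _ (D.a0_tube i j s z h))
      (D.a0_nonneg _)

lemma Tb_supp (i j : Fin N) (z : E) (h : D.Tb i j z ≠ 0) :
    ‖pr z - PP i‖ ≤ D.r + ‖PP j - PP i‖ := by
  by_contra hn
  refine h ?_
  unfold Tb
  rw [intervalIntegral.integral_congr (g := fun _ => (0:ℝ))]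
  · simp
  intro s hs
  rw [uIcc_of_le zero_le_one] at hs
  by_contra h2
  have a1 := D.a0_tube i j s z h2
  have a2 := norm_le_insert' (pr z - PP i) (s • (PP j - PP i))
  rw [norm_smul, Real.norm_of_nonneg hs.1] at a2
  have a3 := mul_le_of_le_one_left (norm_nonneg (PP j - PP i)) hs.2
  exact hn (by linarith)

lemma Γ_supp (s : ℝ) (h : gam (-D.σ) s ≠ 0) : |s| ≤ 9 / 5 := by
  by_contra hn
  exact h (gam_zero (θ := 9 / 5) (by norm_num) (by norm_num) (by linarith [cos_95, D.σ_le])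
    (not_le.mp hn).le)

lemma Tb_int {om : ℝ} (hom : 0 < om) (i j : Fin N) :
    ∫ z : E, D.Tb i j z * gam (-D.σ) (om * z 0) = (∫ s, gam (-D.σ) s) / om := by
  have hc := D.a0_cont
  have hg := gam_cont (-D.σ)
  have := seg_weight (b := fun z => D.a0 (z - PP i) * gam (-D.σ) (om * z 0)) (F := fun _ => 1)
    (by fun_prop) (prod_supp hom (D.a0_supp' i) D.Γ_supp) continuous_const (PP j - PP i)
  simp only [mul_one, D.int_shift (PP_zero i) _ hom, intervalIntegral.integral_const, sub_zero,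
    one_smul] at this
  rw [← this]
  congr 1
  funext z
  unfold Tb
  rw [← intervalIntegral.integral_mul_const]
  congr 1
  funext s
  simp [PP_zero]

variable {D}

lemma en_upper {δ om : ℝ} {a : Par N} {Φ ρ g : E → ℝ} (h : D.Adm δ om a Φ ρ g) (x : Fin N → ℝ) :
    En Φ (D.vv om x) ≤ δ * D.Z / om * ((1 + D.ε) ^ 3 * (δ * IH (D.qq x))
      + (1 + D.ε) ^ 4 * TT a x) := by
  have hom := h.om_pos
  have hδ := h.δ_pos
  have hε := D.ε_pos
  have hv := D.vv_mem hom x
  have hg := gam_cont (-D.σ)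
  have i1 : Integrable fun z : E => D.qq x z * gam (-D.σ) (om * z 0) :=
    ((D.qq_cont x).mul (by fun_prop)).integrable_of_hasCompactSupport
      (prod_supp hom (D.qq_supp x) D.Γ_supp)
  have i2 : ∀ i j, Integrable fun z : E => D.Tb i j z * gam (-D.σ) (om * z 0) := fun i j =>
    ((D.Tb_cont i j).mul (by fun_prop)).integrable_of_hasCompactSupport
      (prod_supp hom (D.Tb_supp i j) D.Γ_supp)
  have i3 : ∀ i, Integrable fun z : E => ∑ j, cc a i j * (x i - x j) ^ 2
      * (D.Tb i j z * gam (-D.σ) (om * z 0)) := fun i =>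
    integrable_finsetSum _ fun j _ => (i2 i j).const_mul _
  have h1 : En Φ (D.vv om x) ≤ ∫ z : E, ((1 + D.ε) ^ 2 * δ ^ 2 * (D.qq x z * gam (-D.σ) (om * z 0))
      + (1 + D.ε) ^ 3 * (δ / 2) * ∑ i, ∑ j, cc a i j * (x i - x j) ^ 2
        * (D.Tb i j z * gam (-D.σ) (om * z 0))) := by
    refine integral_mono (integ_En h.Φ_cont hv.1 hv.2.1) (iadd (i1.const_mul _)
      ((integrable_finsetSum _ fun i _ => i3 i).const_mul _)) fun z => ?_
    have g0 : 0 ≤ gam (-D.σ) (om * z 0) := sq_nonneg _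
    have q0 : 0 ≤ D.qq x z := sq_nonneg _
    have a1 : max (Φ z) 0 ^ 2 * ‖fderiv ℝ (D.vv om x) z‖ ^ 2
        ≤ (1 + D.ε) ^ 2 * D.w δ a z * gam (-D.σ) (om * z 0) * D.qq x z := by
      have w0 := h.w_nonneg z
      by_cases hz : z ∈ tsupport (D.vv om x)
      swap
      · rw [fderiv_of_notMem_tsupport ℝ hz, norm_zero, zero_pow two_ne_zero, mul_zero]
        positivity
      have b1 := h.max_le (hv.2.2 hz)
      by_cases c : |om * z 0| < 9 / 5
      · exact mul_le_mul b1 (D.vv_deriv c) (sq_nonneg _) (by positivity)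
      · have b2 : gam (-D.σ) (om * z 0) = 0 := gam_zero (θ := 9 / 5) (by norm_num) (by norm_num)
          (by linarith [cos_95, D.σ_le]) (not_lt.mp c)
        rw [b2, mul_zero] at b1 ⊢
        rw [zero_mul]
        exact mul_nonpos_of_nonpos_of_nonneg b1 (sq_nonneg _)
    have a2 : D.tw a z * D.qq x z
        ≤ (1 + D.ε) * ∑ i, ∑ j, cc a i j * (x i - x j) ^ 2 * D.Tb i j z := by
      unfold tw
      rw [Finset.sum_mul, Finset.mul_sum]
      refine Finset.sum_le_sum fun i _ => ?_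
      rw [Finset.sum_mul, Finset.mul_sum]
      refine Finset.sum_le_sum fun j _ => ?_
      have c0 : 0 ≤ cc a i j := by linarith [(cc_bounds h.ha i j).1]
      have := mul_le_mul_of_nonneg_left (D.Tb_qq x i j z) c0
      rw [abs_of_nonneg c0]
      linarith
    have a3 := mul_le_mul_of_nonneg_left a2
      (by positivity : 0 ≤ (1 + D.ε) ^ 2 * (δ / 2) * gam (-D.σ) (om * z 0))
    have a4 : (1 + D.ε) ^ 2 * D.w δ a z * gam (-D.σ) (om * z 0) * D.qq x z
        = (1 + D.ε) ^ 2 * δ ^ 2 * (D.qq x z * gam (-D.σ) (om * z 0))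
          + (1 + D.ε) ^ 2 * (δ / 2) * gam (-D.σ) (om * z 0) * (D.tw a z * D.qq x z) := by
      unfold w
      linear_combination ((1 + D.ε) ^ 2 * gam (-D.σ) (om * z 0)) * D.isl_qq x z
    simp only [← mul_assoc, ← Finset.sum_mul] at a1 a3 a4 ⊢
    linarith
  rw [integral_add (i1.const_mul _) ((integrable_finsetSum _ fun i _ => i3 i).const_mul _),
    integral_const_mul, integral_const_mul, integral_finsetSum _ fun i _ => i3 i] at h1
  have e1 : ∀ i, ∫ z : E, ∑ j, cc a i j * (x i - x j) ^ 2 * (D.Tb i j z * gam (-D.σ) (om * z 0))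
      = (∑ j, cc a i j * (x i - x j) ^ 2) * ((∫ s, gam (-D.σ) s) / om) := by
    intro i
    rw [integral_finsetSum _ fun j _ => (i2 i j).const_mul _, Finset.sum_mul]
    refine Finset.sum_congr rfl fun j _ => ?_
    rw [integral_const_mul, D.Tb_int hom]
  have hq : Hor (D.qq x) := Hor_pr fun y => ‖fderiv ℝ (D.vx x) y‖ ^ 2
  simp only [e1, ← Finset.sum_mul, fubini_scaled hq _ hom] at h1
  refine le_trans h1 ?_
  have hI : 0 ≤ IH (D.qq x) := integral_nonneg fun _ => sq_nonneg _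
  have hT := (TT_bounds h.ha x).1
  have hΓ : (∫ s, gam (-D.σ) s) / om ≤ (1 + D.ε) * D.Z / om :=
    div_le_div_of_nonneg_right D.Γ_le hom.le
  have a5 := mul_le_mul_of_nonneg_left hΓ
    (by positivity : 0 ≤ (1 + D.ε) ^ 2 * δ ^ 2 * IH (D.qq x) + (1 + D.ε) ^ 3 * δ * TT a x)
  unfold TT at a5 ⊢
  refine le_trans (le_of_eq (by ring)) (le_trans a5 (le_of_eq (by ring)))

theorem upper (D : Pre N) : ∃ δ0 : ℝ, 0 < δ0 ∧ ∃ p0 : ℝ, 0 < p0 ∧
    ∀ (δ om : ℝ) (a : Par N) (Φ ρ g Pos : E → ℝ), δ ≤ δ0 → D.Adm δ om a Φ ρ g → Continuous Pos →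
      (∀ z ∈ Bx D.R om, Pos z * max (Φ z) 0 ≤ δ * p0) → ∀ x ∈ Fx N, ∃ v ∈ TF (Bx D.R om),
        Xv (D.al om) v = x ∧ En Φ v + Wt Φ Pos v - Wt Φ (fun z => g z * D.G (om * z 0)) v
          ≤ δ * D.Z / om * (Gf a x + 1 / 12) := by
  obtain ⟨C1, hC1⟩ := ((Fx_finite N).image fun x => IH (D.qq x)).bddAbove
  obtain ⟨C2, hC2⟩ := ((Fx_finite N).image fun x =>
    IH (fun z => D.vx x (pr z) ^ 2) * ∫ s, chi s ^ 2).bddAbove
  have hε := D.ε_pos
  have hε1 := D.ε_le
  have hZ := D.Zp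
  refine ⟨D.ε / (|C1| + 1), by positivity, D.ε * D.Z / (|C2| + 1), by positivity,
    fun δ om a Φ ρ g Pos hδ h hP hPp x hx => ⟨D.vv om x, D.vv_mem h.om_pos x, ?_, ?_⟩⟩
  · funext i
    have : ∫ z, D.al om i z * D.vv om x z = ∫ z, D.al om i z * x i := by
      congr 1
      funext z
      by_cases hz : z ∈ D.Ki om i
      · rw [D.vv_K hz]
      · simp [D.al_supp om i z hz]
    rw [Xv, this, integral_mul_const, D.al_int h.om_pos, one_mul]
  have hom := h.om_pos
  have hδ0 := h.δ_pos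
  have hv := D.vv_mem hom x
  have hs : 0 < δ * D.Z / om := by positivity
  have k1 := en_upper h x
  have k2 : δ * IH (D.qq x) ≤ D.ε := by
    have a1 : IH (D.qq x) ≤ |C1| := le_trans (hC1 ⟨x, hx, rfl⟩) (le_abs_self _)
    rw [le_div_iff₀ (by positivity)] at hδ
    nlinarith
  have k3 : Wt Φ Pos (D.vv om x) ≤ δ * D.Z / om * D.ε := by
    have a1 : Wt Φ Pos (D.vv om x)
        ≤ ∫ z, δ * (D.ε * D.Z / (|C2| + 1)) * D.vv om x z ^ 2 := by
      refine integral_mono (integ_Wt h.Φ_cont hP hv.1 hv.2.1)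
        ((integ_sq hv.1 hv.2.1).const_mul _) fun z => ?_
      by_cases hz : z ∈ tsupport (D.vv om x)
      · exact mul_le_mul_of_nonneg_right (hPp z (hv.2.2 hz)) (sq_nonneg _)
      · simp [image_eq_zero_of_notMem_tsupport hz]
    rw [integral_const_mul] at a1
    have a2 := fubini_scaled (Hor_pr fun y => D.vx x y ^ 2) (fun s => chi s ^ 2) hom
    simp only [← mul_pow] at a2
    have a3 : ∫ z, D.vv om x z ^ 2 ≤ (|C2| + 1) / om := by
      refine le_trans (le_of_eq a2) (div_le_div_of_nonneg_right ?_ hom.le)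
      have := le_trans (hC2 ⟨x, hx, rfl⟩) (le_abs_self _)
      linarith
    refine le_trans a1 (le_trans (mul_le_mul_of_nonneg_left a3 (by positivity)) (le_of_eq ?_))
    field_simp
  have k4 : (1 - D.ε) * (δ * D.Z / om) * MM a x
      ≤ Wt Φ (fun z => g z * D.G (om * z 0)) (D.vv om x) := by
    have hbi : ∀ i, Integrable fun z => D.be om i z * D.vv om x z ^ 2 := fun i =>
      integ_of (be_hcs (D := D) hom i) ((D.be_cont om i).mul (hv.1.continuous.pow 2))
        fun z hz => by simp [image_eq_zero_of_notMem_tsupport hz]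
    have a1 : ∀ i, x i ^ 2 = ∫ z, D.be om i z * D.vv om x z ^ 2 := by
      intro i
      have : ∫ z, D.be om i z * D.vv om x z ^ 2 = ∫ z, D.be om i z * x i ^ 2 := by
        congr 1
        funext z
        by_cases hz : z ∈ D.Ki om i
        · rw [D.vv_K hz]
        · simp [D.be_supp om i z hz]
      rw [this, integral_mul_const, D.be_int hom, one_mul]
    unfold MM
    simp only [a1, ← integral_const_mul]
    rw [← integral_finsetSum _ fun i _ => (hbi i).const_mul (mu a i), ← integral_const_mul]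
    refine integral_mono ((integrable_finsetSum _ fun i _ =>
        (hbi i).const_mul (mu a i)).const_mul _) (integ_Wt h.Φ_cont (h.g_cont.mul
        (D.G_smooth.continuous.comp (by fun_prop))) hv.1 hv.2.1) fun z => ?_
    by_cases hz : z ∈ tsupport (D.vv om x)
    swap
    · simp [image_eq_zero_of_notMem_tsupport hz]
    have := mul_le_mul_of_nonneg_right (h.neg_bounds (hv.2.2 hz)).1 (sq_nonneg (D.vv om x z))
    simp only [← mul_assoc, ← Finset.sum_mul] at this ⊢
    exact this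
  obtain ⟨t1, t2⟩ := TT_bounds h.ha x
  obtain ⟨m1, m2⟩ := MM_bounds h.ha x
  have k5 : (1 + D.ε) ^ 3 * (δ * IH (D.qq x)) + (1 + D.ε) ^ 4 * TT a x + D.ε
      - (1 - D.ε) * MM a x ≤ TT a x - MM a x + 1 / 12 := by
    have b1 : D.ε * MM a x ≤ 6 / 1000 := by
      have c1 := mul_le_mul_of_nonneg_left (Fx_sq hx) (by positivity : (0:ℝ) ≤ 3 / 2 * N)
      have c2 := mul_le_mul_of_nonneg_left (le_trans m2 c1) hε.le
      linarith [D.ε_small]
    have b2 : (1 + D.ε) ^ 2 ≤ 1 + 21 / 10 * D.ε := by nlinarith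
    have b3 : (1 + D.ε) ^ 4 ≤ 1 + 5 * D.ε := by
      have := pow_le_pow_left₀ (sq_nonneg _) b2 2
      nlinarith
    have b4 : (1 + D.ε) ^ 3 ≤ 2 := by nlinarith
    have b5 := mul_le_mul_of_nonneg_right b3 t1
    have b6 := mul_le_mul_of_nonneg_left t2 hε.le
    have b7 := mul_le_mul b4 k2 (mul_nonneg hδ0.le (integral_nonneg fun _ => sq_nonneg _))
      (by norm_num)
    linarith
  have k6 := mul_le_mul_of_nonneg_left k5 hs.le
  rw [Gf_eq]
  linarith

end Pre

end Pool.Agent.MP_92c74b_an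

end

section

set_option autoImplicit false
set_option maxSynthPendingDepth 3

namespace Pool.Agent.MP_92c74b_an

open Set MeasureTheory Metric
open scoped ContDiff

theorem exists_setup (N : ℕ) : Nonempty (Setup N) := by
  obtain ⟨D⟩ := exists_pre N
  obtain ⟨δ1, hδ1, hlow⟩ := D.lower
  obtain ⟨δ2, hδ2, p0, hp0, hup⟩ := D.upper
  set δ := min δ1 δ2 with hδdef
  have hδ : 0 < δ := lt_min hδ1 hδ2
  have hwc : Continuous fun p : Par N × E => √(D.w δ p.1 p.2) := (D.w_cont δ).sqrt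
  obtain ⟨ρ0, hρ0, happ, -⟩ := hwc.exists_contDiff_approx ⊤
    (ε := fun p => D.ε * √(D.w δ p.1 p.2)) (continuous_const.mul hwc) fun p =>
      mul_pos D.ε_pos (Real.sqrt_pos.mpr (lt_of_lt_of_le (by positivity) (D.w_ge hδ p.1 p.2)))
  let ρ : Par N → E → ℝ := fun a z => ρ0 (a, pr z)
  have hρ : JS ρ := hρ0.comp (contDiff_fst.prodMk (pr.contDiff.comp contDiff_snd))
  have hρH : ∀ a, Hor (ρ a) := fun a => Hor_pr fun y => ρ0 (a, y)
  have hρa : ∀ a z, |ρ a z - √(D.w δ a z)| ≤ D.ε * √(D.w δ a z) := by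
    intro a z
    have := (happ (a, pr z)).le
    rwa [Real.dist_eq, (D.w_hor δ a).eq_pr] at this
  have hρ1 : ∀ a z, δ / 2 ≤ ρ a z := fun a z => D.approx_ge hδ (hρa a z)
  have hρ2 : ∀ a z, ρ a z ≠ 0 := fun a z => (lt_of_lt_of_le (half_pos hδ) (hρ1 a z)).ne'
  let g : Par N → E → ℝ := fun a z =>
    (δ * D.Z / D.Y * ∑ i, mu a i * D.a0 (z - PP i)) / ρ a z
  have hg : JS g := by
    have h1 : ∀ i, ContDiff ℝ ∞ fun p : Par N × E => mu p.1 i := by
      intro i
      unfold mu cc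
      fun_prop
    exact (contDiff_const.mul (ContDiff.sum fun i _ => (h1 i).mul
      (D.a0_smooth.comp (contDiff_snd.sub contDiff_const)))).div hρ.cd fun p => hρ2 p.1 p.2
  have hgH : ∀ a, Hor (g a) := fun a z t => by
    simp only [g, hρH a z t, D.a0_hor.shift _ z t]
  obtain ⟨om, hom1, κ, hκ, Φ, Pos, hΦ, hPos, heq, hb, hconn⟩ := exists_Phi hρ hg hρH hgH
    (half_pos hδ) hρ1 D.R_pos D.σ_pos D.σ_le (mul_pos hδ hp0) D.f_smooth D.fG
  have hom : 0 < om := by linarith
  have adm : ∀ a ∈ Qc N, D.Adm δ om a (Φ a) (ρ a) (g a) := fun a ha =>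
    ⟨hδ, hom1, ha, (hΦ.sm a).continuous, (hg.sm a).continuous, hρa a,
      fun z hz => (hb a ha z hz).2.2, fun z => div_mul_cancel₀ _ (hρ2 a z)⟩
  refine ⟨⟨om ^ 2, Bx D.R om, ⋃ i, D.Ki om i, Φ, Pos, fun a z => g a z * D.G (om * z 0), D.al om,
    D.σ / 4, κ, δ * D.Z / om, sq_nonneg _, Bx_open _ _, Bx_bdd _ hom,
    isCompact_iUnion (D.Ki_compact hom), hΦ, hPos, ?_, heq, by linarith [D.σ_pos], hκ,
    div_pos (mul_pos hδ D.Zp) hom, fun a ha z hz => (hb a ha z hz).1,
    fun a ha z _ => mul_nonneg ((adm a ha).g_nonneg z) (D.G_nonneg _), ?_, ?_, D.al_cont om,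
    D.al_nonneg hom, fun i z hz => D.al_supp om i z fun h => hz (mem_iUnion.mpr ⟨i, h⟩), hconn,
    fun a ha v hv => hlow δ om a _ _ _ (min_le_left _ _) (adm a ha) v hv,
    fun a ha x hx => hup δ om a _ _ _ _ (min_le_right _ _) (adm a ha)
      (hPos.comp (Continuous.prodMk_right a)) (fun z hz => (hb a ha z hz).2.1) x hx⟩⟩
  · exact hg.cd.continuous.mul (((vert_smooth D.G_smooth om).comp contDiff_snd).continuous)
  · intro a _ z _ hz
    by_cases hG : D.G (om * z 0) = 0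
    · simp [hG]
    have : ∀ i : Fin N, D.a0 (z - PP i) = 0 := fun i => by
      by_contra h
      exact hz (mem_iUnion.mpr ⟨i, D.a0_supp' i z h, le_trans (D.G_supp _ hG).le D.θ1⟩)
    simp [g, this]
  · intro a ha z hz
    obtain ⟨i, hi⟩ := mem_iUnion.mp hz
    exact (adm a ha).Φ_K hi

end Pool.Agent.MP_92c74b_an

end
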