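import Pool.Agent.Mg.F92c74b.G08f4cc

section

set_option autoImplicit false
set_option maxSynthPendingDepth 3

namespace Pool.Agent.MP_92c74b_an

open Set MeasureTheory
open scoped ContDiff

/-- Functions that do not depend on the vertical coordinate. -/
def Hor (f : E → ℝ) : Prop := ∀ z (t : ℝ), f (z + t • ee 0) = f z

noncomputable def IH (A : E → ℝ) : ℝ :=
  ∫ y : Fin 3 → ℝ, A (WithLp.toLp 2 (Fin.insertNth (α := fun _ : Fin 4 => ℝ) 0 0 y))

lemma fubini {A : E → ℝ} (hA : Hor A) (B : ℝ → ℝ) :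
    ∫ z : E, A z * B (z 0) = IH A * ∫ t, B t := by
  rw [← (PiLp.volume_preserving_toLp (Fin 4)).integral_comp
    (MeasurableEquiv.toLp 2 _).measurableEmbedding]
  rw [← (volume_preserving_piFinSuccAbove (fun _ : Fin 4 => ℝ) 0).symm.integral_comp']
  have := integral_prod_mul (μ := (volume : Measure ℝ)) (ν := (volume : Measure (Fin 3 → ℝ))) B
    (fun y : Fin 3 → ℝ => A (WithLp.toLp 2 (Fin.insertNth (α := fun _ : Fin 4 => ℝ) 0 0 y)))
  rw [mul_comm] at this
  rw [IH, ← this]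
  refine integral_congr_ae (Filter.Eventually.of_forall fun p => ?_)
  have e : (WithLp.toLp 2 ((MeasurableEquiv.piFinSuccAbove (fun _ : Fin 4 => ℝ) 0).symm p) : E)
      = WithLp.toLp 2 (Fin.insertNth (α := fun _ : Fin 4 => ℝ) 0 0 p.2) + p.1 • ee 0 := by
    ext k
    refine Fin.cases ?_ (fun k => ?_) k
    · simp [ee, MeasurableEquiv.piFinSuccAbove]
    · simp [ee, MeasurableEquiv.piFinSuccAbove]
  simp only
  rw [e, hA]
  simp [mul_comm]

lemma fubini_scaled {A : E → ℝ} (hA : Hor A) (B : ℝ → ℝ) {om : ℝ} (hom : 0 < om) :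
    ∫ z : E, A z * B (om * z 0) = IH A * (∫ t, B t) / om := by
  rw [fubini hA (fun t => B (om * t)), Measure.integral_comp_mul_left,
    abs_of_pos (inv_pos.mpr hom), smul_eq_mul]
  ring

lemma integ01 {h : ℝ → E → ℝ} (hc : Continuous (Function.uncurry h)) {C : Set E}
    (hC : IsCompact C) (h0 : ∀ s ∈ Icc (0:ℝ) 1, ∀ z, z ∉ C → h s z = 0) :
    Integrable (Function.uncurry h) ((volume.restrict (uIoc (0:ℝ) 1)).prod volume) := by
  have h1 : IntegrableOn (Function.uncurry h) (Icc (0:ℝ) 1 ×ˢ C) (volume.prod volume) :=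
    hc.continuousOn.integrableOn_compact (isCompact_Icc.prod hC)
  have h2 : IntegrableOn (Function.uncurry h) (uIoc (0:ℝ) 1 ×ˢ univ) (volume.prod volume) := by
    refine h1.of_forall_sdiff_eq_zero (measurableSet_uIoc.prod MeasurableSet.univ) ?_
    rintro ⟨s, z⟩ ⟨⟨hs, _⟩, hn⟩
    rw [uIoc_of_le zero_le_one] at hs
    have hs' : s ∈ Icc (0:ℝ) 1 := Ioc_subset_Icc_self hs
    exact h0 s hs' z fun hz => hn ⟨hs', hz⟩
  rw [IntegrableOn, ← Measure.prod_restrict, Measure.restrict_univ] at h2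
  exact h2

lemma swap01 {h : ℝ → E → ℝ} (hc : Continuous (Function.uncurry h)) {C : Set E}
    (hC : IsCompact C) (h0 : ∀ s ∈ Icc (0:ℝ) 1, ∀ z, z ∉ C → h s z = 0) :
    ∫ s in (0:ℝ)..1, ∫ z, h s z = ∫ z, ∫ s in (0:ℝ)..1, h s z :=
  intervalIntegral_integral_swap (integ01 hc hC h0)

lemma cont01 {h : ℝ → E → ℝ} (hc : Continuous (Function.uncurry h)) :
    Continuous fun z => ∫ s in (0:ℝ)..1, h s z :=
  intervalIntegral.continuous_parametric_intervalIntegral_of_continuous'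
    (f := fun z s => h s z) (hc.comp continuous_swap) 0 1

lemma integ01' {h : ℝ → E → ℝ} (hc : Continuous (Function.uncurry h)) {C : Set E}
    (hC : IsCompact C) (h0 : ∀ s ∈ Icc (0:ℝ) 1, ∀ z, z ∉ C → h s z = 0) :
    Integrable fun z => ∫ s in (0:ℝ)..1, h s z := by
  refine (cont01 hc).integrable_of_hasCompactSupport (HasCompactSupport.intro hC fun z hz => ?_)
  rw [intervalIntegral.integral_congr (g := fun _ => (0:ℝ))]
  · simp
  · intro s hs
    rw [uIcc_of_le zero_le_one] at hs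
    exact h0 s hs z hz

lemma iinteg01 {h : ℝ → E → ℝ} (hc : Continuous (Function.uncurry h)) {C : Set E}
    (hC : IsCompact C) (h0 : ∀ s ∈ Icc (0:ℝ) 1, ∀ z, z ∉ C → h s z = 0) :
    IntervalIntegrable (fun s => ∫ z, h s z) volume 0 1 :=
  intervalIntegrable_iff.mpr (integ01 hc hC h0).integral_prod_left

lemma seg_sq {v : E → ℝ} (hv : ContDiff ℝ ∞ v) (z Δ : E) :
    (v (z + Δ) - v z) ^ 2 ≤ ∫ s in (0:ℝ)..1, ‖Δ‖ ^ 2 * ‖fderiv ℝ v (z + s • Δ)‖ ^ 2 := by
  have hD := hv.continuous_fderiv inf_ne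
  have hg : Continuous fun s : ℝ => fderiv ℝ v (z + s • Δ) Δ := by fun_prop
  have h1 : ∫ s in (0:ℝ)..1, fderiv ℝ v (z + s • Δ) Δ = v (z + Δ) - v z := by
    have := intervalIntegral.integral_eq_sub_of_hasDerivAt (a := 0) (b := 1)
      (f := fun s : ℝ => v (z + s • Δ)) (f' := fun s : ℝ => fderiv ℝ v (z + s • Δ) Δ)
      (fun s _ => by
        have h2 : HasDerivAt (fun s : ℝ => z + s • Δ) Δ s := by
          simpa using ((hasDerivAt_id s).smul_const Δ).const_add z
        exact (smooth_diff hv _).hasFDerivAt.comp_hasDerivAt s h2)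
      (hg.intervalIntegrable 0 1)
    simpa using this
  set m := v (z + Δ) - v z with hm
  have h3 : ∫ s in (0:ℝ)..1, (2 * m * fderiv ℝ v (z + s • Δ) Δ - m ^ 2)
      ≤ ∫ s in (0:ℝ)..1, ‖Δ‖ ^ 2 * ‖fderiv ℝ v (z + s • Δ)‖ ^ 2 := by
    refine intervalIntegral.integral_mono_on zero_le_one
      (Continuous.intervalIntegrable (by fun_prop) 0 1)
      (Continuous.intervalIntegrable (by fun_prop) 0 1) fun s _ => ?_
    have a1 := (fderiv ℝ v (z + s • Δ)).le_opNorm Δ
    have a2 : fderiv ℝ v (z + s • Δ) Δ ^ 2 ≤ (‖fderiv ℝ v (z + s • Δ)‖ * ‖Δ‖) ^ 2 := by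
      rw [← sq_abs]
      exact pow_le_pow_left₀ (abs_nonneg _) a1 2
    nlinarith [sq_nonneg (fderiv ℝ v (z + s • Δ) Δ - m)]
  rw [intervalIntegral.integral_sub (Continuous.intervalIntegrable (by fun_prop) 0 1)
    (by simp), intervalIntegral.integral_const_mul, h1] at h3
  simp at h3 ⊢
  nlinarith

lemma tube {b v : E → ℝ} (hb : Continuous b) (hbc : HasCompactSupport b) (hb0 : ∀ z, 0 ≤ b z)
    (hv : ContDiff ℝ ∞ v) (Δ : E) :
    ∫ z, b z * (v (z + Δ) - v z) ^ 2
      ≤ ∫ s in (0:ℝ)..1, ∫ z, b z * (‖Δ‖ ^ 2 * ‖fderiv ℝ v (z + s • Δ)‖ ^ 2) := by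
  have hD := hv.continuous_fderiv inf_ne
  have hvc := hv.continuous
  have hc : Continuous (Function.uncurry
      fun (s : ℝ) (z : E) => b z * (‖Δ‖ ^ 2 * ‖fderiv ℝ v (z + s • Δ)‖ ^ 2)) := by
    unfold Function.uncurry
    fun_prop
  have h0 : ∀ s ∈ Icc (0:ℝ) 1, ∀ z, z ∉ tsupport b →
      b z * (‖Δ‖ ^ 2 * ‖fderiv ℝ v (z + s • Δ)‖ ^ 2) = 0 := fun s _ z hz => by
    simp [image_eq_zero_of_notMem_tsupport hz]
  rw [swap01 hc hbc h0]
  refine integral_mono (integ_of hbc (by fun_prop) fun z hz => by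
    simp [image_eq_zero_of_notMem_tsupport hz]) (integ01' hc hbc h0) fun z => ?_
  simp only
  rw [intervalIntegral.integral_const_mul]
  exact mul_le_mul_of_nonneg_left (seg_sq hv z Δ) (hb0 z)

lemma seg_compact {C : Set E} (hC : IsCompact C) (Δ : E) :
    IsCompact ((fun p : E × ℝ => p.1 + p.2 • Δ) '' (C ×ˢ Icc (0:ℝ) 1)) :=
  (hC.prod isCompact_Icc).image (by fun_prop)

lemma seg_weight {b F : E → ℝ} (hb : Continuous b) (hbc : HasCompactSupport b)
    (hF : Continuous F) (Δ : E) :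
    ∫ z, (∫ s in (0:ℝ)..1, b (z - s • Δ)) * F z = ∫ s in (0:ℝ)..1, ∫ z, b z * F (z + s • Δ) := by
  have hc : Continuous (Function.uncurry fun (s : ℝ) (z : E) => b (z - s • Δ) * F z) := by
    unfold Function.uncurry
    fun_prop
  have h0 : ∀ s ∈ Icc (0:ℝ) 1, ∀ z,
      z ∉ (fun p : E × ℝ => p.1 + p.2 • Δ) '' (tsupport b ×ˢ Icc (0:ℝ) 1) →
      b (z - s • Δ) * F z = 0 := by
    intro s hs z hz
    have : z - s • Δ ∉ tsupport b := fun h => hz ⟨(z - s • Δ, s), ⟨h, hs⟩, by simp⟩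
    simp [image_eq_zero_of_notMem_tsupport this]
  have h1 := swap01 hc (seg_compact hbc Δ) h0
  simp only [intervalIntegral.integral_mul_const] at h1
  rw [← h1]
  congr 1
  funext s
  rw [← integral_add_right_eq_self _ (s • Δ)]
  simp

/-- The conductance lower bound for a tube. -/
theorem tube_bound {b v : E → ℝ} (hb : Continuous b) (hbc : HasCompactSupport b)
    (hb0 : ∀ z, 0 ≤ b z) (hb1 : ∫ z, b z = 1) (hv : ContDiff ℝ ∞ v) (Δ : E) :
    ((∫ z, b (z - Δ) * v z) - ∫ z, b z * v z) ^ 2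
      ≤ ∫ z, (∫ s in (0:ℝ)..1, b (z - s • Δ)) * (‖Δ‖ ^ 2 * ‖fderiv ℝ v z‖ ^ 2) := by
  have hD := hv.continuous_fderiv inf_ne
  have hvc := hv.continuous
  have hz : ∀ (F : E → ℝ) z, z ∉ tsupport b → b z * F z = 0 := fun F z hz => by
    simp [image_eq_zero_of_notMem_tsupport hz]
  rw [seg_weight hb hbc (F := fun z => ‖Δ‖ ^ 2 * ‖fderiv ℝ v z‖ ^ 2) (by fun_prop) Δ]
  refine le_trans ?_ (tube hb hbc hb0 hv Δ)
  have h1 : ∫ z, b (z - Δ) * v z = ∫ z, b z * v (z + Δ) := by
    rw [← integral_add_right_eq_self _ Δ]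
    simp
  rw [h1, ← integral_sub (integ_of hbc (by fun_prop) (hz fun z => v (z + Δ)))
    (integ_of hbc (by fun_prop) (hz v))]
  have h2 := csw (h := fun z => v (z + Δ) - v z) hb0 (hb.integrable_of_hasCompactSupport hbc)
    (integ_of hbc (by fun_prop) (hz fun z => v (z + Δ) - v z))
    (integ_of hbc (by fun_prop) (hz fun z => (v (z + Δ) - v z) ^ 2))
  rw [hb1, one_mul] at h2
  simpa [mul_sub] using h2

/-- The Poincare type inequality. -/
theorem variance {α β η W v : E → ℝ} {K : Set E} {Ma Mb d c2 : ℝ} (hK : IsCompact K)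
    (hKc : Convex ℝ K) (hα : Continuous α) (hβ : Continuous β) (hη : Continuous η)
    (hηc : HasCompactSupport η) (hW : Continuous W) (hα0 : ∀ z, 0 ≤ α z) (hβ0 : ∀ z, 0 ≤ β z)
    (hη0 : ∀ z, 0 ≤ η z) (hW0 : ∀ z, 0 ≤ W z) (hαK : ∀ z, z ∉ K → α z = 0)
    (hβK : ∀ z, z ∉ K → β z = 0) (hαM : ∀ z, α z ≤ Ma) (hβM : ∀ z, β z ≤ Mb)
    (hα1 : ∫ z, α z = 1) (hc2 : 0 < c2) (hWK : ∀ z ∈ K, c2 ≤ W z)
    (hKK : ∀ z h, z ∈ K → z + h ∈ K → 1 ≤ η h ∧ ‖h‖ ≤ d)
    (hv : ContDiff ℝ ∞ v) (hvc : HasCompactSupport v) :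
    ∫ z, β z * (v z - ∫ y, α y * v y) ^ 2
      ≤ Mb * Ma * d ^ 2 / c2 * (∫ h, η h) * ∫ z, W z * ‖fderiv ℝ v z‖ ^ 2 := by
  have hD := hv.continuous_fderiv inf_ne
  have hvc' := hv.continuous
  have hαc : HasCompactSupport α := HasCompactSupport.intro hK hαK
  have hβc : HasCompactSupport β := HasCompactSupport.intro hK hβK
  have hMa : 0 ≤ Ma := le_trans (hα0 0) (hαM 0)
  have hMb : 0 ≤ Mb := le_trans (hβ0 0) (hβM 0)
  have hzα : ∀ (F : E → ℝ) z, z ∉ tsupport α → α z * F z = 0 := fun F z hz => by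
    simp [image_eq_zero_of_notMem_tsupport hz]
  set En := ∫ z, W z * ‖fderiv ℝ v z‖ ^ 2 with hEn
  have hEn0 : 0 ≤ En := integral_nonneg fun z => mul_nonneg (hW0 z) (sq_nonneg _)
  have hEi : Integrable fun z => W z * ‖fderiv ℝ v z‖ ^ 2 :=
    integ_of hvc (by fun_prop) fun z hz => by simp [fderiv_of_notMem_tsupport ℝ hz]
  let H : E → E → ℝ := fun z h => β z * α (z + h) * (v (z + h) - v z) ^ 2
  have hHc : Continuous (Function.uncurry H) := by
    unfold Function.uncurry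
    fun_prop
  have hHi : Integrable (Function.uncurry H) (volume.prod volume) := by
    refine hHc.integrable_of_hasCompactSupport (HasCompactSupport.intro
      (hK.prod ((hK.prod hK).image (f := fun p : E × E => p.1 - p.2) (by fun_prop))) ?_)
    rintro ⟨z, h⟩ hn
    by_cases hz : z ∈ K
    · have : z + h ∉ K := fun h2 => hn ⟨hz, (z + h, z), ⟨h2, hz⟩, by simp⟩
      simp [H, hαK _ this]
    · simp [H, hβK _ hz]
  have step1 : ∫ z, β z * (v z - ∫ y, α y * v y) ^ 2 ≤ ∫ z, ∫ h, H z h := by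
    refine integral_mono (integ_of hβc (by fun_prop) fun z hz => by
      simp [image_eq_zero_of_notMem_tsupport hz]) hHi.integral_prod_left fun z => ?_
    have a1 := csw (h := fun y => v y - v z) hα0 (hα.integrable_of_hasCompactSupport hαc)
      (integ_of hαc (by fun_prop) (hzα fun y => v y - v z))
      (integ_of hαc (by fun_prop) (hzα fun y => (v y - v z) ^ 2))
    rw [hα1, one_mul] at a1
    have a2 : ∫ y, α y * (v y - v z) = (∫ y, α y * v y) - v z := by
      simp only [mul_sub]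
      rw [integral_sub (integ_of hαc (by fun_prop) (hzα v))
        ((hα.integrable_of_hasCompactSupport hαc).mul_const _), integral_mul_const, hα1, one_mul]
    have a3 : ∫ h, H z h = β z * ∫ y, α y * (v y - v z) ^ 2 := by
      rw [← integral_add_left_eq_self (fun y => α y * (v y - v z) ^ 2) z, ← integral_const_mul]
      simp only [H, mul_assoc]
    simp only
    rw [a3]
    refine mul_le_mul_of_nonneg_left ?_ (hβ0 z)
    rw [a2] at a1
    nlinarith
  rw [integral_integral_swap hHi] at step1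
  refine le_trans step1 ?_
  have step2 : ∀ h, ∫ z, H z h ≤ Mb * Ma * d ^ 2 / c2 * En * η h := by
    intro h
    have hbc : HasCompactSupport fun z => β z * α (z + h) := hβc.mul_right
    have hc : Continuous (Function.uncurry fun (s : ℝ) (z : E) =>
        β z * α (z + h) * (‖h‖ ^ 2 * ‖fderiv ℝ v (z + s • h)‖ ^ 2)) := by
      unfold Function.uncurry
      fun_prop
    have b1 := tube (b := fun z => β z * α (z + h)) (by fun_prop) hbc
      (fun z => mul_nonneg (hβ0 z) (hα0 _)) hv h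
    refine le_trans b1 ?_
    have b2 := intervalIntegral.integral_mono_on (μ := volume) zero_le_one
      (iinteg01 hc hK fun s _ z hz => by simp [hβK z hz])
      (g := fun _ => Mb * Ma * d ^ 2 / c2 * En * η h) (by simp) (fun s hs => ?_)
    · simpa using b2
    have b3 : ∫ z, W (z + s • h) * ‖fderiv ℝ v (z + s • h)‖ ^ 2 = En :=
      integral_add_right_eq_self (fun z => W z * ‖fderiv ℝ v z‖ ^ 2) (s • h)
    rw [mul_assoc, mul_comm En, ← mul_assoc, ← b3, ← integral_const_mul]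
    refine integral_mono (integ_of hβc (by fun_prop) fun z hz => by
      simp [image_eq_zero_of_notMem_tsupport hz])
      ((hEi.comp_add_right (s • h)).const_mul _) fun z => ?_
    have hR : 0 ≤ W (z + s • h) * ‖fderiv ℝ v (z + s • h)‖ ^ 2 :=
      mul_nonneg (hW0 _) (sq_nonneg _)
    have hη' := hη0 h
    simp only
    by_cases hz : z ∈ K
    swap
    · rw [hβK z hz]
      simp only [zero_mul]
      positivity
    by_cases hz2 : z + h ∈ K
    swap
    · rw [hαK _ hz2]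
      simp only [mul_zero, zero_mul]
      positivity
    obtain ⟨k1, k2⟩ := hKK z h hz hz2
    have k3 : z + s • h ∈ K := by
      have := hKc.add_smul_mem hz hz2 hs
      exact this
    have k4 := hWK _ k3
    have k5 : ‖h‖ ^ 2 ≤ d ^ 2 := pow_le_pow_left₀ (norm_nonneg _) k2 2
    have k6 : β z * α (z + h) ≤ Mb * Ma := mul_le_mul (hβM z) (hαM _) (hα0 _) hMb
    have k7 : ‖fderiv ℝ v (z + s • h)‖ ^ 2
        ≤ 1 / c2 * η h * (W (z + s • h) * ‖fderiv ℝ v (z + s • h)‖ ^ 2) := by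
      have : 1 ≤ 1 / c2 * η h * W (z + s • h) := by
        rw [div_mul_eq_mul_div, div_mul_eq_mul_div, le_div_iff₀ hc2]
        nlinarith
      nlinarith [sq_nonneg ‖fderiv ℝ v (z + s • h)‖]
    calc β z * α (z + h) * (‖h‖ ^ 2 * ‖fderiv ℝ v (z + s • h)‖ ^ 2)
        ≤ Mb * Ma * (d ^ 2 * (1 / c2 * η h * (W (z + s • h) * ‖fderiv ℝ v (z + s • h)‖ ^ 2))) :=
          mul_le_mul k6 (mul_le_mul k5 k7 (sq_nonneg _) (sq_nonneg _)) (by positivity)
            (by positivity)
      _ = _ := by ring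
  refine le_trans (integral_mono hHi.integral_prod_right
    ((hη.integrable_of_hasCompactSupport hηc).const_mul _) step2) ?_
  rw [integral_const_mul]
  exact le_of_eq (by ring)

end Pool.Agent.MP_92c74b_an

end

section

set_option autoImplicit false
set_option maxSynthPendingDepth 3

namespace Pool.Agent.MP_92c74b_an

open Set MeasureTheory Metric
open scoped ContDiff

/-- Horizontal projection. -/
noncomputable def pr : E →L[ℝ] E :=
  ContinuousLinearMap.id ℝ E - (EuclideanSpace.proj (0 : Fin 4) : E →L[ℝ] ℝ).smulRight (ee 0)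

lemma pr_apply (z : E) : pr z = z - z 0 • ee 0 := by simp [pr]

lemma ee_zero : ee 0 0 = 1 := by simp [ee]

lemma norm_ee (k : Fin 4) : ‖ee k‖ = 1 := by simp [ee]

lemma pr_zero (z : E) : pr z 0 = 0 := by simp [pr_apply, ee]

lemma pr_of {z : E} (h : z 0 = 0) : pr z = z := by simp [pr_apply, h]

lemma pr_pr (z : E) : pr (pr z) = pr z := pr_of (pr_zero z)

lemma pr_ee : pr (ee 0) = 0 := by simp [pr_apply, ee_zero]

lemma pr_add_vert (z : E) (t : ℝ) : pr (z + t • ee 0) = pr z := by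
  rw [map_add, map_smul, pr_ee, smul_zero, add_zero]

lemma norm_pr_le (z : E) : ‖pr z‖ ≤ ‖z‖ := by
  have h : ‖pr z‖ ^ 2 ≤ ‖z‖ ^ 2 := by
    rw [EuclideanSpace.norm_sq_eq, EuclideanSpace.norm_sq_eq, Fin.sum_univ_four,
      Fin.sum_univ_four]
    simp [pr_apply, ee, sq_nonneg, add_assoc]
  exact (pow_le_pow_iff_left₀ (norm_nonneg _) (norm_nonneg _) two_ne_zero).mp h

lemma norm_le_pr (z : E) : ‖z‖ ≤ ‖pr z‖ + |z 0| := by
  have h : z = pr z + z 0 • ee 0 := by simp [pr_apply]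
  conv_lhs => rw [h]
  refine le_trans (norm_add_le _ _) ?_
  rw [norm_smul, norm_ee, mul_one, Real.norm_eq_abs]

lemma Hor_pr (A : E → ℝ) : Hor fun z => A (pr z) := fun z t => by
  simp only [pr_add_vert]

lemma Hor.eq_pr {A : E → ℝ} (hA : Hor A) (z : E) : A (pr z) = A z := by
  rw [pr_apply, sub_eq_add_neg, ← neg_smul, hA]

lemma Hor.shift {A : E → ℝ} (hA : Hor A) (P : E) : Hor fun z => A (z - P) := fun z t => by
  simp only
  rw [show z + t • ee 0 - P = z - P + t • ee 0 by abel, hA]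

lemma Hor.D {A : E → ℝ} (hA : Hor A) (k : Fin 4) : Hor (D k A) := fun z t => by
  unfold MP_92c74b_an.D
  rw [← fderiv_comp_add_right]
  congr 2
  funext y
  exact hA y t

lemma Hor.Lap {A : E → ℝ} (hA : Hor A) : Hor (Lap A) := fun z t => by
  unfold MP_92c74b_an.Lap
  exact Finset.sum_congr rfl fun k _ => (hA.D k).D k z t

lemma Hor.D0 {A : E → ℝ} (hA : Hor A) (hs : ContDiff ℝ ∞ A) (z : E) :
    MP_92c74b_an.D 0 A z = 0 := by
  have h2 : HasDerivAt (fun s : ℝ => z + s • ee 0) (ee 0) 0 := by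
    simpa using ((hasDerivAt_id (0:ℝ)).smul_const (ee 0)).const_add z
  have h3 := (smooth_diff hs (z + (0:ℝ) • ee 0)).hasFDerivAt.comp_hasDerivAt (0:ℝ) h2
  have h4 : (A ∘ fun s : ℝ => z + s • ee 0) = fun _ => A z := funext fun s => hA z s
  rw [h4] at h3
  have h5 := h3.unique (hasDerivAt_const _ _)
  simpa [MP_92c74b_an.D] using h5

lemma coord_smooth (om : ℝ) : ContDiff ℝ ∞ fun z : E => om * z 0 :=
  contDiff_const.mul (EuclideanSpace.proj (0 : Fin 4) : E →L[ℝ] ℝ).contDiff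

lemma D_coord (om : ℝ) (k : Fin 4) : D k (fun z : E => om * z 0) = fun _ => om * ee k 0 := by
  funext z
  have h := ((EuclideanSpace.proj (0 : Fin 4) : E →L[ℝ] ℝ).hasFDerivAt (x := z)).const_mul om
  have h2 : fderiv ℝ (fun z : E => om * z 0) z = _ := h.fderiv
  unfold D
  rw [h2]
  simp

lemma vert_smooth {f : ℝ → ℝ} (hf : ContDiff ℝ ∞ f) (om : ℝ) :
    ContDiff ℝ ∞ fun z : E => f (om * z 0) := hf.comp (coord_smooth om)

lemma D_vert {f : ℝ → ℝ} (hf : ContDiff ℝ ∞ f) (om : ℝ) (k : Fin 4) :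
    D k (fun z : E => f (om * z 0)) = fun z => (om * ee k 0) * deriv f (om * z 0) := by
  rw [D_comp k hf (coord_smooth om), D_coord]
  funext z
  ring

lemma Lap_prod {A : E → ℝ} (hA : Hor A) (hs : ContDiff ℝ ∞ A) {f : ℝ → ℝ} (hf : ContDiff ℝ ∞ f)
    (om : ℝ) (z : E) : Lap (fun y => A y * f (om * y 0)) z
      = Lap A z * f (om * z 0) + om ^ 2 * A z * deriv (deriv f) (om * z 0) := by
  have h1 := vert_smooth hf om
  have h2 := vert_smooth (deriv_smooth hf) om
  have key : ∀ k, D k (D k fun y => A y * f (om * y 0)) z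
      = D k (D k A) z * f (om * z 0) + 2 * (om * ee k 0) * D k A z * deriv f (om * z 0)
        + (om * ee k 0) ^ 2 * A z * deriv (deriv f) (om * z 0) := by
    intro k
    rw [D_mul k hs h1, D_vert hf, D_add k (hs.mul (contDiff_const.mul h2)) ((D_smooth k hs).mul h1),
      D_mul k hs (contDiff_const.mul h2), D_mul k (D_smooth k hs) h1, D_const_mul k _ h2,
      D_vert hf, D_vert (deriv_smooth hf)]
    ring
  unfold Lap
  simp only [key, Fin.sum_univ_four, hA.D0 hs z]
  simp [ee]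
  ring

/-- Joint smoothness. -/
def JS {N : ℕ} (F : Par N → E → ℝ) : Prop := ContDiff ℝ ∞ (Function.uncurry F)

lemma JS.cd {N : ℕ} {F : Par N → E → ℝ} (h : JS F) :
    ContDiff ℝ ∞ fun p : Par N × E => F p.1 p.2 := h

lemma JS.sm {N : ℕ} {F : Par N → E → ℝ} (h : JS F) (a : Par N) : ContDiff ℝ ∞ (F a) :=
  h.cd.comp (f := fun z : E => (a, z)) (contDiff_const.prodMk contDiff_id)

lemma JS.D {N : ℕ} {F : Par N → E → ℝ} (h : JS F) (k : Fin 4) : JS fun a => D k (F a) := by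
  have e : Function.uncurry (fun a => MP_92c74b_an.D k (F a))
      = fun p => fderiv ℝ (Function.uncurry F) p (0, ee k) := by
    funext p
    have h4 := (ContDiff.differentiable h inf_ne (p.1, p.2)).hasFDerivAt
    have h5 : fderiv ℝ (F p.1) p.2 = _ := (h4.comp p.2 (hasFDerivAt_prodMk_right p.1 p.2)).fderiv
    simp only [Function.uncurry, MP_92c74b_an.D]
    rw [h5]
    rfl
  unfold JS
  rw [e]
  exact (ContDiff.fderiv_right h (m := ∞) le_rfl).clm_apply contDiff_const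

lemma JS.Lap {N : ℕ} {F : Par N → E → ℝ} (h : JS F) : JS fun a => Lap (F a) := by
  have := ContDiff.sum (s := Finset.univ) fun k _ => ((h.D k).D k).cd
  exact this

lemma JS.bound {N : ℕ} {F : Par N → E → ℝ} (h : Continuous (Function.uncurry F))
    (hH : ∀ a, Hor (F a)) (R : ℝ) :
    ∃ M, 0 ≤ M ∧ ∀ a ∈ Qc N, ∀ z, ‖pr z‖ ≤ R → |F a z| ≤ M := by
  obtain ⟨M, hM⟩ := ((Qc_compact N).prod (isCompact_closedBall (0:E) R)).exists_bound_of_continuousOn
    h.continuousOn
  refine ⟨max M 0, le_max_right _ _, fun a ha z hz => le_trans ?_ (le_max_left _ _)⟩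
  rw [← (hH a).eq_pr z]
  exact hM (a, pr z) ⟨ha, mem_closedBall_zero_iff.mpr hz⟩

def slab (P : E) (r t om : ℝ) : Set E := {z | ‖pr z - P‖ ≤ r ∧ |om * z 0| ≤ t}

lemma slab_closed (P : E) (r t om : ℝ) : IsClosed (slab P r t om) := by
  have h1 : IsClosed {z : E | ‖pr z - P‖ ≤ r} := isClosed_le (by fun_prop) continuous_const
  have h2 : IsClosed {z : E | |om * z 0| ≤ t} := isClosed_le (by fun_prop) continuous_const
  exact h1.inter h2

lemma slab_compact (P : E) (r t : ℝ) {om : ℝ} (hom : 0 < om) : IsCompact (slab P r t om) := by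
  refine (isCompact_closedBall (0:E) (‖P‖ + r + t / om)).of_isClosed_subset
    (slab_closed P r t om) fun z hz => ?_
  rw [mem_closedBall_zero_iff]
  have h1 := norm_le_pr z
  have h2 := norm_le_insert' (pr z) P
  have h3 : |z 0| ≤ t / om := by
    rw [le_div_iff₀ hom, mul_comm]
    have := hz.2
    rwa [abs_mul, abs_of_pos hom] at this
  linarith [hz.1]

lemma slab_convex (P : E) (r t om : ℝ) : Convex ℝ (slab P r t om) := by
  have h1 : Convex ℝ {z : E | ‖pr z - P‖ ≤ r} := by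
    have e : {z : E | ‖pr z - P‖ ≤ r} = pr.toLinearMap ⁻¹' closedBall P r := by
      ext z
      simp [dist_eq_norm]
    rw [e]
    exact (convex_closedBall P r).linear_preimage _
  have h2 : Convex ℝ {z : E | |om * z 0| ≤ t} := by
    have e : {z : E | |om * z 0| ≤ t}
        = (om • (EuclideanSpace.proj (0 : Fin 4) : E →L[ℝ] ℝ)).toLinearMap ⁻¹' Icc (-t) t := by
      ext z
      simp [abs_le, -abs_mul]
    rw [e]
    exact (convex_Icc (-t) t).linear_preimage _
  exact h1.inter h2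

def Bx (R om : ℝ) : Set E := {z | ‖pr z‖ < R ∧ |om * z 0| < 2}

lemma Bx_open (R om : ℝ) : IsOpen (Bx R om) := by
  have h1 : IsOpen {z : E | ‖pr z‖ < R} := isOpen_lt (by fun_prop) continuous_const
  have h2 : IsOpen {z : E | |om * z 0| < 2} := isOpen_lt (by fun_prop) continuous_const
  exact h1.inter h2

lemma Bx_bdd (R : ℝ) {om : ℝ} (hom : 0 < om) : Bornology.IsBounded (Bx R om) :=
  (slab_compact 0 R 2 hom).isBounded.subset fun z hz => ⟨by simpa using hz.1.le, hz.2.le⟩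

end Pool.Agent.MP_92c74b_an

end
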