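import Pool.Agent.Mg.F92c74b.Ge855eb

set_option autoImplicit false
set_option maxSynthPendingDepth 3

namespace Pool.Agent.MP_92c74b_an

open Set MeasureTheory Metric
open scoped ContDiff

lemma star1d {φ φ' : ℝ → ℝ} (h : ∀ s, HasDerivAt φ (φ' s) s) (h1 : ∀ s, |s| ≤ 1 → 0 < φ s)
    (h2 : ∀ s ∈ Icc (1:ℝ) 2, φ' s ≤ 0) (h3 : ∀ s ∈ Icc (-2:ℝ) (-1), 0 ≤ φ' s) {s t : ℝ}
    (hs : |s| < 2) (hφ : 0 < φ s) (ht : t ∈ Icc (0:ℝ) 1) : 0 < φ (t * s) := by
  have hd : Differentiable ℝ φ := fun s => (h s).differentiableAt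
  have ha : AntitoneOn φ (Icc 1 2) := antitoneOn_of_deriv_nonpos (convex_Icc 1 2)
    hd.continuous.continuousOn hd.differentiableOn fun x hx => by
      rw [(h x).deriv]; exact h2 x (interior_subset hx)
  have hm : MonotoneOn φ (Icc (-2) (-1)) := monotoneOn_of_deriv_nonneg (convex_Icc _ _)
    hd.continuous.continuousOn hd.differentiableOn fun x hx => by
      rw [(h x).deriv]; exact h3 x (interior_subset hx)
  by_cases c : |t * s| ≤ 1
  · exact h1 _ c
  have hs' := abs_lt.mp hs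
  rcases lt_abs.mp (not_le.mp c) with c1 | c1
  · have hs0 : 0 ≤ s := by
      by_contra hn
      nlinarith [ht.1]
    have : t * s ≤ s := by nlinarith [ht.2]
    exact lt_of_lt_of_le hφ (ha ⟨c1.le, by linarith⟩ ⟨by linarith, by linarith⟩ this)
  · have hs0 : s ≤ 0 := by
      by_contra hn
      nlinarith [ht.1]
    have : s ≤ t * s := by nlinarith [ht.2]
    exact lt_of_lt_of_le hφ (hm ⟨by linarith, by linarith⟩ ⟨by linarith, by linarith⟩ this)

lemma cos_ge_half {s : ℝ} (hs : |s| ≤ 1) : 1 / 2 ≤ Real.cos s := by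
  have h := Real.one_sub_sq_div_two_le_cos (x := s)
  have : s ^ 2 ≤ 1 := by
    rw [← sq_abs]
    nlinarith [abs_nonneg s]
  linarith

lemma sin_ge_half {s : ℝ} (hs : s ∈ Icc (1:ℝ) 2) : 1 / 2 ≤ Real.sin s := by
  rw [← Real.cos_pi_div_two_sub]
  refine cos_ge_half (abs_le.mpr ⟨?_, ?_⟩) <;> linarith [hs.1, hs.2, Real.pi_gt_three, Real.pi_lt_four]

noncomputable def f1 (s : ℝ) : ℝ := -(s * Real.sin s) / 2

lemma f1_smooth : ContDiff ℝ ∞ f1 := ((contDiff_id.mul Real.contDiff_sin).neg).div_const 2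

lemma f1_eq (s : ℝ) : deriv (deriv f1) s + f1 s = -Real.cos s := by
  have h1 : deriv f1 = fun s => -(Real.sin s + s * Real.cos s) / 2 := by
    funext s
    have := (((hasDerivAt_id s).mul (Real.hasDerivAt_sin s)).neg).div_const 2
    have h0 : deriv f1 s = _ := this.deriv
    rw [h0]
    simp
  have h2 := (((Real.hasDerivAt_sin s).add ((hasDerivAt_id s).mul
    (Real.hasDerivAt_cos s))).neg).div_const 2
  have h3 : deriv (fun s => -(Real.sin s + s * Real.cos s) / 2) s = _ := h2.deriv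
  rw [h1, h3, f1]
  simp only [id]
  ring

lemma bound2 {f : ℝ → ℝ} (hf : Continuous f) : ∃ F, 0 ≤ F ∧ ∀ s, |s| ≤ 2 → |f s| ≤ F := by
  obtain ⟨F, hF⟩ := (isCompact_Icc (a := (-2:ℝ)) (b := 2)).exists_bound_of_continuousOn
    hf.continuousOn
  exact ⟨max F 0, le_max_right _ _, fun s hs => le_trans (hF s (abs_le.mp hs)) (le_max_left _ _)⟩

lemma two_term {a b c d M F : ℝ} (ha : |a| ≤ M) (hb : |b| ≤ F) (hc : |c| ≤ M) (hd : |d| ≤ F) :
    |a * b + c * d| ≤ 2 * M * F + 1 := by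
  have h1 : |a * b| ≤ M * F := by
    rw [abs_mul]; exact mul_le_mul ha hb (abs_nonneg _) (le_trans (abs_nonneg _) ha)
  have h2 : |c * d| ≤ M * F := by
    rw [abs_mul]; exact mul_le_mul hc hd (abs_nonneg _) (le_trans (abs_nonneg _) ha)
  linarith [abs_add_le (a * b) (c * d)]

theorem exists_Phi {N : ℕ} {ρ g : Par N → E → ℝ} (hρ : JS ρ) (hg : JS g)
    (hρH : ∀ a, Hor (ρ a)) (hgH : ∀ a, Hor (g a)) {ρ0 R σ p : ℝ} (hρ0 : 0 < ρ0)
    (hρ1 : ∀ a z, ρ0 ≤ ρ a z) (hR : 0 < R) (hσ : 0 < σ) (hσ1 : σ ≤ 1 / 10) (hp : 0 < p)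
    {G f : ℝ → ℝ} (hf : ContDiff ℝ ∞ f) (hfG : ∀ s, deriv (deriv f) s + f s = G s) :
    ∃ om : ℝ, 1 ≤ om ∧ ∃ κ : ℝ, 0 < κ ∧ ∃ Φ Pos : Par N → E → ℝ, JS Φ ∧
      Continuous (Function.uncurry Pos) ∧
      (∀ a z, -Lap (Φ a) z - om ^ 2 * Φ a z = Pos a z - g a z * G (om * z 0)) ∧
      (∀ a ∈ Qc N, ∀ z ∈ Bx R om, κ ≤ Pos a z ∧ Pos a z * max (Φ a z) 0 ≤ p ∧
        |Φ a z - ρ a z * Real.cos (om * z 0)| ≤ σ / 2 * ρ a z) ∧
      ∀ a ∈ Qc N, IsConnected {z | z ∈ Bx R om ∧ 0 < Φ a z} := by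
  obtain ⟨M1, -, m1⟩ := JS.bound hρ.continuous hρH R
  obtain ⟨M2, -, m2⟩ := JS.bound hρ.Lap.continuous (fun a => (hρH a).Lap) R
  obtain ⟨M3, -, m3⟩ := JS.bound hρ.Lap.Lap.continuous (fun a => (hρH a).Lap.Lap) R
  obtain ⟨M4, -, m4⟩ := JS.bound hg.continuous hgH R
  obtain ⟨M5, hM5, m5⟩ := JS.bound hg.Lap.continuous (fun a => (hgH a).Lap) R
  obtain ⟨F1, -, b1⟩ := bound2 f1_smooth.continuous
  obtain ⟨F2, -, b2⟩ := bound2 hf.continuous
  obtain ⟨F3, -, b3⟩ := bound2 (deriv_smooth f1_smooth).continuous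
  obtain ⟨F4, hF4, b4⟩ := bound2 (deriv_smooth hf).continuous
  obtain ⟨M, k1, k2, k3, k4, k5⟩ : ∃ M, M1 ≤ M ∧ M2 ≤ M ∧ M3 ≤ M ∧ M4 ≤ M ∧ M5 ≤ M :=
    ⟨max M1 (max M2 (max M3 (max M4 M5))), by simp, by simp, by simp, by simp, by simp⟩
  obtain ⟨F, l1, l2, l3, l4⟩ : ∃ F, F1 ≤ F ∧ F2 ≤ F ∧ F3 ≤ F ∧ F4 ≤ F :=
    ⟨max F1 (max F2 (max F3 F4)), by simp, by simp, by simp, by simp⟩
  have hM : 0 ≤ M := le_trans hM5 k5
  have hF : 0 ≤ F := le_trans hF4 l4
  obtain ⟨C, hC⟩ : ∃ C, C = 2 * M * F + 1 := ⟨_, rfl⟩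
  have hC0 : 0 < C := by rw [hC]; positivity
  obtain ⟨om, hom⟩ : ∃ om, om = 1 + 6 * C / (σ * ρ0) + 6 * C * M / p := ⟨_, rfl⟩
  have o1 : 0 ≤ 6 * C / (σ * ρ0) := by positivity
  have o2 : 0 ≤ 6 * C * M / p := by positivity
  have hom1 : 1 ≤ om := by linarith only [hom, o1, o2]
  have hom0 : 0 < om := by linarith only [hom1]
  obtain ⟨u, hu⟩ : ∃ u, u = (om ^ 2)⁻¹ := ⟨_, rfl⟩
  have hu0 : 0 < u := by rw [hu]; positivity
  have hu1 : om ^ 2 * u = 1 := by rw [hu]; exact mul_inv_cancel₀ (by positivity)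
  have hu2 : om * u ≤ 1 := by
    linarith only [hu1, mul_le_mul_of_nonneg_right hom1 (mul_pos hom0 hu0).le]
  have hu3 : u ≤ 1 := by linarith only [hu2, mul_le_mul_of_nonneg_right hom1 hu0.le]
  have hu4 : 3 * C * u ≤ σ / 2 * ρ0 := by
    have h1 : 6 * C / (σ * ρ0) * u ≤ 1 :=
      le_trans (mul_le_mul_of_nonneg_right (by linarith only [hom, o2]) hu0.le) hu2
    rw [div_mul_eq_mul_div, div_le_one (by positivity)] at h1
    linarith only [h1]
  have hu5 : 6 * C * M * u ≤ p := by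
    have h1 : 6 * C * M / p * u ≤ 1 :=
      le_trans (mul_le_mul_of_nonneg_right (by linarith only [hom, o1]) hu0.le) hu2
    rwa [div_mul_eq_mul_div, div_le_one hp] at h1
  let Φ : Par N → E → ℝ := fun a z => (ρ a z * Real.cos (om * z 0)
    + u * (Lap (ρ a) z * f1 (om * z 0) + g a z * f (om * z 0))) + -(2 * C * u ^ 2)
  let Pos : Par N → E → ℝ := fun a z =>
    2 * C * u - u * (Lap (Lap (ρ a)) z * f1 (om * z 0) + Lap (g a) z * f (om * z 0))
  have vs : ∀ {h : ℝ → ℝ}, ContDiff ℝ ∞ h → ContDiff ℝ ∞ fun q : Par N × E => h (om * q.2 0) :=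
    fun hh => (vert_smooth hh om).comp contDiff_snd
  have happrox : ∀ a ∈ Qc N, ∀ z, ‖pr z‖ ≤ R → ∀ s, |s| ≤ 2 →
      |(ρ a z * Real.cos s + u * (Lap (ρ a) z * f1 s + g a z * f s)) + -(2 * C * u ^ 2)
        - ρ a z * Real.cos s| ≤ σ / 2 * ρ a z := by
    intro a ha z hz s hs
    have h1 := abs_le.mp (two_term (le_trans (m2 a ha z hz) k2) (le_trans (b1 s hs) l1)
      (le_trans (m4 a ha z hz) k4) (le_trans (b2 s hs) l2))
    have h2 : σ / 2 * ρ0 ≤ σ / 2 * ρ a z := mul_le_mul_of_nonneg_left (hρ1 a z) (by positivity)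
    have h3 := mul_le_mul_of_nonneg_left h1.1 hu0.le
    have h4 := mul_le_mul_of_nonneg_left h1.2 hu0.le
    have h5 : C * u ^ 2 ≤ C * u := mul_le_mul_of_nonneg_left
      (by linarith only [mul_le_mul_of_nonneg_left hu3 hu0.le]) hC0.le
    have h6 : 0 ≤ C * u ^ 2 := by positivity
    have h7 := mul_pos hC0 hu0
    rw [← hC] at h3 h4
    rw [abs_le]
    constructor
    · linarith only [h2, h3, h5, hu4]
    · linarith only [h2, h4, h6, h7, hu4]
  refine ⟨om, hom1, C * u, by positivity, Φ, Pos, ?_, ?_, ?_, ?_, ?_⟩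
  · exact ((hρ.cd.mul (vs Real.contDiff_cos)).add (contDiff_const.mul
      ((hρ.Lap.cd.mul (vs f1_smooth)).add (hg.cd.mul (vs hf))))).add contDiff_const
  · exact (contDiff_const.sub (contDiff_const.mul
      ((hρ.Lap.Lap.cd.mul (vs f1_smooth)).add (hg.Lap.cd.mul (vs hf))))).continuous
  · intro a z
    have s1 := (hρ.sm a).mul (vert_smooth Real.contDiff_cos om)
    have s2 := (hρ.Lap.sm a).mul (vert_smooth f1_smooth om)
    have s3 := (hg.sm a).mul (vert_smooth hf om)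
    have e1 := f1_eq (om * z 0)
    have e2 := hfG (om * z 0)
    have e3 : deriv (deriv Real.cos) (om * z 0) = -Real.cos (om * z 0) := by
      rw [Real.deriv_cos']
      exact (Real.hasDerivAt_sin _).neg.deriv
    simp only [Φ, Pos]
    rw [Lap_add (s1.add (contDiff_const.mul (s2.add s3))) contDiff_const, Lap_const,
      Lap_add s1 (contDiff_const.mul (s2.add s3)), Lap_const_mul _ (s2.add s3), Lap_add s2 s3,
      Lap_prod (hρH a) (hρ.sm a) Real.contDiff_cos, Lap_prod (hρH a).Lap (hρ.Lap.sm a) f1_smooth,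
      Lap_prod (hgH a) (hg.sm a) hf, e3, ← e2]
    linear_combination (-(om ^ 2 * u * Lap (ρ a) z)) * e1
      + (Lap (ρ a) z * Real.cos (om * z 0) - g a z * (deriv (deriv f) (om * z 0) + f (om * z 0))
        + 2 * C * u) * hu1
  · intro a ha z hz
    have h1 := abs_le.mp (two_term (le_trans (m3 a ha z hz.1.le) k3) (le_trans (b1 _ hz.2.le) l1)
      (le_trans (m5 a ha z hz.1.le) k5) (le_trans (b2 _ hz.2.le) l2))
    have h3 := mul_le_mul_of_nonneg_left h1.1 hu0.le
    have h4 := mul_le_mul_of_nonneg_left h1.2 hu0.le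
    rw [← hC] at h3 h4
    have h5 := happrox a ha z hz.1.le _ hz.2.le
    refine ⟨by simp only [Pos]; linarith only [h4], ?_, h5⟩
    have h6 : Pos a z ≤ 3 * C * u := by simp only [Pos]; linarith only [h3]
    have h7 : max (Φ a z) 0 ≤ 2 * M := by
      refine max_le ?_ (by positivity)
      have a1 := (abs_le.mp h5).2
      have a2 := (abs_le.mp (le_trans (m1 a ha z hz.1.le) k1)).2
      have a3 := le_trans hρ0.le (hρ1 a z)
      have a4 := mul_le_mul_of_nonneg_left (Real.cos_le_one (om * z 0)) a3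
      have a5 := mul_le_mul_of_nonneg_right hσ1 a3
      simp only [Φ]
      linarith only [a1, a2, a3, a4, a5]
    calc Pos a z * max (Φ a z) 0 ≤ 3 * C * u * (2 * M) :=
          mul_le_mul h6 h7 (le_max_right _ _) (by positivity)
      _ ≤ p := by linarith only [hu5]
  · intro a ha
    have hpos : ∀ z, ‖pr z‖ ≤ R → ∀ s, |s| ≤ 1 →
        0 < (ρ a z * Real.cos s + u * (Lap (ρ a) z * f1 s + g a z * f s)) + -(2 * C * u ^ 2) := by
      intro z hz s hs
      have a1 := (abs_le.mp (happrox a ha z hz s (by linarith only [hs]))).1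
      have a2 := lt_of_lt_of_le hρ0 (hρ1 a z)
      have a3 := mul_le_mul_of_nonneg_left (cos_ge_half hs) a2.le
      have a4 := mul_le_mul_of_nonneg_right hσ1 a2.le
      linarith only [a1, a2, a3, a4]
    have hbase : ∀ z, z 0 = 0 → ‖z‖ < R → z ∈ {z | z ∈ Bx R om ∧ 0 < Φ a z} := by
      intro z h0 hz
      refine ⟨⟨by rwa [pr_of h0], by simp [h0]⟩, hpos z (by rw [pr_of h0]; exact hz.le) _ ?_⟩
      simp [h0]
    refine IsPathConnected.isConnected ⟨0, hbase 0 rfl (by simpa using hR), fun z hz => ?_⟩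
    refine JoinedIn.trans (y := pr z) (JoinedIn.of_segment_subset ?_)
      (JoinedIn.of_segment_subset ?_)
    · rw [segment_eq_image_lineMap]
      rintro _ ⟨t, ht, rfl⟩
      rw [AffineMap.lineMap_apply]
      refine hbase _ (by simp [pr_zero]) ?_
      simp only [vsub_eq_sub, sub_zero, vadd_eq_add, add_zero, norm_smul,
        Real.norm_of_nonneg ht.1]
      exact lt_of_le_of_lt (mul_le_of_le_one_left (norm_nonneg _) ht.2) hz.1.1
    · rw [segment_eq_image_lineMap]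
      rintro _ ⟨t, ht, rfl⟩
      have e : AffineMap.lineMap (pr z) z t = z + ((t - 1) * z 0) • ee 0 := by
        rw [AffineMap.lineMap_apply, pr_apply]
        simp only [vsub_eq_sub, vadd_eq_add, sub_sub_cancel, smul_smul, sub_mul, sub_smul, one_mul]
        abel
      have e0 : om * (z + ((t - 1) * z 0) • ee 0) 0 = t * (om * z 0) := by
        simp [ee_zero]; ring
      rw [e]
      refine ⟨⟨by rw [pr_add_vert]; exact hz.1.1, ?_⟩, ?_⟩
      · rw [e0, abs_mul, abs_of_nonneg ht.1]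
        exact lt_of_le_of_lt (mul_le_of_le_one_left (abs_nonneg _) ht.2) hz.1.2
      · simp only [Φ]
        rw [e0, hρH a, (hρH a).Lap, hgH a]
        have hb : ∀ s, |s| ≤ 2 →
            |u * (Lap (ρ a) z * deriv f1 s + g a z * deriv f s)| ≤ ρ a z * (1 / 2) := by
          intro s hs
          have h1 := two_term (le_trans (m2 a ha z hz.1.1.le) k2) (le_trans (b3 s hs) l3)
            (le_trans (m4 a ha z hz.1.1.le) k4) (le_trans (b4 s hs) l4)
          rw [abs_mul, abs_of_pos hu0]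
          have h2 := mul_le_mul_of_nonneg_left h1 hu0.le
          rw [← hC] at h2
          have h3 := hρ1 a z
          have h4 := mul_le_mul_of_nonneg_right hσ1 hρ0.le
          linarith only [h2, h3, h4, hu4, hρ0, mul_pos hC0 hu0]
        have a2 := lt_of_lt_of_le hρ0 (hρ1 a z)
        refine star1d (φ := fun s => (ρ a z * Real.cos s
          + u * (Lap (ρ a) z * f1 s + g a z * f s)) + -(2 * C * u ^ 2))
          (φ' := fun s => ρ a z * -Real.sin s
            + u * (Lap (ρ a) z * deriv f1 s + g a z * deriv f s)) (fun s => ?_)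
          (hpos z hz.1.1.le) (fun s hs => ?_) (fun s hs => ?_) hz.1.2 hz.2 ht
        · exact (((Real.hasDerivAt_cos s).const_mul _).add
            ((((f1_smooth.differentiable inf_ne s).hasDerivAt.const_mul _).add
              ((hf.differentiable inf_ne s).hasDerivAt.const_mul _)).const_mul _)).add_const _
        · have h1 := (abs_le.mp (hb s (abs_le.mpr ⟨by linarith only [hs.1], hs.2⟩))).2
          have h2 := mul_le_mul_of_nonneg_left (sin_ge_half hs) a2.le
          linarith only [h1, h2]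
        · have h1 := (abs_le.mp (hb s (abs_le.mpr ⟨hs.1, by linarith only [hs.2]⟩))).1
          have h2 := mul_le_mul_of_nonneg_left
            (sin_ge_half (s := -s) ⟨by linarith only [hs.2], by linarith only [hs.1]⟩) a2.le
          rw [Real.sin_neg] at h2
          linarith only [h1, h2]

end Pool.Agent.MP_92c74b_an
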